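import Pool.Agent.Helper7K9.TC.Stm

/-!
# The operators given by the elements of the group, over an extension of the coefficients
-/

open CategoryTheory AlgebraicGeometry TensorProduct

universe u v w

namespace Pool.Agent.Helper7K9.TC

open Module
open Pool.Agent.H914 Pool.Agent.H914.VarClass Pool.Agent.H914.VarClass.Obj
  Pool.Agent.H914.WeilCohomology
open Pool.Agent.Y133.Half
open Pool.Agent.Y121.AH (em ex em_smul em_add em_mul em_map em_tr em_gr em_zero em_xp tmul_ind
  tmul_eq dia dia_apply em_injective)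
open Pool.Agent.Helper7K9.FP Pool.Agent.Helper7K9.FI

variable {k : Type u} [Field k] {𝒱 : VarClass k} {ops : CycleOps 𝒱}

section Nat

/-- An endomorphism of the cohomology theory. -/
structure NatAut (V : WeilCohomology.{u, v} ops) (A : ∀ Z : 𝒱.Obj, Module.End V.K (V.H Z)) :
    Prop where
  mul : ∀ (Z : 𝒱.Obj) (a b : V.H Z), A Z (a * b) = A Z a * A Z b
  map : ∀ {Y Z : 𝒱.Obj} (f : Y ⟶ Z) (b : V.H Z), A Y (V.map f b) = V.map f (A Z b)

lemma NatAut.pwo {V : WeilCohomology.{u, v} ops} {A : ∀ Z : 𝒱.Obj, Module.End V.K (V.H Z)}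
    (h : NatAut V A) (X : 𝒱.Obj) : ∀ (n : ℕ) (v : V.H (pw X n)),
      FI.pwo V (A X) n v = A (pw X n) v
  | 0, _ => rfl
  | n + 1, v => by
    refine pw_ind (p := fun v => FI.pwo V (A X) (n + 1) v = A (pw X (n + 1)) v) ?_ ?_ v
    · intro a b ha hb; rw [map_add, map_add, ha, hb]
    · intro a b
      have h1 : A ((pw X n).prod X) (xp V a b) = xp V (A (pw X n) a) (A X b) := by
        rw [xp_def, h.mul, h.map, h.map, xp_def]
      rw [pwo_succ_xp, h.pwo X n a]
      exact h1.symm

end Nat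

section Sim

variable {W : WeilCohomology.{u, 0} ops} {Γ : Type w} [Group Γ] (G : GalAct W Γ)
  {Ω : Type} [Field Ω] [Algebra W.K Ω]

/-- Induction for classes with extended coefficients. -/
lemma hom_ind {Z : 𝒱.Obj} {p : (baseW W Ω).H Z → Prop} (h0 : p 0)
    (hadd : ∀ x y, p x → p y → p (x + y))
    (h : ∀ (l : (baseW W Ω).K) (i : ℕ) (a : W.H Z), a ∈ W.gr Z i → p (l • em W Ω a))
    (x : (baseW W Ω).H Z) : p x := by
  refine tmul_ind (p := p) h0 hadd ?_ x
  intro l a
  refine gr_induction (W.isInternal Z)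
    (p := fun a => p (show (baseW W Ω).H Z from (l ⊗ₜ[W.K] a))) ?_ ?_ a
  · intro i a ha
    rw [tmul_eq]
    exact h _ i a ha
  · intro a b ha hb
    rw [tmul_eq] at ha hb ⊢
    rw [em_add, smul_add]
    exact hadd _ _ ha hb

/-- The action with extended coefficients. -/
noncomputable def acx (Ω : Type) [Field Ω] [Algebra W.K Ω] (g : Γ) (Z : 𝒱.Obj) :
    Module.End (baseW W Ω).K ((baseW W Ω).H Z) :=
  (LinearMap.baseChange Ω (G.act Z g) : Ω ⊗[W.K] W.H Z →ₗ[Ω] Ω ⊗[W.K] W.H Z)

lemma acx_em (g : Γ) {Z : 𝒱.Obj} (a : W.H Z) : acx G Ω g Z (em W Ω a) = em W Ω (G.act Z g a) :=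
  LinearMap.baseChange_tmul _ _ _

/-- The element `g` of the group times the operator which multiplies the classes of degree `i` with
`s ^ i`. -/
noncomputable def sim (g : Γ) (s : (baseW W Ω).K) (Z : 𝒱.Obj) :
    Module.End (baseW W Ω).K ((baseW W Ω).H Z) :=
  acx G Ω g Z ∘ₗ dia ((baseW W Ω).isInternal Z) fun i => s ^ i

lemma sim_em (g : Γ) (s : (baseW W Ω).K) {Z : 𝒱.Obj} {i : ℕ} {a : W.H Z} (ha : a ∈ W.gr Z i) :
    sim G g s Z (em W Ω a) = s ^ i • em W Ω (G.act Z g a) := by
  rw [sim, LinearMap.comp_apply, dia_apply _ _ (em_gr ha), map_smul, acx_em]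

lemma sim_nat (g : Γ) (s : (baseW W Ω).K) : NatAut (baseW W Ω) (sim G g s) where
  mul Z a b := by
    refine hom_ind (p := fun a => sim G g s Z (a * b) = sim G g s Z a * sim G g s Z b)
      ?_ ?_ ?_ a
    · rw [zero_mul, map_zero, zero_mul]
    · intro x y hx hy; rw [add_mul, map_add, hx, hy, map_add, add_mul]
    · intro l i a ha
      refine hom_ind (p := fun b => sim G g s Z (l • em W Ω a * b) =
        sim G g s Z (l • em W Ω a) * sim G g s Z b) ?_ ?_ ?_ b
      · rw [mul_zero, map_zero, mul_zero]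
      · intro x y hx hy; rw [mul_add, map_add, hx, hy, map_add, mul_add]
      · intro m j b hb
        rw [smul_mul_smul_comm, map_smul, map_smul, map_smul, ← em_mul,
          sim_em G g s (W.mul_mem ha hb), sim_em G g s ha, sim_em G g s hb, G.mul, em_mul,
          smul_mul_smul_comm, smul_mul_smul_comm, smul_smul, smul_smul, pow_add]
  map f b := by
    refine hom_ind (p := fun b => sim G g s _ ((baseW W Ω).map f b) =
      (baseW W Ω).map f (sim G g s _ b)) ?_ ?_ ?_ b
    · rw [map_zero, map_zero, map_zero, map_zero]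
    · intro x y hx hy; rw [map_add, map_add, hx, hy, map_add, map_add]
    · intro l i a ha
      rw [map_smul, map_smul, map_smul, map_smul, em_map, sim_em G g s (W.map_mem f ha),
        sim_em G g s ha, map_smul, em_map, G.map]

lemma sim_gr (g : Γ) (s : (baseW W Ω).K) (Z : 𝒱.Obj) : IsGr (baseW W Ω) (sim G g s Z) := by
  intro i a ha
  rw [sim, LinearMap.comp_apply, dia_apply _ _ ha, map_smul]
  refine Submodule.smul_mem _ _ ?_
  have ha' : a ∈ Submodule.span Ω
      ((W.gr Z i).map (TensorProduct.mk W.K Ω (W.H Z) 1) : Set (Ω ⊗[W.K] W.H Z)) := by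
    rw [← Submodule.baseChange_eq_span]
    exact ha
  clear ha
  induction ha' using Submodule.span_induction with
  | mem x hx =>
    obtain ⟨a, ha, rfl⟩ := hx
    have h1 : acx G Ω g Z (em W Ω a) ∈ (baseW W Ω).gr Z i := by
      rw [acx_em]
      exact em_gr (G.gr g ha)
    exact h1
  | zero =>
    have h1 : acx G Ω g Z (0 : (baseW W Ω).H Z) ∈ (baseW W Ω).gr Z i := by
      rw [map_zero]
      exact Submodule.zero_mem _
    exact h1
  | add x y _ _ hx hy =>
    have h1 : acx G Ω g Z ((show (baseW W Ω).H Z from x) + y) ∈ (baseW W Ω).gr Z i := by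
      rw [map_add]
      exact Submodule.add_mem _ hx hy
    exact h1
  | smul l x _ hx =>
    have h1 : acx G Ω g Z ((show (baseW W Ω).K from l) • (show (baseW W Ω).H Z from x)) ∈
        (baseW W Ω).gr Z i := by
      rw [map_smul]
      exact Submodule.smul_mem _ _ hx
    exact h1

lemma sim_sim (g h : Γ) (s t : (baseW W Ω).K) (Z : 𝒱.Obj) (a : (baseW W Ω).H Z) :
    sim G g s Z (sim G h t Z a) = sim G (g * h) (s * t) Z a := by
  refine hom_ind (p := fun a => sim G g s Z (sim G h t Z a) = sim G (g * h) (s * t) Z a) ?_ ?_ ?_ a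
  · rw [map_zero, map_zero, map_zero]
  · intro x y hx hy; rw [map_add, map_add, map_add, hx, hy]
  · intro l i a ha
    rw [map_smul, map_smul, map_smul, sim_em G h t ha, map_smul, sim_em G g s (G.gr h ha),
      sim_em G (g * h) (s * t) ha, smul_smul, smul_smul, smul_smul, map_mul (G.act Z), mul_pow,
      mul_comm (s ^ i), mul_assoc]
    rfl

lemma sim_one (Z : 𝒱.Obj) (a : (baseW W Ω).H Z) : sim G 1 1 Z a = a := by
  refine hom_ind (p := fun a => sim G 1 1 Z a = a) ?_ ?_ ?_ a
  · rw [map_zero]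
  · intro x y hx hy; rw [map_add, hx, hy]
  · intro l i a ha
    rw [map_smul, sim_em G 1 1 ha, one_pow, one_smul, map_one (G.act Z)]
    rfl

lemma sim_tr (g : Γ) (s : (baseW W Ω).K) (h : s ^ 2 * ex W Ω (G.χ g) = 1) (Z : 𝒱.Obj)
    (a : (baseW W Ω).H Z) : (baseW W Ω).tr Z (sim G g s Z a) = (baseW W Ω).tr Z a := by
  refine hom_ind (p := fun a => (baseW W Ω).tr Z (sim G g s Z a) = (baseW W Ω).tr Z a) ?_ ?_ ?_ a
  · rw [map_zero]
  · intro x y hx hy; rw [map_add, map_add, hx, hy, map_add]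
  · intro l i a ha
    rw [map_smul, map_smul, map_smul, sim_em G g s ha, map_smul, em_tr, em_tr, G.tr]
    congr 1
    by_cases hi : i = 2 * Z.dim
    · have h1 : ex W Ω ((G.χ g : W.K) ^ Z.dim * W.tr Z a) =
          ex W Ω (G.χ g) ^ Z.dim * ex W Ω (W.tr Z a) := by
        refine (map_mul (algebraMap W.K Ω) _ _).trans ?_
        rw [map_pow]
        rfl
      rw [h1, smul_eq_mul, ← mul_assoc, hi, pow_mul, ← mul_pow, h, one_pow, one_mul]
    · rw [W.tr_eq_zero ha hi, mul_zero]
      have h1 : ex W Ω (0 : W.K) = 0 := map_zero (algebraMap W.K Ω)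
      rw [h1, smul_zero]

lemma sim_iso (g : Γ) (s : (baseW W Ω).K) (h : s ^ 2 * ex W Ω (G.χ g) = 1) (Z : 𝒱.Obj)
    (a b : (baseW W Ω).H Z) :
    (baseW W Ω).tr Z (sim G g s Z a * sim G g s Z b) = (baseW W Ω).tr Z (a * b) := by
  rw [← (sim_nat G g s).mul, sim_tr G g s h]

/-- The classes of degree `2 j` fixed by the operator. -/
lemma sim_fix (g : Γ) (s : (baseW W Ω).K) (h : s ^ 2 * ex W Ω (G.χ g) = 1) {Z : 𝒱.Obj} {j : ℕ}
    {a : W.H Z} (ha : a ∈ W.gr Z (2 * j)) :
    sim G g s Z (em W Ω a) = em W Ω a ↔ G.act Z g a = (G.χ g : W.K) ^ j • a := by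
  have hs : s ^ (2 * j) * ex W Ω (G.χ g) ^ j = 1 := by
    rw [pow_mul, ← mul_pow, h, one_pow]
  have hex : ex W Ω ((G.χ g : W.K) ^ j) = ex W Ω (G.χ g) ^ j := map_pow (algebraMap W.K Ω) _ _
  rw [sim_em G g s ha]
  constructor
  · intro h1
    rw [← sub_eq_zero]
    apply em_injective (W := W) (L := Ω)
    have h2 := congrArg (fun v => ex W Ω (G.χ g) ^ j • v) h1
    simp only [smul_smul] at h2
    rw [mul_comm, hs, one_smul, ← hex, ← em_smul] at h2
    have h3 : em W Ω (G.act Z g a - (G.χ g : W.K) ^ j • a) =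
        em W Ω (G.act Z g a) - em W Ω ((G.χ g : W.K) ^ j • a) := TensorProduct.tmul_sub _ _ _
    rw [h3, h2, sub_self]
  · intro h1
    rw [h1, em_smul, hex, smul_smul, hs, one_smul]

end Sim

end Pool.Agent.Helper7K9.TC
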