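import Pool.Agent.Helper7K9.TC.Stm

/-!
# The contraction of two factors with the trace form
-/

open CategoryTheory AlgebraicGeometry TensorProduct

universe u v w

namespace Pool.Agent.Helper7K9.TC

open Module
open Pool.Agent.H914 Pool.Agent.H914.VarClass Pool.Agent.H914.VarClass.Obj
  Pool.Agent.H914.WeilCohomology
open Pool.Agent.Y133.Half
open Pool.Agent.Helper7K9.FP Pool.Agent.Helper7K9.FI

variable {k : Type u} [Field k] {𝒱 : VarClass k} {ops : CycleOps 𝒱}

namespace ConL

variable {W : WeilCohomology.{u, v} ops} {X Y A : 𝒱.Obj}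

/-- Push-forwards are operators of the system. -/
lemma Op_push (S : Sys W) (f : X ⟶ Y) : W.push f ∈ S.Op X Y := by
  have h : W.corr (W.push (Obj.lift (𝟙 X) f) (1 : W.H X)) = W.push f := by
    apply LinearMap.ext
    intro a
    rw [corr_apply, ← W.push_mul, one_mul, ← W.map_comp, ← W.push_comp,
      Obj.lift_fst, Obj.lift_snd, W.map_id]
  rw [← h]
  exact Sys.Op.corr (S.push _ (S.one X))

/-- Push-forward along the projection of a product, for all classes. -/
lemma push_fst' (a : W.H A) (y : W.H X) : W.push (fst A X) (xp W a y) = W.tr X y • a := by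
  refine gr_induction (W.isInternal X)
    (p := fun y => W.push (fst A X) (xp W a y) = W.tr X y • a) ?_ ?_ y
  · intro i y hy
    apply W.tr_ext
    intro c
    refine gr_induction (W.isInternal A)
      (p := fun c => W.tr A (W.push (fst A X) (xp W a y) * c) = W.tr A (W.tr X y • a * c)) ?_ ?_ c
    · intro j c hc
      rw [W.tr_push, xp_def, mul_assoc, W.comm (W.map_mem (snd A X) hy) (W.map_mem (fst A X) hc),
        mul_smul_comm, map_smul, ← mul_assoc, ← map_mul, W.tr_prod, smul_mul_assoc, map_smul,
        smul_eq_mul, smul_eq_mul]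
      by_cases h : i = 2 * X.dim
      · subst h
        have h1 : (-1 : W.K) ^ (2 * X.dim * j) = 1 := by
          rw [mul_assoc, pow_mul]; simp
        rw [h1, one_mul, mul_comm]
      · rw [W.tr_eq_zero hy h]; simp
    · intro c c' hc hc'
      rw [mul_add, map_add, hc, hc', mul_add, map_add]
  · intro y y' hy hy'
    rw [xp_add_right, map_add, hy, hy', map_add, add_smul]

lemma tr_repr {ι : Type} [Fintype ι] (b : Basis ι W.K (W.H X)) (a a' : W.H X) :
    W.tr X (a * a') = ∑ p, ∑ q, W.tr X (b p * b q) * (b.repr a p * b.repr a' q) := by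
  conv_lhs => rw [← b.sum_repr a, ← b.sum_repr a']
  rw [Finset.sum_mul, map_sum]
  refine Finset.sum_congr rfl fun p _ => ?_
  rw [Finset.mul_sum, map_sum]
  refine Finset.sum_congr rfl fun q _ => ?_
  rw [smul_mul_smul_comm, map_smul, smul_eq_mul, mul_comm]

end ConL

open ConL

theorem con (W : WeilCohomology.{u, 0} ops) : S_CON W := by
  intro S X ι _ _ b c hc
  constructor
  · intro n
    let B : 𝒱.Obj := pw X n
    let d : B.prod X ⟶ (B.prod X).prod X := lift (𝟙 (B.prod X)) (snd B X)
    let F : W.H ((B.prod X).prod X) →ₗ[W.K] W.H B :=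
      (W.push (fst B X)) ∘ₗ (W.map d).toLinearMap
    have hF : F ∈ S.Op ((B.prod X).prod X) B :=
      Sys.Op.comp (Op_push S _) (Sys.Op.map _)
    have hFx : ∀ (w : W.H B) (a a' : W.H X), F (xp W (xp W w a) a') = W.tr X (a * a') • w := by
      intro w a a'
      have h1 : W.map d (xp W (xp W w a) a') = xp W w (a * a') := by
        rw [xp_def, map_mul (W.map d), ← W.map_comp, ← W.map_comp, Obj.lift_fst, Obj.lift_snd,
          W.map_id, xp_def, xp_def, mul_assoc, ← map_mul (W.map (snd B X))]
      change W.push (fst B X) (W.map d (xp W (xp W w a) a')) = _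
      rw [h1, push_fst']
    refine ⟨F, hF, fun v J => ?_⟩
    refine pw_ind (X := X) (n := n + 1) (p := fun v => c n (F v) J = ∑ p, ∑ q,
      W.tr X (b p * b q) * c (n + 2) v (Fin.snoc (Fin.snoc J p : Fin (n + 2) → ι) q)) ?_ ?_ v
    · intro v v' hv hv'
      have h1 : F (v + v') = F v + F v' := map_add F v v'
      rw [h1, map_add, Pi.add_apply, hv, hv', ← Finset.sum_add_distrib]
      refine Finset.sum_congr rfl fun p _ => ?_
      rw [← Finset.sum_add_distrib]
      refine Finset.sum_congr rfl fun q _ => ?_
      rw [map_add, Pi.add_apply, mul_add]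
    · intro u a'
      refine pw_ind (X := X) (n := n) (p := fun u => c n (F (xp W u a')) J = ∑ p, ∑ q,
        W.tr X (b p * b q) * c (n + 2) (xp W u a' : W.H ((pw X (n + 1)).prod X))
          (Fin.snoc (Fin.snoc J p : Fin (n + 2) → ι) q)) ?_ ?_ u
      · intro v v' hv hv'
        have h0 : (xp W (v + v') a' : W.H ((pw X (n + 1)).prod X)) = xp W v a' + xp W v' a' :=
          xp_add_left _ _ _
        have h1 : F (xp W (v + v') a') = F (xp W v a') + F (xp W v' a') := by
          refine (congrArg F h0).trans (map_add F _ _)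
        rw [h1, map_add, Pi.add_apply, hv, hv', ← Finset.sum_add_distrib]
        refine Finset.sum_congr rfl fun p _ => ?_
        rw [← Finset.sum_add_distrib]
        refine Finset.sum_congr rfl fun q _ => ?_
        have h2 := congrArg (fun z => c (n + 2) z (Fin.snoc (Fin.snoc J p : Fin (n + 2) → ι) q)) h0
        refine Eq.symm ((congrArg (fun z => W.tr X (b p * b q) * z) h2).trans ?_)
        refine (congrArg (fun z => W.tr X (b p * b q) * z) (congrFun (map_add (c (n + 2)) _ _)
          _)).trans ?_
        rw [Pi.add_apply, mul_add]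
      · intro w a
        have h1 : c n (F (xp W (xp W w a : W.H ((pw X n).prod X)) a')) J =
            W.tr X (a * a') * c n w J := by
          refine (congrArg (fun z => c n z J) (hFx w a a')).trans ?_
          rw [map_smul, Pi.smul_apply, smul_eq_mul]
        rw [h1, tr_repr b, Finset.sum_mul]
        refine Finset.sum_congr rfl fun p _ => ?_
        rw [Finset.sum_mul]
        refine Finset.sum_congr rfl fun q _ => ?_
        have h2 := hc.succ (n + 1) (xp W w a : W.H ((pw X n).prod X)) a'
          (Fin.snoc (Fin.snoc J p : Fin (n + 2) → ι) q)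
        rw [h2]
        have h3 := hc.succ n w a (Fin.snoc J p : Fin (n + 2) → ι)
        have h4 : (fun k : Fin (n + 1 + 1) => (Fin.snoc (Fin.snoc J p : Fin (n + 2) → ι) q :
            Fin (n + 1 + 1 + 1) → ι) k.castSucc) = (Fin.snoc J p : Fin (n + 2) → ι) := by
          funext k
          exact Fin.snoc_castSucc (α := fun _ => ι) q (Fin.snoc J p : Fin (n + 2) → ι) k
        have h5 : (fun k : Fin (n + 1) => (Fin.snoc J p : Fin (n + 2) → ι) k.castSucc) = J := by
          funext k
          exact Fin.snoc_castSucc (α := fun _ => ι) p J k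
        rw [h4, h3, h5, Fin.snoc_last, Fin.snoc_last]
        ring
  · let D : W.H (X.prod X) := W.push (diag X) (1 : W.H X)
    have hD : D ∈ S.C (X.prod X) := Sys.diag_mem
    let T : W.H (X.prod X) →ₗ[W.K] W.K := W.tr (X.prod X) ∘ₗ LinearMap.mulRight W.K D
    have hT : ∀ a a' : W.H X, T (xp W a a') = W.tr X (a * a') := by
      intro a a'
      change W.tr (X.prod X) (xp W a a' * D) = _
      have h2 : diag X ≫ fst X X = 𝟙 X := by rw [diag, Obj.lift_fst]
      have h3 : diag X ≫ snd X X = 𝟙 X := by rw [diag, Obj.lift_snd]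
      rw [← PH.even_comm (S.even hD), W.tr_push, one_mul, xp_def, map_mul (W.map _),
        ← W.map_comp, ← W.map_comp, h2, h3, W.map_id, W.map_id]
    refine ⟨D, hD, fun v => ?_⟩
    change T v = _
    refine pw_ind (X := X) (n := 0) (p := fun v => T v =
      ∑ p, ∑ q, W.tr X (b p * b q) * c 1 v (Fin.snoc (fun _ : Fin 1 => p) q)) ?_ ?_ v
    · intro v v' hv hv'
      have h1 : T (v + v') = T v + T v' := map_add T v v'
      rw [h1, hv, hv', ← Finset.sum_add_distrib]
      refine Finset.sum_congr rfl fun p _ => ?_
      rw [← Finset.sum_add_distrib]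
      refine Finset.sum_congr rfl fun q _ => ?_
      rw [map_add, Pi.add_apply, mul_add]
    · intro a a'
      refine (hT a a').trans ?_
      refine (tr_repr b a a').trans ?_
      refine Finset.sum_congr rfl fun p _ => ?_
      refine Finset.sum_congr rfl fun q _ => ?_
      have h2 := hc.succ 0 a a' (Fin.snoc (fun _ : Fin 1 => p) q)
      have h3 := hc.zero a (fun k : Fin 1 => (Fin.snoc (fun _ : Fin 1 => p) q : Fin 2 → ι)
        k.castSucc)
      refine congrArg (fun z => W.tr X (b p * b q) * z) ?_
      refine Eq.symm (h2.trans ?_)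
      rw [Fin.snoc_last]
      refine congrArg (fun z => z * b.repr a' q) (h3.trans ?_)
      exact congrArg (fun z => b.repr a z) (Fin.snoc_castSucc (α := fun _ => ι) q
        (fun _ : Fin 1 => p) 0)

end Pool.Agent.Helper7K9.TC
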