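import Pool.Agent.Helper7K9.TC.Stm

/-! [CON]: the contraction of two factors with the trace form. -/

open CategoryTheory AlgebraicGeometry TensorProduct

universe u v w

namespace Pool.Agent.Helper7K9.TC

open Module
open Pool.Agent.H914 Pool.Agent.H914.VarClass Pool.Agent.H914.VarClass.Obj
  Pool.Agent.H914.WeilCohomology
open Pool.Agent.Y133.Half
open Pool.Agent.Helper7K9.FP Pool.Agent.Helper7K9.FI

variable {k : Type u} [Field k] {𝒱 : VarClass k} {ops : CycleOps 𝒱}

namespace ConL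

variable {W : WeilCohomology.{u, 0} ops} {X Y : 𝒱.Obj}

/-- The push-forward of an exterior product, for classes of all degrees. -/
lemma push_fst' (a : W.H X) (b : W.H Y) : W.push (fst X Y) (xp W a b) = W.tr Y b • a := by
  refine gr_induction (W.isInternal Y) (p := fun b => W.push (fst X Y) (xp W a b) =
    W.tr Y b • a) ?_ ?_ b
  · intro j b hb
    by_cases hj : j % 2 = 0
    · exact push_fst a b (PH.of' (b := 0) hj hb)
    · rw [W.tr_eq_zero hb (by omega), zero_smul]
      apply W.tr_ext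
      intro c
      rw [zero_mul, map_zero]
      refine gr_induction (W.isInternal X) (p := fun c =>
        W.tr X (W.push (fst X Y) (xp W a b) * c) = 0) ?_ ?_ c
      · intro i c hc
        rw [W.tr_push, xp_def, mul_assoc,
          W.comm (W.map_mem (snd X Y) hb) (W.map_mem (fst X Y) hc), mul_smul_comm, map_smul,
          ← mul_assoc, ← map_mul, W.tr_prod, W.tr_eq_zero hb (by omega), mul_zero, smul_zero]
      · intro c c' h h'; rw [mul_add, map_add, h, h', add_zero]
  · intro b b' h h'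
    rw [xp_add_right, map_add, h, h', map_add, add_smul]

/-- The form in coordinates. -/
lemma form {ι : Type} [Fintype ι] (b : Basis ι W.K (W.H X)) (a a' : W.H X) (r : W.K) :
    W.tr X (a * a') * r = ∑ p, ∑ q, W.tr X (b p * b q) * ((r * b.repr a p) * b.repr a' q) := by
  conv_lhs => rw [← b.sum_repr a, ← b.sum_repr a']
  rw [Finset.sum_mul_sum, map_sum, Finset.sum_mul]
  refine Finset.sum_congr rfl fun p _ => ?_
  rw [map_sum, Finset.sum_mul]
  refine Finset.sum_congr rfl fun q _ => ?_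
  rw [smul_mul_smul_comm, map_smul, smul_eq_mul]
  ring

lemma lin_ext1 {n : ℕ} (L₁ L₂ : W.H (pw X (n + 1)) →ₗ[W.K] W.K)
    (h : ∀ (a : W.H (pw X n)) (a' : W.H X), L₁ (xp W a a' : W.H ((pw X n).prod X)) =
      L₂ (xp W a a' : W.H ((pw X n).prod X))) (v : W.H (pw X (n + 1))) : L₁ v = L₂ v :=
  pw_ind (p := fun v => L₁ v = L₂ v) (fun a b ha hb => by rw [map_add, map_add, ha, hb]) h v

lemma lin_ext2 {n : ℕ} (L₁ L₂ : W.H (pw X (n + 2)) →ₗ[W.K] W.K)
    (h : ∀ (w : W.H (pw X n)) (a a' : W.H X),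
      L₁ (xp W (xp W w a : W.H ((pw X n).prod X)) a' : W.H (((pw X n).prod X).prod X)) =
      L₂ (xp W (xp W w a : W.H ((pw X n).prod X)) a' : W.H (((pw X n).prod X).prod X)))
    (v : W.H (pw X (n + 2))) : L₁ v = L₂ v := by
  refine lin_ext1 L₁ L₂ (fun w a' => ?_) v
  refine pw_ind (n := n) (p := fun w => L₁ (xp W w a' : W.H ((pw X (n + 1)).prod X)) =
    L₂ (xp W w a' : W.H ((pw X (n + 1)).prod X))) ?_ ?_ w
  · intro w w' h h'
    have e : (xp W (w + w') a' : W.H ((pw X (n + 1)).prod X)) = xp W w a' + xp W w' a' :=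
      xp_add_left _ _ _
    exact ((congrArg L₁ e).trans (map_add L₁ _ _)).trans
      ((congrArg₂ (· + ·) h h').trans ((map_add L₂ _ _).symm.trans (congrArg L₂ e.symm)))
  · intro w a; exact h w a a'

end ConL

open ConL

theorem con (W : WeilCohomology.{u, 0} ops) : S_CON W := by
  intro S X ι _ _ b c hc
  obtain ⟨dl, hdl⟩ : ∃ dl : W.H (pw X 1), dl = (W.push (diag X) (1 : W.H X) : W.H (X.prod X)) :=
    ⟨_, rfl⟩
  refine ⟨fun n => ?_, dl, by rw [hdl]; exact Sys.diag_mem, fun v => ?_⟩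
  · -- the section
    let δ : (pw X n).prod X ⟶ ((pw X n).prod X).prod X := Obj.lift (𝟙 _) (snd (pw X n) X)
    have hδ1 : δ ≫ fst _ _ = 𝟙 _ := Obj.lift_fst _ _
    have hδ2 : δ ≫ snd _ _ = snd (pw X n) X := Obj.lift_snd _ _
    let F : W.H (pw X (n + 2)) →ₗ[W.K] W.H (pw X n) := (W.push (fst (pw X n) X) ∘ₗ
      LinearMap.mulLeft W.K (1 : W.H ((pw X n).prod X))) ∘ₗ (W.map δ).toLinearMap
    have hF : F ∈ S.Op (pw X (n + 2)) (pw X n) :=
      Sys.Op.comp (Sys.Op.pushMul _ (S.one _)) (Sys.Op.map δ)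
    refine ⟨F, hF, fun v J => ?_⟩
    let L₁ : W.H (pw X (n + 2)) →ₗ[W.K] W.K := LinearMap.proj J ∘ₗ (c n).toLinearMap ∘ₗ F
    let L₂ : W.H (pw X (n + 2)) →ₗ[W.K] W.K := ∑ p, ∑ q, W.tr X (b p * b q) •
      (LinearMap.proj (Fin.snoc (Fin.snoc J p : Fin (n + 2) → ι) q) ∘ₗ (c (n + 2)).toLinearMap)
    have hL₂ : ∀ v, L₂ v = ∑ p, ∑ q, W.tr X (b p * b q) *
        c (n + 2) v (Fin.snoc (Fin.snoc J p : Fin (n + 2) → ι) q) := by
      intro v
      simp only [L₂, LinearMap.sum_apply, LinearMap.smul_apply, LinearMap.comp_apply,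
        LinearMap.proj_apply, LinearEquiv.coe_coe, smul_eq_mul]
    rw [← hL₂]
    refine lin_ext2 L₁ L₂ (fun w a a' => ?_) v
    have h1 : F (xp W (xp W w a : W.H ((pw X n).prod X)) a' : W.H (((pw X n).prod X).prod X)) =
        W.tr X (a * a') • w := by
      have h2 : W.map δ (xp W (xp W w a : W.H ((pw X n).prod X)) a') = xp W w (a * a') := by
        rw [xp_def, map_mul, ← W.map_comp, ← W.map_comp, hδ1, hδ2, W.map_id, xp_def, xp_def,
          map_mul, mul_assoc]
      change W.push (fst (pw X n) X) (1 * W.map δ (xp W (xp W w a) a')) = _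
      rw [one_mul, h2, push_fst']
    have h2 : L₁ (xp W (xp W w a : W.H ((pw X n).prod X)) a' : W.H (((pw X n).prod X).prod X)) =
        W.tr X (a * a') * c n w J :=
      (congrArg (fun u => c n u J) h1).trans (by rw [map_smul, Pi.smul_apply, smul_eq_mul])
    refine h2.trans ((form b a a' _).trans (Eq.trans ?_ (hL₂ _).symm))
    refine Finset.sum_congr rfl fun p _ => Finset.sum_congr rfl fun q _ => ?_
    have h3 := hc.succ (n + 1) (xp W w a : W.H ((pw X n).prod X)) a'
      (Fin.snoc (Fin.snoc J p : Fin (n + 2) → ι) q)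
    have h4 := hc.succ n w a (Fin.snoc J p : Fin (n + 2) → ι)
    have e1 : (fun k : Fin (n + 2) => (Fin.snoc (Fin.snoc J p : Fin (n + 2) → ι) q :
        Fin (n + 3) → ι) k.castSucc) = Fin.snoc J p := by
      funext k; exact Fin.snoc_castSucc (α := fun _ => ι) _ _ _
    have e2 : (Fin.snoc (Fin.snoc J p : Fin (n + 2) → ι) q : Fin (n + 3) → ι)
        (Fin.last (n + 2)) = q := Fin.snoc_last (α := fun _ => ι) _ _
    have e3 : (fun k : Fin (n + 1) => (Fin.snoc J p : Fin (n + 2) → ι) k.castSucc) = J := by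
      funext k; exact Fin.snoc_castSucc (α := fun _ => ι) _ _ _
    have e4 : (Fin.snoc J p : Fin (n + 2) → ι) (Fin.last (n + 1)) = p :=
      Fin.snoc_last (α := fun _ => ι) _ _
    rw [e1, e2] at h3
    rw [e3, e4] at h4
    congr 1
    refine Eq.trans ?_ h3.symm
    congr 1
    exact h4.symm
  · let L₁ : W.H (pw X 1) →ₗ[W.K] W.K := W.tr (pw X 1) ∘ₗ LinearMap.mulRight W.K dl
    let L₂ : W.H (pw X 1) →ₗ[W.K] W.K := ∑ p, ∑ q, W.tr X (b p * b q) •
      (LinearMap.proj (Fin.snoc (fun _ : Fin 1 => p) q : Fin 2 → ι) ∘ₗ (c 1).toLinearMap)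
    have hL₂ : ∀ v, L₂ v = ∑ p, ∑ q, W.tr X (b p * b q) *
        c 1 v (Fin.snoc (fun _ : Fin 1 => p) q) := by
      intro v
      simp only [L₂, LinearMap.sum_apply, LinearMap.smul_apply, LinearMap.comp_apply,
        LinearMap.proj_apply, LinearEquiv.coe_coe, smul_eq_mul]
    rw [← hL₂]
    refine lin_ext1 (n := 0) L₁ L₂ (fun (x : W.H X) (y : W.H X) => ?_) v
    have h0 : ∀ v : W.H (X.prod X), W.tr (X.prod X) (v * W.push (diag X) 1) =
        W.tr X (W.map (diag X) v) := by
      intro v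
      rw [← PH.even_comm (Sys.even S Sys.diag_mem) v, W.tr_push, one_mul]
    have e1 : diag X ≫ fst X X = 𝟙 X := Obj.lift_fst _ _
    have e2 : diag X ≫ snd X X = 𝟙 X := Obj.lift_snd _ _
    have h1 : ∀ x y : W.H X, W.map (diag X) (xp W x y) = x * y := by
      intro x y
      rw [xp_def, map_mul, ← W.map_comp, ← W.map_comp, e1, e2, W.map_id, W.map_id]
    have h2 : L₁ (xp W x y : W.H (X.prod X)) = W.tr X (x * y) * 1 := by
      rw [mul_one, ← h1, ← h0]
      subst hdl
      rfl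
    refine h2.trans ((form b x y _).trans (Eq.trans ?_ (hL₂ _).symm))
    refine Finset.sum_congr rfl fun p _ => Finset.sum_congr rfl fun q _ => ?_
    have h3 := hc.succ 0 x y (Fin.snoc (fun _ : Fin 1 => p) q : Fin 2 → ι)
    have e3 : (fun k : Fin 1 => (Fin.snoc (fun _ : Fin 1 => p) q : Fin 2 → ι) k.castSucc) =
        fun _ => p := by
      funext k; exact Fin.snoc_castSucc (α := fun _ => ι) _ _ _
    have e4 : (Fin.snoc (fun _ : Fin 1 => p) q : Fin 2 → ι) (Fin.last 1) = q :=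
      Fin.snoc_last (α := fun _ => ι) _ _
    rw [e3, hc.zero] at h3
    congr 1
    refine Eq.trans ?_ h3.symm
    rw [one_mul, e4]

end Pool.Agent.Helper7K9.TC
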