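import Pool.Agent.Helper7K9.TC.Stm

/-! [DEC]: the decomposition of the operators which kill the classes of the smaller system. -/

open CategoryTheory AlgebraicGeometry TensorProduct

universe u v w

namespace Pool.Agent.Helper7K9.TC

open Module
open Pool.Agent.H914 Pool.Agent.H914.VarClass Pool.Agent.H914.VarClass.Obj
  Pool.Agent.H914.WeilCohomology
open Pool.Agent.Y133.Half
open Pool.Agent.Helper7K9.FP Pool.Agent.Helper7K9.FI

variable {k : Type u} [Field k] {𝒱 : VarClass k} {ops : CycleOps 𝒱}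

namespace DecL

variable {W : WeilCohomology.{u, 0} ops} {R : ClassPred W} {X : 𝒱.Obj}

/-- The projector onto the Lie algebra. -/
theorem exists_p (hN : ∀ n, Sys.Nondeg R.sys (pw X n)) :
    ∃ p ∈ R.sys.Op (X.prod X) (X.prod X),
      (∀ z ∈ PH W (X.prod X) 0, Anti R.sys X (W.corr (p z))) ∧
      (∀ z ∈ PH W (X.prod X) 0, Anti R.sys X (W.corr z) → p z = z) := by
  have hφ : ∀ i : (Σ n, R.sys.C (pw X n)), ∃ φ ∈ R.sys.Op (X.prod X) (pw X i.1),
      ∀ z ∈ PH W (X.prod X) 0, φ z = del W (W.corr z) i.1 (i.2 : W.H (pw X i.1)) :=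
    fun i => phi_exists i.2.2
  choose φ hφ1 hφ2 using hφ
  let N : Option (Σ n, R.sys.C (pw X n)) → 𝒱.Obj := fun i => match i with
    | none => X.prod X
    | some i => pw X i.1
  let Φ : ∀ i, W.H (X.prod X) →ₗ[W.K] W.H (N i) := fun i => match i with
    | none => LinearMap.id + (W.map (swap X X)).toLinearMap
    | some i => φ i
  have hΦ : ∀ i, Φ i ∈ R.sys.Op (X.prod X) (N i) := by
    rintro (_ | i)
    · exact Submodule.add_mem _ Sys.Op.id (Sys.Op.map _)
    · exact hφ1 i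
  obtain ⟨p, hp, h1, h2⟩ := prj W R.sys (X.prod X) (Sys.nondeg_pw hN 1 1) _ N Φ hΦ (by
    rintro (_ | i)
    · exact Sys.nondeg_pw hN 1 1
    · exact Sys.nondeg_pw hN 1 i.1)
  refine ⟨p, hp, fun z hz => ?_, fun z hz hzz => h2 z ?_⟩
  · have hpz : p z ∈ PH W (X.prod X) 0 := Sys.Op.ev hp _ _ hz
    refine ⟨Ev.corr hpz, ?_, fun n b hb => ?_⟩
    · have h3 : p z + W.map (swap X X) (p z) = 0 := congrArg (fun f => f z) (h1 none)
      have h4 : W.corr (W.map (swap X X) (p z)) = -W.corr (p z) := by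
        rw [eq_neg_iff_add_eq_zero, ← corr_add, add_comm, h3, corr_zero]
      rw [← h4]
      exact tr_corr' hpz
    · rw [← hφ2 ⟨n, b, hb⟩ _ hpz]
      exact congrArg (fun f => f z) (h1 (some ⟨n, b, hb⟩))
  · rintro (_ | i)
    · change z + W.map (swap X X) z = 0
      rw [swap_of_adj hz hzz.adj, add_neg_cancel]
    · change φ i z = 0
      rw [hφ2 i z hz]
      exact hzz.kill _ _ i.2.2

/-- The Lie algebra is graded. -/
lemma anti_proj {z : W.H (X.prod X)} (hz : z ∈ PH W (X.prod X) 0)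
    (h : Anti R.sys X (W.corr z)) (i : ℕ) :
    Anti R.sys X (W.corr (H914.proj (W.isInternal (X.prod X)) i z)) := by
  refine ⟨Ev.corr (proj_PH hz), adj_of_swap (proj_PH hz) ?_, fun n b hb => ?_⟩
  · rw [← proj_map, swap_of_adj hz h.adj, map_neg]
  · refine ClassPred.sp_ind (Q := R) (q := fun b =>
      del W (W.corr (H914.proj (W.isInternal (X.prod X)) i z)) n b = 0) ?_ ?_ ?_ hb
    · intro j b hb
      obtain ⟨φ, -, hφ⟩ := phi_exists (S := R.sys) (X := X) (n := n) (b := b)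
        (ClassPred.sp_of (Q := R) hb)
      rw [← hφ _ (proj_PH hz), ← phi_zp (R.gr hb) hφ i hz, hφ z hz,
        h.kill n b (ClassPred.sp_of (Q := R) hb), map_zero]
    · rw [map_zero]
    · intro a b ha hb; rw [map_add, ha, hb, add_zero]

/-- The component of middle degree. -/
lemma corr_mid (c₀ : W.H ((X.prod X).prod (X.prod X))) {i : ℕ} {z : W.H (X.prod X)}
    (hz : z ∈ W.gr (X.prod X) i) :
    W.corr (H914.proj (W.isInternal ((X.prod X).prod (X.prod X))) (2 * (2 * X.dim)) c₀) z =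
      H914.proj (W.isInternal (X.prod X)) i (W.corr c₀ z) := by
  refine gr_induction (W.isInternal ((X.prod X).prod (X.prod X))) (p := fun c₀ =>
    W.corr (H914.proj (W.isInternal ((X.prod X).prod (X.prod X))) (2 * (2 * X.dim)) c₀) z =
      H914.proj (W.isInternal (X.prod X)) i (W.corr c₀ z)) ?_ ?_ c₀
  · intro l c hc
    have h1 := (corr_sh hc).mem hz
    rw [← zp_nat (Y := X.prod X)]
    by_cases hl : l = 2 * (2 * X.dim)
    · have h2 : (i : ℤ) + ((l : ℤ) - 2 * (X.prod X).dim) = i := by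
        rw [hl, dim_prod]; push_cast; ring
      rw [h2] at h1
      rw [zp_same h1, ← hl, proj_same _ hc]
    · have h2 : (i : ℤ) + ((l : ℤ) - 2 * (X.prod X).dim) ≠ i := by
        rw [dim_prod]; push_cast; omega
      rw [zp_ne h1 h2, proj_ne _ hc hl, corr_zero, LinearMap.zero_apply]
  · intro a b ha hb
    rw [map_add, corr_add, LinearMap.add_apply, ha, hb, corr_add, LinearMap.add_apply, map_add]

/-- The projector is given by a class of middle degree. -/
theorem mid_main (hN : ∀ n, Sys.Nondeg R.sys (pw X n)) :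
    ∃ c, R.P ((X.prod X).prod (X.prod X)) (2 * X.dim) c ∧
    (∀ z ∈ PH W (X.prod X) 0, Anti R.sys X (W.corr (W.corr c z))) ∧
    ∀ z ∈ PH W (X.prod X) 0, Anti R.sys X (W.corr z) → W.corr c z = z := by
  obtain ⟨p, hp, hp1, hp2⟩ := exists_p hN
  obtain ⟨c₀, hc₀, rfl⟩ := Sys.mem_Op.1 hp
  refine ⟨H914.proj (W.isInternal ((X.prod X).prod (X.prod X))) (2 * (2 * X.dim)) c₀,
    ClassPred.sp_proj (Q := R) hc₀ (2 * X.dim), fun z hz => ?_, fun z hz hzz => ?_⟩
  · refine PH.ind (p := fun z => Anti R.sys X (W.corr (W.corr (H914.proj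
      (W.isInternal ((X.prod X).prod (X.prod X))) (2 * (2 * X.dim)) c₀) z))) ?_ ?_ ?_ hz
    · intro i hi z hz
      rw [corr_mid c₀ hz]
      exact anti_proj (Sys.Op.ev hp _ _ (PH.of' hi hz)) (hp1 z (PH.of' hi hz)) i
    · rw [map_zero, corr_zero]
      exact Anti.zero
    · intro x y hx hy
      rw [map_add, corr_add]
      exact hx.add hy
  · refine eq_of_proj (g := LinearMap.id) fun i => ?_
    have h1 := proj_mem (W.isInternal (X.prod X)) i z
    rw [corr_mid c₀ h1, hp2 _ (proj_PH hz) (anti_proj hz hzz i), proj_same _ h1]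
    rfl

end DecL

theorem dec (W : WeilCohomology.{u, 0} ops) : S_DEC W := by
  intro Q R X hM hN hinv x hx hgr
  obtain ⟨c₀, hc₀, hp1, hp2⟩ := DecL.mid_main hN
  -- the class belongs to the smaller system
  have hQ : Q.P ((X.prod X).prod (X.prod X)) (2 * X.dim) c₀ := by
    let θ : (pw X 1).prod (pw X 1) ≅ pw X (1 + 1 + 1) := pwAdd X 1 1
    have e1 : W.map θ.hom (W.map θ.inv c₀) = c₀ := by
      rw [← W.map_comp, θ.hom_inv_id, W.map_id]
    have h5 := Q.map θ.hom (hM.mid _ (R.map θ.inv hc₀))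
    rw [e1] at h5
    exact h5
  have hp : W.corr c₀ ∈ R.sys.Op (X.prod X) (X.prod X) := Sys.Op.corr (ClassPred.sp_of hc₀)
  have hpA : W.corr c₀ ∈ Q.sys.Op (X.prod X) (X.prod X) := Sys.Op.corr (ClassPred.sp_of hQ)
  have h1 : zcl W x - W.corr c₀ (zcl W x) ∈ R.sys.C (X.prod X) := by
    apply hinv
    · exact Submodule.sub_mem _ (zcl_even hx.ev) (Sys.Op.ev hp _ _ (zcl_even hx.ev))
    intro h hh
    have hp' : W.corr c₀ ∈ R.sys.Op (pw X 1) (pw X 1) := hp
    have hpA' : W.corr c₀ ∈ Q.sys.Op (pw X 1) (pw X 1) := hpA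
    have e1 : ∀ z, dd W h h (W.corr c₀ z) = W.corr c₀ (dd W h h z) := fun z => hh.nat hp' z
    have e2 : ∀ z, dd W x x (W.corr c₀ z) = W.corr c₀ (dd W x x z) := fun z => hx.nat hpA' z
    have e3 : dd W h h (zcl W x) = -dd W x x (zcl W h) := by
      apply corr_injective
      have h5 : W.corr (-dd W x x (zcl W h)) = -W.corr (dd W x x (zcl W h)) := by
        rw [eq_neg_iff_add_eq_zero, ← corr_add, neg_add_cancel, corr_zero]
      rw [h5, Anti.corr_dd hh.ev hh.adj hh.ev, Anti.corr_dd hx.ev hx.adj hx.ev, corr_zcl hx.ev,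
        corr_zcl hh.ev]
      abel
    have e4 : W.corr c₀ (zcl W h) = zcl W h :=
      hp2 _ (zcl_even hh.ev) (by rw [corr_zcl hh.ev]; exact hh)
    have e5 : W.corr c₀ (dd W x x (zcl W h)) = dd W x x (zcl W h) := by
      rw [← e2, e4]
    rw [map_sub, e1, e3, map_neg, e5, sub_self]
  refine ⟨W.corr (W.corr c₀ (zcl W x)), zcl W x - W.corr c₀ (zcl W x),
    hp1 _ (zcl_even hx.ev), ?_, ?_⟩
  · have h2 : W.corr c₀ (zcl W x) ∈ W.gr (X.prod X) (2 * X.dim) := by
      rw [corr_apply]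
      refine Pool.Agent.Y121.AH.push_gr _ (j := 3 * X.dim) (by simp only [dim_prod]; ring) ?_
      have h3 := W.mul_mem (R.gr hc₀) (W.map_mem (fst (X.prod X) (X.prod X)) hgr)
      have h4 : 2 * (2 * X.dim) + 2 * X.dim = 2 * (3 * X.dim) := by ring
      rwa [h4] at h3
    have h3 := ClassPred.sp_proj (Q := R) h1 X.dim
    rw [proj_same _ (Submodule.sub_mem _ hgr h2)] at h3
    exact h3
  · have h1 : W.corr (zcl W x - W.corr c₀ (zcl W x)) =
        x - W.corr (W.corr c₀ (zcl W x)) := by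
      rw [eq_sub_iff_add_eq, ← corr_add, sub_add_cancel, corr_zcl hx.ev]
    rw [h1]
    abel

end Pool.Agent.Helper7K9.TC
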