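import Pool.Agent.H914R2.KDefs

/-!
# Tate classes: definitions
-/

open CategoryTheory AlgebraicGeometry

universe u w

namespace Pool.Agent.Helper7K9.TC

open Pool.Agent.H914 Pool.Agent.H914.VarClass Pool.Agent.H914.VarClass.Obj
  Pool.Agent.H914.WeilCohomology

variable {k : Type u} [Field k] {𝒱 : VarClass k} {ops : CycleOps 𝒱}

/-- An action of the group `Γ` on the Weil cohomology theory `W` by ring automorphisms which
preserve the degrees, commute with pull-backs and act on the classes of algebraic cycles of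
codimension `j` and on the orientations by the powers of a character `χ` (the action on the Tate
twists, which are suppressed). In the intended use `Γ` is the Galois group of the ground field and
`W` is étale cohomology. -/
structure GalAct (W : WeilCohomology.{u, 0} ops) (Γ : Type w) [Group Γ] where
  /-- the action on the Tate twists -/
  χ : Γ →* W.Kˣ
  /-- the action on the cohomology -/
  act : ∀ X : 𝒱.Obj, Γ →* Module.End W.K (W.H X)
  one : ∀ (X : 𝒱.Obj) (g : Γ), act X g 1 = 1
  mul : ∀ (X : 𝒱.Obj) (g : Γ) (a b : W.H X), act X g (a * b) = act X g a * act X g b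
  gr : ∀ {X : 𝒱.Obj} (g : Γ) {i : ℕ} {a : W.H X}, a ∈ W.gr X i → act X g a ∈ W.gr X i
  map : ∀ {X Y : 𝒱.Obj} (f : X ⟶ Y) (g : Γ) (b : W.H Y),
    act X g (W.map f b) = W.map f (act Y g b)
  tr : ∀ (X : 𝒱.Obj) (g : Γ) (a : W.H X),
    W.tr X (act X g a) = (χ g : W.K) ^ X.dim * W.tr X a
  cyc : ∀ {X : 𝒱.Obj} {j : ℕ} {z : X.Cycles}, X.IsCyc j z → ∀ g,
    act X g (W.cl X z) = (χ g : W.K) ^ j • W.cl X z

/-- The Tate classes of degree `2 j`: for every element `g` of the group some power of `g` fixes the
class, up to the action on the Tate twist. (These are the Tate classes over finite extensions of the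
ground field.) -/
def IsTate {W : WeilCohomology.{u, 0} ops} {Γ : Type w} [Group Γ] (G : GalAct W Γ) (X : 𝒱.Obj)
    (j : ℕ) (c : W.H X) : Prop :=
  c ∈ W.gr X (2 * j) ∧ ∀ g, ∃ m, 0 < m ∧ G.act X (g ^ m) c = (G.χ g : W.K) ^ (m * j) • c

end Pool.Agent.Helper7K9.TC
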