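import Pool.Agent.Helper7K9.TC.Stm

/-!
# The projectors to the classes of a nondegenerate system
-/

open CategoryTheory AlgebraicGeometry TensorProduct

universe u v w

namespace Pool.Agent.Helper7K9.TC

open Module
open Pool.Agent.H914 Pool.Agent.H914.VarClass Pool.Agent.H914.VarClass.Obj
  Pool.Agent.H914.WeilCohomology
open Pool.Agent.Y133.Half
open Pool.Agent.Helper7K9.FP Pool.Agent.Helper7K9.FI

variable {k : Type u} [Field k] {𝒱 : VarClass k} {ops : CycleOps 𝒱}

namespace EprL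

variable {W : WeilCohomology.{u, v} ops} {S : Sys W} {Z Y : 𝒱.Obj}

/-- The functional on the classes of the system given by a class. -/
noncomputable def fn (S : Sys W) (Z : 𝒱.Obj) : W.H Z →ₗ[W.K] Module.Dual W.K (S.C Z) :=
  LinearMap.mk₂ W.K (fun (v : W.H Z) (a : S.C Z) => W.tr Z (v * (a : W.H Z)))
    (fun v v' a => by rw [add_mul, map_add])
    (fun r v a => by rw [smul_mul_assoc, map_smul])
    (fun v a a' => by rw [Submodule.coe_add, mul_add, map_add])
    (fun r v a => by rw [Submodule.coe_smul, mul_smul_comm, map_smul])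

lemma fn_apply (v : W.H Z) (a : S.C Z) : fn S Z v a = W.tr Z (v * (a : W.H Z)) := rfl

lemma uniq (hN : Sys.Nondeg S Z) {u u' : W.H Z} (hu : u ∈ S.C Z) (hu' : u' ∈ S.C Z)
    (h : ∀ a ∈ S.C Z, W.tr Z (u * a) = W.tr Z (u' * a)) : u = u' := by
  rw [← sub_eq_zero]
  refine hN _ (Submodule.sub_mem _ hu hu') fun a ha => ?_
  rw [sub_mul, map_sub, h a ha, sub_self]

lemma exists_proj (hN : Sys.Nondeg S Z) : ∃ E : Module.End W.K (W.H Z), (∀ v, E v ∈ S.C Z) ∧
    ∀ v, ∀ a ∈ S.C Z, W.tr Z (E v * a) = W.tr Z (v * a) := by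
  have hinj : Function.Injective ((fn S Z).comp (S.C Z).subtype) := by
    rw [injective_iff_map_eq_zero]
    intro c hc
    apply Subtype.ext
    refine hN _ c.2 fun y hy => ?_
    exact congrArg (fun f : Module.Dual W.K (S.C Z) => f ⟨y, hy⟩) hc
  let e : S.C Z ≃ₗ[W.K] Module.Dual W.K (S.C Z) :=
    LinearMap.linearEquivOfInjective _ hinj (Subspace.dual_finrank_eq (K := W.K)
      (V := S.C Z)).symm
  refine ⟨(S.C Z).subtype ∘ₗ e.symm.toLinearMap ∘ₗ fn S Z, fun v => (e.symm (fn S Z v)).2,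
    fun v a ha => ?_⟩
  have h1 : e (e.symm (fn S Z v)) = fn S Z v := e.apply_symm_apply _
  exact congrArg (fun f : Module.Dual W.K (S.C Z) => f ⟨a, ha⟩) h1

end EprL

open EprL

theorem epr (W : WeilCohomology.{u, 0} ops) : S_EPR W := by
  intro S X hN
  choose E hE1 hE2 using fun n => exists_proj (hN n)
  refine ⟨E, hE1, fun n v hv => uniq (hN n) (hE1 n v) hv (hE2 n v), ?_, hE2, ?_⟩
  · intro m n F hF v
    obtain ⟨F', hF', hadj⟩ := Sys.Op.exists_adj hF
    refine uniq (hN n) (hE1 n _) (Sys.Op.apply (fun _ => le_rfl) hF (hE1 m v)) fun a ha => ?_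
    rw [hE2 n _ a ha, hadj, hadj, hE2 m v _ (Sys.Op.apply (fun _ => le_rfl) hF' ha)]
  · intro m n a ha v
    have h1 : ∀ w ∈ S.C (pw X n), conc W a w ∈ S.C (pw X (m + 1 + n)) := fun w hw =>
      S.mul (S.map _ ha) (S.map _ hw)
    refine uniq (hN (m + 1 + n)) (hE1 _ _) (h1 _ (hE1 n v)) fun d hd => ?_
    rw [hE2 _ _ d hd]
    have hq : W.map (FI.q1 X m n) a * d ∈ S.C (pw X (m + 1 + n)) := S.mul (S.map _ ha) hd
    have h2 : ∀ w : W.H (pw X n), W.tr (pw X (m + 1 + n)) (conc W a w * d) =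
        W.tr (pw X n) (w * W.push (FI.q2 X m n) (W.map (FI.q1 X m n) a * d)) := by
      intro w
      rw [conc, PH.even_comm (S.even (S.map _ ha)), mul_assoc,
        ← PH.even_comm (S.even hq), ← W.tr_push, PH.even_comm (S.even (S.push _ hq))]
    rw [h2, h2, hE2 n v _ (S.push _ hq)]

end Pool.Agent.Helper7K9.TC
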