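import Pool.Agent.Helper7K9.TC.Kill
import Pool.Agent.Helper7K9.FI.Asy0
import Pool.Agent.Helper7K9.FI.Crd0
import Pool.Agent.Y133.Half.PairPred

/-!
# The index of the algebraic classes in the Tate classes
-/

open CategoryTheory AlgebraicGeometry TensorProduct

universe u v w

namespace Pool.Agent.Helper7K9.TC

open Module
open Pool.Agent.H914 Pool.Agent.H914.VarClass Pool.Agent.H914.VarClass.Obj
  Pool.Agent.H914.WeilCohomology
open Pool.Agent.Y133.Half
open Pool.Agent.Helper7K9.FP Pool.Agent.Helper7K9.FI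
open Pool.Agent.Y133.Half.ClassPred (sp_ind sp_of sp_proj)

variable {k : Type u} [Field k] {𝒱 : VarClass k} {ops : CycleOps 𝒱}
  {W : WeilCohomology.{u, 0} ops} {X Y Z : 𝒱.Obj}

section Alg

lemma spc_ind {j : ℕ} {p : W.H Z → Prop} (h : ∀ z, Z.IsCyc j z → p (W.cl Z z)) (h0 : p 0)
    (hadd : ∀ a b, p a → p b → p (a + b)) (hsmul : ∀ (r : W.K) a, p a → p (r • a)) {c : W.H Z}
    (hc : c ∈ spanCycles W Z j) : p c := by
  induction hc using Submodule.span_induction with
  | mem x hx =>
    obtain ⟨q, hq, z, hz, rfl⟩ := hx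
    obtain rfl : q = j := by exact_mod_cast hq
    exact h z hz
  | zero => exact h0
  | add a b _ _ ha hb => exact hadd a b ha hb
  | smul r a _ ha => exact hsmul r a ha

lemma cl_spc {j : ℕ} {z : Z.Cycles} (hz : Z.IsCyc j z) : W.cl Z z ∈ spanCycles W Z j :=
  Submodule.subset_span ⟨j, rfl, z, hz, rfl⟩

/-- The property of being a linear combination of classes of algebraic cycles. -/
noncomputable def algP (W : WeilCohomology.{u, 0} ops) : ClassPred W where
  P X j c := c ∈ spanCycles W X j
  gr {X j c} hc := by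
    refine spc_ind (p := fun c => c ∈ W.gr X (2 * j)) ?_ ?_ ?_ ?_ hc
    · exact fun z hz => W.cl_mem hz
    · exact Submodule.zero_mem _
    · exact fun a b ha hb => Submodule.add_mem _ ha hb
    · exact fun r a ha => Submodule.smul_mem _ _ ha
  zero := Submodule.zero_mem _
  add := Submodule.add_mem _
  smul r _ ha := Submodule.smul_mem _ r ha
  cl := cl_spc
  mul {X i j a b} ha hb := by
    refine spc_ind (p := fun a => a * b ∈ spanCycles W X (i + j : ℕ)) ?_ ?_ ?_ ?_ ha
    · intro z hz
      refine spc_ind (p := fun b => W.cl X z * b ∈ spanCycles W X (i + j : ℕ)) ?_ ?_ ?_ ?_ hb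
      · intro w hw
        rw [← W.cl_mul]
        exact cl_spc (ops.mul_mem hz hw)
      · rw [mul_zero]; exact Submodule.zero_mem _
      · intro a b ha hb; rw [mul_add]; exact Submodule.add_mem _ ha hb
      · intro r a ha; rw [mul_smul_comm]; exact Submodule.smul_mem _ _ ha
    · rw [zero_mul]; exact Submodule.zero_mem _
    · intro a b ha hb; rw [add_mul]; exact Submodule.add_mem _ ha hb
    · intro r a ha; rw [smul_mul_assoc]; exact Submodule.smul_mem _ _ ha
  map {X Y} f {j a} ha := by
    refine spc_ind (p := fun a => W.map f a ∈ spanCycles W X j) ?_ ?_ ?_ ?_ ha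
    · intro z hz
      rw [← W.cl_pull]
      exact cl_spc (ops.pull_mem f hz)
    · rw [map_zero]; exact Submodule.zero_mem _
    · intro a b ha hb; rw [map_add]; exact Submodule.add_mem _ ha hb
    · intro r a ha; rw [map_smul]; exact Submodule.smul_mem _ _ ha
  push {X Y} f {j l} h {a} ha := by
    refine spc_ind (p := fun a => W.push f a ∈ spanCycles W Y l) ?_ ?_ ?_ ?_ ha
    · intro z hz
      rw [← W.cl_push]
      exact cl_spc (ops.push_mem f hz (by omega))
    · rw [map_zero]; exact Submodule.zero_mem _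
    · intro a b ha hb; rw [map_add]; exact Submodule.add_mem _ ha hb
    · intro r a ha; rw [map_smul]; exact Submodule.smul_mem _ _ ha

lemma spc_le_alg {j : ℕ} {c : W.H Z} (hc : c ∈ spanCycles W Z j) :
    c ∈ Pool.Agent.H281R3.HT.algSpan W Z := by
  refine spc_ind (p := fun c => c ∈ Pool.Agent.H281R3.HT.algSpan W Z) ?_ ?_ ?_ ?_ hc
  · intro z hz; exact Pool.Agent.W536.RR.cl_mem_algSpan hz
  · exact Submodule.zero_mem _
  · exact fun a b ha hb => Submodule.add_mem _ ha hb
  · exact fun r a ha => Submodule.smul_mem _ _ ha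

lemma algP_C (Z : 𝒱.Obj) : (algP W).sys.C Z = Pool.Agent.H281R3.HT.algSpan W Z := by
  apply le_antisymm _ ClassPred.alg_le
  intro c hc
  refine sp_ind (Q := algP W) (q := fun c => c ∈ Pool.Agent.H281R3.HT.algSpan W Z) ?_ ?_ ?_ hc
  · intro j x hx; exact spc_le_alg hx
  · exact Submodule.zero_mem _
  · intro a b ha hb; exact Submodule.add_mem _ ha hb

lemma algP_nondeg (h : HomEqNum W Z) : Sys.Nondeg (algP W).sys Z := by
  intro x hx hy
  rw [homEqNum_iff] at h
  have h1 : x ∈ (algSys W).Num Z := by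
    refine ⟨?_, fun y hy' => hy y ?_⟩
    · rw [algP_C] at hx; exact hx
    · rw [algP_C]; exact hy'
  rw [h, Submodule.mem_bot] at h1
  exact h1

end Alg

section Proj

variable {Γ : Type w} [Group Γ] {G : GalAct W Γ}

lemma act_ext (g : Γ) {x : Module.End W.K (W.H X)} (hx : ∀ a, G.act X g (x a) = x (G.act X g a))
    (c : W.H (X.prod X)) :
    G.act (X.prod X) g (extOp W 1 x c) = extOp W 1 x (G.act (X.prod X) g c) := by
  refine xp_induction (p := fun c => G.act (X.prod X) g (extOp W 1 x c) =
    extOp W 1 x (G.act (X.prod X) g c)) ?_ ?_ c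
  · intro a b ha hb; rw [map_add, map_add, ha, hb, map_add, map_add]
  · intro i j a _ b _
    rw [extOp_xp, xp_def, G.mul, G.map, G.map, xp_def, G.mul, G.map, G.map, hx,
      ← xp_def (G.act X g a), extOp_xp, xp_def]
    rfl

/-- The projectors to the graded pieces are Tate classes. -/
lemma proj_tate (R : ClassPred W) (hR : R.P = fun X j c => IsTate G X j c) (i : ℕ) :
    R.P (X.prod X) X.dim (zcl W (H914.proj (W.isInternal X) i)) := by
  have h1 : R.P (X.prod X) X.dim (W.push (diag X) (1 : W.H X)) :=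
    R.push (diag X) (j := 0) (l := X.dim) (by rw [dim_prod]; ring) (ClassPred.one X)
  rw [hR] at h1 ⊢
  obtain ⟨h1, h2⟩ := h1
  refine ⟨zcl_gr fun {j a} ha => ?_, fun g => ?_⟩
  · by_cases hij : j = i
    · subst hij
      rw [proj_same _ ha]; exact ha
    · rw [proj_ne _ ha hij]; exact Submodule.zero_mem _
  · obtain ⟨m, hm, h3⟩ := h2 g
    refine ⟨m, hm, ?_⟩
    have h4 : ∀ a, G.act X (g ^ m) (H914.proj (W.isInternal X) i a) =
        H914.proj (W.isInternal X) i (G.act X (g ^ m) a) :=
      fun a => (proj_gr (x := G.act X (g ^ m)) (fun i a ha => G.gr (g ^ m) ha) i a).symm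
    rw [zcl, act_ext (g ^ m) h4, h3, map_smul]

end Proj

section Main

variable {Γ : Type w} [Group Γ] {G : GalAct W Γ}

/-- The finiteness of the index, for the algebraic classes and the Tate classes. -/
theorem index_tate (hsq : S_SQ W) (hdec : S_DEC W) (htnk : S_TNK W) (R : ClassPred W)
    (hR : R.P = fun X j c => IsTate G X j c) (X : 𝒱.Obj) [Nontrivial (W.H X)]
    (h4 : ∀ c, R.P (pw X 3) (2 * X.dim) c → c ∈ spanCycles W (pw X 3) (2 * X.dim : ℕ))
    (hT : ∀ n, Sys.Nondeg R.sys (pw X n)) (hz : ∀ z, Ctr R X z → z = 0) :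
    ∃ N : ℕ∞, 1 ≤ N ∧
      HasIndex (fun n => dimBy W R.P (pw X n)) (fun n => cycRank ops (pw X n)) N ∧
      (N ≠ ⊤ ↔ ∀ n, HomEqNum W (pw X n)) ∧
      (N = 1 ↔ ∀ n j c, R.P (pw X n) j c → c ∈ spanCycles W (pw X n) j) ∧
      (N ≠ ⊤ → GeneratedOver W (algP W).P R.P X N) := by
  obtain ⟨N₀, M, -, h1, -, h2, -, -, h3, -, -, -, h4'⟩ :=
    ClassPred.tower R R (fun {_ _ _} h => h) X hT
  have hM : Mid4 (algP W) R X := ⟨fun {_ _ _} hc => ClassPred.span_le hc, h4⟩
  -- the comparison with the index over the algebraic classes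
  have key : (∀ n, HomEqNum W (pw X n)) → M ≠ ⊤ ∧
      (M ≠ ⊤ → GeneratedOver W (algP W).P R.P X M) := by
    intro hD
    have hQ : ∀ n, Sys.Nondeg (algP W).sys (pw X n) := fun n => algP_nondeg (hD n)
    obtain ⟨N', M', a1, -, a2, a3, a4, -, a5, -, -, a6, -⟩ :=
      ClassPred.tower (algP W) R hM.le X hQ
    have hM1 : M' = 1 := a5.2 fun n j c hc => hc
    rw [hM1, mul_one] at a4
    have hNM : N' = M := ENat.toENNReal_inj.1 (tendsto_nhds_unique a4 h2)
    subst hNM
    refine ⟨?_, a6⟩
    -- the bound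
    have hinv : ∀ n (v : W.H (pw X n)), v ∈ PH W (pw X n) 0 → v ∈ kil R.sys X n →
        v ∈ R.sys.C (pw X n) := fun n v => inv crd0 R hR X n v
    have hk := fun y hy hy' n b hb =>
      kills_gen hsq hdec hM hQ hT hinv hz y hy hy' n b hb
    have hK : ∀ i, H914.proj (W.isInternal X) i ∈ (algP W).sys.Op X X := by
      intro i
      have e1 := hsq (algP W) R X hM (hQ 0) _ (proj_tate (G := G) R hR i)
      have e2 : W.corr (zcl W (H914.proj (W.isInternal X) i)) ∈ (algP W).sys.Op X X :=
        Sys.Op.corr (ClassPred.sp_of (Q := algP W) e1)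
      rw [corr_zcl] at e2
      · exact e2
      · intro b a ha
        refine PH.ind (p := fun a => H914.proj (W.isInternal X) i a ∈ PH W X b) ?_ ?_ ?_ ha
        · intro j hj a ha
          by_cases hij : j = i
          · subst hij
            rw [proj_same _ ha]
            exact PH.of' hj ha
          · rw [proj_ne _ ha hij]
            exact Submodule.zero_mem _
        · rw [map_zero]; exact Submodule.zero_mem _
        · intro a a' ha ha'; rw [map_add]; exact Submodule.add_mem _ ha ha'
    obtain ⟨m, C, hb⟩ := bound_gen crd0 (algP W).sys R.sys (AlgebraicClosure W.K) hk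
      fun n v hv => htnk (algP W).sys X (AlgebraicClosure W.K) hQ hK n v hv
    exact asy0 W X (algP W).sys hQ (fun n => finrank W.K (R.sys.C (pw X n))) m C hb N' a2
  refine ⟨M, h1, h2, ⟨h4', fun hD => (key hD).1⟩, h3, fun hN => (key (h4' hN)).2 hN⟩

end Main

end Pool.Agent.Helper7K9.TC
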