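import Pool.Agent.Helper7K9.FI.Fin1

/-!
# Algebraic groups of matrices in characteristic zero are reduced: statements
-/

namespace Pool.Agent.Helper7K9.TC

open MvPolynomial
open Pool.Agent.Helper7K9.FI (tp)
open Pool.Agent.Helper7K9.FI.Fin1L (pol)

section Ops

variable {ι Ω : Type} [Fintype ι] [Field Ω]

/-- The value at the matrix `g`. -/
noncomputable def ev (g : ι → ι → Ω) : MvPolynomial (ι × ι) Ω →ₐ[Ω] Ω :=
  aeval fun p : ι × ι => g p.1 p.2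

/-- The right translation by the matrix `g`. -/
noncomputable def rt (g : ι → ι → Ω) : MvPolynomial (ι × ι) Ω →ₐ[Ω] MvPolynomial (ι × ι) Ω :=
  aeval fun p : ι × ι => ∑ k, X (p.1, k) * C (g k p.2)

/-- The invariant derivation given by the matrix `ξ`. -/
noncomputable def dv (ξ : ι → ι → Ω) :
    Derivation Ω (MvPolynomial (ι × ι) Ω) (MvPolynomial (ι × ι) Ω) :=
  mkDerivation Ω fun p : ι × ι => ∑ k, X (p.1, k) * C (ξ k p.2)

/-- The product of matrices. -/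
def mm (g h : ι → ι → Ω) : ι → ι → Ω := fun i j => ∑ k, g i k * h k j

/-- The identity matrix. -/
def idm (ι Ω : Type) [DecidableEq ι] [Field Ω] : ι → ι → Ω := fun i j => if i = j then 1 else 0

/-- The zeros of the ideal `J`. -/
def zs (J : Ideal (MvPolynomial (ι × ι) Ω)) : Set (ι → ι → Ω) := {g | ∀ f ∈ J, ev g f = 0}

/-- The equations of the group of the matrices which preserve the grading and the form `t` and fix
the tensors in `𝒜`. -/
def eqs (deg : ι → ℕ) (t : ι → ι → Ω) (𝒜 : ∀ n, Set ((Fin n → ι) → Ω)) :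
    Set (MvPolynomial (ι × ι) Ω) :=
  {f | (∃ p i, deg p ≠ deg i ∧ f = X (p, i)) ∨
    (∃ i j, f = ∑ p, ∑ q, X (p, i) * X (q, j) * C (t p q) - C (t i j)) ∨
    ∃ n, ∃ a ∈ 𝒜 n, ∃ J, f = pol n a J - C (a J)}

end Ops

/-- Cartier's theorem: a group ideal in characteristic zero is radical. -/
def S_RAD : Prop := ∀ (ι Ω : Type) [Fintype ι] [DecidableEq ι] [Field Ω] [CharZero Ω]
  [IsAlgClosed Ω] (J : Ideal (MvPolynomial (ι × ι) Ω)),
  idm ι Ω ∈ zs J → (∀ g ∈ zs J, ∃ h ∈ zs J, mm g h = idm ι Ω ∧ mm h g = idm ι Ω) →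
  (∀ g ∈ zs J, ∀ f ∈ J, rt g f ∈ J) →
  (∀ ξ, (∀ f ∈ J, ev (idm ι Ω) (dv ξ f) = 0) → ∀ f ∈ J, dv ξ f ∈ J) →
  J.IsRadical

/-- The ideal of the equations is radical. -/
def S_IDL : Prop := ∀ (ι Ω : Type) [Fintype ι] [DecidableEq ι] [Field Ω] [CharZero Ω]
  [IsAlgClosed Ω] (deg : ι → ℕ) (t : ι → ι → Ω) (𝒜 : ∀ n, Set ((Fin n → ι) → Ω)),
  (∀ g ∈ zs (Ideal.span (eqs deg t 𝒜)), ∃ h ∈ zs (Ideal.span (eqs deg t 𝒜)),
    mm g h = idm ι Ω ∧ mm h g = idm ι Ω) →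
  (Ideal.span (eqs deg t 𝒜)).IsRadical

/-- A linear functional on the polynomials with given values on the monomials. -/
def S_PHI : Prop := ∀ (ι Ω : Type) [Fintype ι] [DecidableEq ι] [Field Ω]
  (e : ∀ n, (Fin n → ι) → (Fin n → ι) → Ω),
  (∀ n (σ : Equiv.Perm (Fin n)) J I, e n (J ∘ σ) (I ∘ σ) = e n J I) →
  ∃ φ : MvPolynomial (ι × ι) Ω →ₗ[Ω] Ω, ∀ n J I, φ (∏ k, X (J k, I k)) = e n J I

end Pool.Agent.Helper7K9.TC
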