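import Pool.Agent.Helper7K9.TC.Idl

/-!
# The ideal of the equations is radical
-/

namespace Pool.Agent.Helper7K9.TC

open MvPolynomial
open Pool.Agent.Helper7K9.FI (tp)
open Pool.Agent.Helper7K9.FI.Fin1L (pol aeval_pol)

namespace IdlL

variable {ι Ω : Type} [Fintype ι] [Field Ω]

theorem dv_X (ξ : ι → ι → Ω) (i j : ι) : dv ξ (X (i, j)) = ∑ k, X (i, k) * C (ξ k j) := by
  unfold dv
  rw [mkDerivation_X]

theorem dv_mul (ξ : ι → ι → Ω) (a b : MvPolynomial (ι × ι) Ω) :
    dv ξ (a * b) = a * dv ξ b + b * dv ξ a := by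
  rw [Derivation.leibniz, smul_eq_mul, smul_eq_mul]

theorem dv_C (ξ : ι → ι → Ω) (a : Ω) : dv ξ (C a : MvPolynomial (ι × ι) Ω) = 0 := by
  rw [← algebraMap_eq]; exact Derivation.map_algebraMap _ a

theorem rt_X (g : ι → ι → Ω) (i j : ι) : rt g (X (i, j)) = ∑ k, X (i, k) * C (g k j) := by
  rw [rt, aeval_X]

theorem rt_C (g : ι → ι → Ω) (a : Ω) : rt g (C a : MvPolynomial (ι × ι) Ω) = C a := by
  rw [← algebraMap_eq]; exact AlgHom.commutes _ _

theorem ev_X (g : ι → ι → Ω) (i j : ι) : ev g (X (i, j)) = g i j := by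
  rw [ev, aeval_X]

theorem ev_C (g : ι → ι → Ω) (a : Ω) : ev g (C a : MvPolynomial (ι × ι) Ω) = a := by
  rw [← algebraMap_eq]; exact AlgHom.commutes _ _

theorem ev_pol (g : ι → ι → Ω) (n : ℕ) (v : (Fin n → ι) → Ω) (J : Fin n → ι) :
    ev g (pol n v J) = tp g n v J := by
  have := aeval_pol g n v J
  simpa [ev] using this

theorem tp_idm [DecidableEq ι] (n : ℕ) (v : (Fin n → ι) → Ω) (J : Fin n → ι) :
    tp (idm ι Ω) n v J = v J := by
  unfold tp
  rw [Finset.sum_eq_single J]
  · simp [idm]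
  · intro I _ hI
    obtain ⟨k, hk⟩ := Function.ne_iff.1 hI
    rw [Finset.prod_eq_zero (Finset.mem_univ k), zero_mul]
    rw [idm, if_neg (Ne.symm hk)]
  · simp

/-- The form equation. -/
noncomputable def frm (t : ι → ι → Ω) (i j : ι) : MvPolynomial (ι × ι) Ω :=
  ∑ p, ∑ q, X (p, i) * X (q, j) * C (t p q)

theorem ev_frm (g : ι → ι → Ω) (t : ι → ι → Ω) (i j : ι) :
    ev g (frm t i j) = ∑ p, ∑ q, g p i * g q j * t p q := by
  simp only [frm, map_sum, map_mul, ev_X, ev_C]

theorem ev_frm_idm [DecidableEq ι] (t : ι → ι → Ω) (i j : ι) :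
    ev (idm ι Ω) (frm t i j) = t i j := by
  rw [ev_frm, Finset.sum_eq_single i, Finset.sum_eq_single j]
  · simp [idm]
  · intro q _ hq; simp [idm, hq]
  · simp
  · intro p _ hp; simp [idm, hp]
  · simp

theorem rt_frm (g : ι → ι → Ω) (t : ι → ι → Ω) (i j : ι) :
    rt g (frm t i j) = ∑ k, ∑ l, C (g k i * g l j) * frm t k l := by
  have h1 : ∀ p q, rt g (X (p, i) * X (q, j) * C (t p q)) =
      ∑ k, ∑ l, C (g k i * g l j) * (X (p, k) * X (q, l) * C (t p q)) := by
    intro p q
    rw [map_mul, map_mul, rt_X, rt_X, rt_C, Finset.sum_mul_sum, Finset.sum_mul]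
    refine Finset.sum_congr rfl fun k _ => ?_
    rw [Finset.sum_mul]
    refine Finset.sum_congr rfl fun l _ => ?_
    rw [map_mul]
    ring
  have h2 : rt g (frm t i j) =
      ∑ p, ∑ q, ∑ k, ∑ l, C (g k i * g l j) * (X (p, k) * X (q, l) * C (t p q)) := by
    simp only [frm, map_sum, h1]
  rw [h2]
  calc _ = ∑ p, ∑ k, ∑ q, ∑ l, C (g k i * g l j) * (X (p, k) * X (q, l) * C (t p q)) :=
        Finset.sum_congr rfl fun p _ => Finset.sum_comm
    _ = ∑ k, ∑ p, ∑ q, ∑ l, C (g k i * g l j) * (X (p, k) * X (q, l) * C (t p q)) :=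
        Finset.sum_comm
    _ = ∑ k, ∑ p, ∑ l, ∑ q, C (g k i * g l j) * (X (p, k) * X (q, l) * C (t p q)) :=
        Finset.sum_congr rfl fun k _ => Finset.sum_congr rfl fun p _ => Finset.sum_comm
    _ = ∑ k, ∑ l, ∑ p, ∑ q, C (g k i * g l j) * (X (p, k) * X (q, l) * C (t p q)) :=
        Finset.sum_congr rfl fun k _ => Finset.sum_comm
    _ = _ := by
        refine Finset.sum_congr rfl fun k _ => Finset.sum_congr rfl fun l _ => ?_
        simp only [frm, Finset.mul_sum]

theorem dv_frm (ξ : ι → ι → Ω) (t : ι → ι → Ω) (i j : ι) :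
    dv ξ (frm t i j) = ∑ k, C (ξ k i) * frm t k j + ∑ k, C (ξ k j) * frm t i k := by
  have h1 : ∀ p q, dv ξ (X (p, i) * X (q, j) * C (t p q)) =
      ∑ k, C (ξ k i) * (X (p, k) * X (q, j) * C (t p q)) +
        ∑ k, C (ξ k j) * (X (p, i) * X (q, k) * C (t p q)) := by
    intro p q
    rw [dv_mul, dv_mul, dv_C, dv_X, dv_X, mul_zero, zero_add, mul_add, add_comm,
      Finset.mul_sum, Finset.mul_sum, Finset.mul_sum, Finset.mul_sum]
    congr 1
    · exact Finset.sum_congr rfl fun k _ => by ring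
    · exact Finset.sum_congr rfl fun k _ => by ring
  have h2 : dv ξ (frm t i j) =
      ∑ p, ∑ q, (∑ k, C (ξ k i) * (X (p, k) * X (q, j) * C (t p q)) +
        ∑ k, C (ξ k j) * (X (p, i) * X (q, k) * C (t p q))) := by
    simp only [frm, map_sum, h1]
  rw [h2]
  simp only [Finset.sum_add_distrib]
  congr 1
  · calc _ = ∑ p, ∑ k, ∑ q, C (ξ k i) * (X (p, k) * X (q, j) * C (t p q)) :=
          Finset.sum_congr rfl fun p _ => Finset.sum_comm
      _ = ∑ k, ∑ p, ∑ q, C (ξ k i) * (X (p, k) * X (q, j) * C (t p q)) := Finset.sum_comm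
      _ = _ := by
        refine Finset.sum_congr rfl fun k _ => ?_
        simp only [frm, Finset.mul_sum]
  · calc _ = ∑ p, ∑ k, ∑ q, C (ξ k j) * (X (p, i) * X (q, k) * C (t p q)) :=
          Finset.sum_congr rfl fun p _ => Finset.sum_comm
      _ = ∑ k, ∑ p, ∑ q, C (ξ k j) * (X (p, i) * X (q, k) * C (t p q)) := Finset.sum_comm
      _ = _ := by
        refine Finset.sum_congr rfl fun k _ => ?_
        simp only [frm, Finset.mul_sum]

/-- The translate of the coordinate function of a tensor. -/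
theorem rt_pol (g : ι → ι → Ω) (n : ℕ) (v : (Fin n → ι) → Ω) (J : Fin n → ι) :
    rt g (pol n v J) = pol n (tp g n v) J := by
  classical
  have h1 : ∀ I : Fin n → ι, rt g (∏ k, X (J k, I k)) =
      ∑ L : Fin n → ι, (∏ k, X (J k, L k)) * C (∏ k, g (L k) (I k)) := by
    intro I
    rw [map_prod]
    simp only [rt_X]
    rw [Finset.prod_univ_sum, Fintype.piFinset_univ]
    refine Finset.sum_congr rfl fun L _ => ?_
    rw [map_prod, Finset.prod_mul_distrib]
  simp only [pol, map_sum, map_mul, rt_C, h1, tp, Finset.sum_mul, Finset.mul_sum]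
  rw [Finset.sum_comm]
  refine Finset.sum_congr rfl fun L _ => Finset.sum_congr rfl fun I _ => ?_
  ring

/-- The derivative of a product. -/
theorem dv_prod (ξ : ι → ι → Ω) {α : Type} [DecidableEq α] (s : Finset α)
    (f : α → MvPolynomial (ι × ι) Ω) :
    dv ξ (∏ k ∈ s, f k) = ∑ m ∈ s, (∏ k ∈ s.erase m, f k) * dv ξ (f m) := by
  induction s using Finset.induction_on with
  | empty => simp
  | insert a s ha ih =>
    rw [Finset.prod_insert ha, dv_mul, ih, Finset.sum_insert ha, Finset.erase_insert ha,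
      add_comm, Finset.mul_sum]
    congr 1
    refine Finset.sum_congr rfl fun m hm => ?_
    have hma : a ≠ m := fun h => ha (h ▸ hm)
    rw [Finset.erase_insert_of_ne hma, Finset.prod_insert (fun h => ha (Finset.mem_of_mem_erase h))]
    ring

/-- The derivative of the coordinate function of a tensor. -/
theorem dv_pol (ξ : ι → ι → Ω) (n : ℕ) (v : (Fin n → ι) → Ω) :
    ∃ b : (Fin n → ι) → Ω, ∀ J, dv ξ (pol n v J) = pol n b J := by
  classical
  refine ⟨fun I => ∑ m, ∑ i, ξ (I m) i * v (Function.update I m i), fun J => ?_⟩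
  have h1 : ∀ I : Fin n → ι, dv ξ ((∏ k, X (J k, I k)) * C (v I)) =
      ∑ m, ∑ i, (∏ k, X (J k, Function.update I m i k)) * C (ξ i (I m) * v I) := by
    intro I
    rw [dv_mul, dv_C, mul_zero, zero_add, dv_prod, Finset.mul_sum]
    refine Finset.sum_congr rfl fun m _ => ?_
    rw [dv_X, Finset.mul_sum, Finset.mul_sum]
    refine Finset.sum_congr rfl fun i _ => ?_
    rw [← Finset.mul_prod_erase Finset.univ _ (Finset.mem_univ m)]
    have h2 : ∏ k ∈ Finset.univ.erase m, X (J k, Function.update I m i k) =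
        ∏ k ∈ Finset.univ.erase m, (X (J k, I k) : MvPolynomial (ι × ι) Ω) :=
      Finset.prod_congr rfl fun k hk => by
        rw [Function.update_of_ne (Finset.ne_of_mem_erase hk)]
    rw [h2, Function.update_self, map_mul]
    ring
  simp only [pol, map_sum, h1]
  rw [Finset.sum_comm]
  have h3 : ∀ m : Fin n, ∑ I : Fin n → ι, ∑ i, (∏ k, X (J k, Function.update I m i k)) *
      C (ξ i (I m) * v I) = ∑ I : Fin n → ι, ∑ i, (∏ k, (X (J k, I k) : MvPolynomial (ι × ι) Ω)) *
        C (ξ (I m) i * v (Function.update I m i)) := by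
    intro m
    rw [← Fintype.sum_prod_type' (f := fun (I : Fin n → ι) (i : ι) =>
        (∏ k, (X (J k, Function.update I m i k) : MvPolynomial (ι × ι) Ω)) * C (ξ i (I m) * v I)),
      ← Fintype.sum_prod_type' (f := fun (I : Fin n → ι) (i : ι) =>
        (∏ k, (X (J k, I k) : MvPolynomial (ι × ι) Ω)) * C (ξ (I m) i * v (Function.update I m i)))]
    have hinv : Function.Involutive fun q : (Fin n → ι) × ι => (Function.update q.1 m q.2, q.1 m) := by
      rintro ⟨I, i⟩
      simp
    refine Fintype.sum_equiv hinv.toPerm _ _ fun q => ?_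
    obtain ⟨I, i⟩ := q
    simp [Function.Involutive.toPerm]
  simp only [h3, Finset.mul_sum]
  rw [Finset.sum_comm]

end IdlL

open IdlL in
/-- The ideal of the equations is radical. -/
theorem idl (hrad : S_RAD) : S_IDL := by
  intro ι Ω _ _ _ _ _ deg t A hinv
  set J : Ideal (MvPolynomial (ι × ι) Ω) := Ideal.span (eqs deg t A) with hJ
  have hX : ∀ p i, deg p ≠ deg i → (X (p, i) : MvPolynomial (ι × ι) Ω) ∈ J := fun p i h =>
    Ideal.subset_span (Or.inl ⟨p, i, h, rfl⟩)
  have hF : ∀ i j, frm t i j - C (t i j) ∈ J := fun i j =>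
    Ideal.subset_span (Or.inr (Or.inl ⟨i, j, rfl⟩))
  have hT : ∀ n, ∀ a ∈ A n, ∀ L, pol n a L - C (a L) ∈ J := fun n a ha L =>
    Ideal.subset_span (Or.inr (Or.inr ⟨n, a, ha, L, rfl⟩))
  refine hrad ι Ω J ?_ hinv ?_ ?_
  · intro f hf
    have h1 : J ≤ RingHom.ker (ev (idm ι Ω)) := by
      rw [hJ, Ideal.span_le]
      rintro f (⟨p, i, h, rfl⟩ | ⟨i, j, rfl⟩ | ⟨n, a, ha, L, rfl⟩)
      · rw [SetLike.mem_coe, RingHom.mem_ker, ev_X, idm, if_neg (fun h' : p = i => h (congrArg deg h'))]
      · rw [SetLike.mem_coe, RingHom.mem_ker]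
        change ev (idm ι Ω) (frm t i j - C (t i j)) = 0
        rw [map_sub, ev_frm_idm, ev_C, sub_self]
      · rw [SetLike.mem_coe, RingHom.mem_ker, map_sub, ev_pol, ev_C, tp_idm, sub_self]
    exact h1 hf
  · intro g hg f hf
    have h1 : J ≤ J.comap (rt g : MvPolynomial (ι × ι) Ω →+* MvPolynomial (ι × ι) Ω) := by
      conv_lhs => rw [hJ]
      rw [Ideal.span_le]
      rintro f (⟨p, i, h, rfl⟩ | ⟨i, j, rfl⟩ | ⟨n, a, ha, L, rfl⟩)
      · change rt g (X (p, i)) ∈ J
        rw [rt_X]
        refine Ideal.sum_mem _ fun k _ => ?_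
        by_cases hk : deg k = deg i
        · exact Ideal.mul_mem_right _ _ (hX p k fun h' => h (h'.trans hk))
        · have := hg _ (hX k i hk)
          rw [ev_X] at this
          rw [this, map_zero, mul_zero]
          exact J.zero_mem
      · change rt g (frm t i j - C (t i j)) ∈ J
        have h2 : t i j = ∑ k, ∑ l, g k i * g l j * t k l := by
          have := hg _ (hF i j)
          rw [map_sub, ev_frm, ev_C, sub_eq_zero] at this
          exact this.symm
        have h3 : rt g (frm t i j - C (t i j)) =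
            ∑ k, ∑ l, C (g k i * g l j) * (frm t k l - C (t k l)) := by
          rw [map_sub, rt_C, rt_frm]
          conv_lhs => rw [h2]
          simp only [mul_sub, Finset.sum_sub_distrib, map_sum, map_mul]
        rw [h3]
        exact Ideal.sum_mem _ fun k _ => Ideal.sum_mem _ fun l _ => J.mul_mem_left _ (hF k l)
      · change rt g (pol n a L - C (a L)) ∈ J
        have h2 : tp g n a = a := by
          funext I
          have := hg _ (hT n a ha I)
          rw [map_sub, ev_pol, ev_C, sub_eq_zero] at this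
          exact this
        rw [map_sub, rt_C, rt_pol, h2]
        exact hT n a ha L
    exact h1 hf
  · intro ξ hξ f hf
    have h1 : ∀ f ∈ eqs deg t A, dv ξ f ∈ J := by
      rintro f (⟨p, i, h, rfl⟩ | ⟨i, j, rfl⟩ | ⟨n, a, ha, L, rfl⟩)
      · rw [dv_X]
        refine Ideal.sum_mem _ fun k _ => ?_
        by_cases hk : deg k = deg i
        · exact Ideal.mul_mem_right _ _ (hX p k fun h' => h (h'.trans hk))
        · have h2 := hξ _ (hX k i hk)
          rw [dv_X, map_sum, Finset.sum_eq_single k] at h2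
          · rw [map_mul, ev_X, ev_C, idm, if_pos rfl, one_mul] at h2
            rw [h2, map_zero, mul_zero]
            exact J.zero_mem
          · intro l _ hl
            rw [map_mul, ev_X, idm, if_neg hl.symm, zero_mul]
          · simp
      · have h2 := hξ _ (hF i j)
        change dv ξ (frm t i j - C (t i j)) ∈ J
        rw [map_sub, dv_C, sub_zero, dv_frm] at h2 ⊢
        rw [map_add, map_sum, map_sum] at h2
        simp only [map_mul, ev_C, ev_frm_idm] at h2
        have h3 : ∑ k, C (ξ k i) * frm t k j + ∑ k, C (ξ k j) * frm t i k =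
            ∑ k, C (ξ k i) * (frm t k j - C (t k j)) + ∑ k, C (ξ k j) * (frm t i k - C (t i k)) := by
          simp only [mul_sub, Finset.sum_sub_distrib]
          have h4 : (∑ k, C (ξ k i) * C (t k j) + ∑ k, C (ξ k j) * C (t i k) :
              MvPolynomial (ι × ι) Ω) = 0 := by
            simp only [← map_mul, ← map_sum]
            rw [← map_add, h2, map_zero]
          linear_combination h4
        rw [h3]
        exact Ideal.add_mem _ (Ideal.sum_mem _ fun k _ => J.mul_mem_left _ (hF k j))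
          (Ideal.sum_mem _ fun k _ => J.mul_mem_left _ (hF i k))
      · obtain ⟨b, hb⟩ := dv_pol ξ n a
        have h2 : b = 0 := by
          funext I
          have := hξ _ (hT n a ha I)
          rw [map_sub, dv_C, sub_zero, hb, ev_pol, tp_idm] at this
          exact this
        rw [map_sub, dv_C, sub_zero, hb, h2]
        have h3 : pol n (0 : (Fin n → ι) → Ω) L = 0 := by simp [pol]
        rw [h3]
        exact J.zero_mem
    refine Submodule.span_induction (p := fun f _ => dv ξ f ∈ J) h1 ?_ ?_ ?_ hf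
    · rw [map_zero]; exact J.zero_mem
    · intro a b _ _ ha hb
      rw [map_add]; exact J.add_mem ha hb
    · intro c a hc ha
      rw [smul_eq_mul, dv_mul]
      exact J.add_mem (J.mul_mem_left _ ha) (J.mul_mem_right _ hc)

end Pool.Agent.Helper7K9.TC
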