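import Pool.Agent.Helper7K9.FI.Asm
import Pool.Agent.Helper7K9.TC.Defs
import Pool.Agent.Helper7K9.TC.Idl
import Pool.Agent.Y133.Half.PredSys

/-!
# Tannaka duality for the algebraic classes: statements
-/

open CategoryTheory AlgebraicGeometry TensorProduct

universe u v w

namespace Pool.Agent.Helper7K9.TC

open Module
open Pool.Agent.H914 Pool.Agent.H914.VarClass Pool.Agent.H914.VarClass.Obj
  Pool.Agent.H914.WeilCohomology
open Pool.Agent.Y133.Half
open Pool.Agent.Helper7K9.FP Pool.Agent.Helper7K9.FI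

variable {k : Type u} [Field k] {𝒱 : VarClass k} {ops : CycleOps 𝒱}

/-- The class with given coordinates. -/
noncomputable def bcl {W : WeilCohomology.{u, 0} ops} {X : 𝒱.Obj} {ι : Type} [Fintype ι]
    [DecidableEq ι] (c : ∀ n, W.H (pw X n) ≃ₗ[W.K] ((Fin (n + 1) → ι) → W.K)) (n : ℕ)
    (I : Fin (n + 1) → ι) : W.H (pw X n) :=
  (c n).symm (Pi.single I 1)

/-- The permutations of the factors of the powers of `X`. -/
def S_PRM (W : WeilCohomology.{u, 0} ops) : Prop :=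
  ∀ (X : 𝒱.Obj) (ι : Type) [Fintype ι] [DecidableEq ι] (b : Basis ι W.K (W.H X)) (deg : ι → ℕ),
    HBas b deg → ∀ c : (∀ n, W.H (pw X n) ≃ₗ[W.K] ((Fin (n + 1) → ι) → W.K)), Crd b c →
    ∀ (n : ℕ) (σ : Equiv.Perm (Fin (n + 1))), ∃ (f : pw X n ⟶ pw X n)
      (s : (Fin (n + 1) → ℕ) → W.K), (∀ d, s d ≠ 0) ∧
      ∀ I : Fin (n + 1) → ι, W.map f (bcl c n I) = s (fun j => deg (I j)) • bcl c n (I ∘ σ)

/-- The projectors to the graded pieces of the cohomology of a factor. -/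
def S_KUN (W : WeilCohomology.{u, 0} ops) : Prop :=
  ∀ (S : Sys W) (X : 𝒱.Obj) (ι : Type) [Fintype ι] [DecidableEq ι] (b : Basis ι W.K (W.H X))
    (deg : ι → ℕ), HBas b deg →
    ∀ c : (∀ n, W.H (pw X n) ≃ₗ[W.K] ((Fin (n + 1) → ι) → W.K)), Crd b c →
    (∀ i, H914.proj (W.isInternal X) i ∈ S.Op X X) →
    ∀ (n : ℕ) (j : Fin (n + 1)) (i : ℕ), ∃ F ∈ S.Op (pw X n) (pw X n), ∀ I : Fin (n + 1) → ι,
      F (bcl c n I) = if deg (I j) = i then bcl c n I else 0

/-- The projectors to the classes of a nondegenerate system. -/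
def S_EPR (W : WeilCohomology.{u, 0} ops) : Prop :=
  ∀ (S : Sys W) (X : 𝒱.Obj), (∀ n, Sys.Nondeg S (pw X n)) →
    ∃ E : ∀ n, Module.End W.K (W.H (pw X n)), (∀ n v, E n v ∈ S.C (pw X n)) ∧
      (∀ n, ∀ v ∈ S.C (pw X n), E n v = v) ∧
      (∀ m n, ∀ F ∈ S.Op (pw X m) (pw X n), ∀ v, E n (F v) = F (E m v)) ∧
      (∀ n v, ∀ a ∈ S.C (pw X n), W.tr (pw X n) (E n v * a) = W.tr (pw X n) (v * a)) ∧
      ∀ m n, ∀ a ∈ S.C (pw X m), ∀ v : W.H (pw X n),
        E (m + 1 + n) (conc W a v) = conc W a (E n v)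

/-- The contraction of two factors with the trace form. -/
def S_CON (W : WeilCohomology.{u, 0} ops) : Prop :=
  ∀ (S : Sys W) (X : 𝒱.Obj) (ι : Type) [Fintype ι] [DecidableEq ι] (b : Basis ι W.K (W.H X)),
    ∀ c : (∀ n, W.H (pw X n) ≃ₗ[W.K] ((Fin (n + 1) → ι) → W.K)), Crd b c →
    (∀ n : ℕ, ∃ F ∈ S.Op (pw X (n + 2)) (pw X n), ∀ (v : W.H (pw X (n + 2)))
      (J : Fin (n + 1) → ι), c n (F v) J = ∑ p, ∑ q, W.tr X (b p * b q) *
        c (n + 2) v (Fin.snoc (Fin.snoc J p : Fin (n + 2) → ι) q)) ∧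
    ∃ a ∈ S.C (pw X 1), ∀ v : W.H (pw X 1), W.tr (pw X 1) (v * a) =
      ∑ p, ∑ q, W.tr X (b p * b q) * c 1 v (Fin.snoc (fun _ : Fin 1 => p) q)

/-- Tannaka duality: the classes which are fixed by all operators which fix the classes of the
system are linear combinations of classes of the system. -/
def S_TNK (W : WeilCohomology.{u, 0} ops) : Prop :=
  ∀ (S : Sys W) (X : 𝒱.Obj) (Ω : Type) [Field Ω] [Algebra W.K Ω] [CharZero Ω] [IsAlgClosed Ω],
    (∀ n, Sys.Nondeg S (pw X n)) → (∀ i, H914.proj (W.isInternal X) i ∈ S.Op X X) →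
    ∀ (n : ℕ) (v : (baseW W Ω).H (pw X n)),
      (∀ x : Module.End (baseW W Ω).K ((baseW W Ω).H X), Fix S X Ω x →
        pwo (baseW W Ω) x n v = v) →
      v ∈ Submodule.span (baseW W Ω).K {u | ∃ a ∈ S.C (pw X n), u = Y121.AH.em W Ω a}

/-- Two properties of classes, the first stronger than the second, which agree for the classes of
middle degree on `X ^ 4`. -/
structure Mid4 {W : WeilCohomology.{u, 0} ops} (Q R : ClassPred W) (X : 𝒱.Obj) : Prop where
  le : ∀ {Z : 𝒱.Obj} {j : ℕ} {c : W.H Z}, Q.P Z j c → R.P Z j c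
  mid : ∀ c, R.P (pw X 3) (2 * X.dim) c → Q.P (pw X 3) (2 * X.dim) c

/-- The classes of middle degree on `X ^ 2`. -/
def S_SQ (W : WeilCohomology.{u, 0} ops) : Prop :=
  ∀ (Q R : ClassPred W) (X : 𝒱.Obj) [Nontrivial (W.H X)], Mid4 Q R X → Sys.Nondeg Q.sys X →
    ∀ z, R.P (X.prod X) X.dim z → Q.P (X.prod X) X.dim z

/-- The decomposition of the operators which kill the classes of `Q`. -/
def S_DEC (W : WeilCohomology.{u, 0} ops) : Prop :=
  ∀ (Q R : ClassPred W) (X : 𝒱.Obj), Mid4 Q R X → (∀ n, Sys.Nondeg R.sys (pw X n)) →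
    (∀ z ∈ PH W (X.prod X) 0, (∀ h, Anti R.sys X h → dd W h h z = 0) → z ∈ R.sys.C (X.prod X)) →
    ∀ x : Module.End W.K (W.H X), Anti Q.sys X x →
      zcl W x ∈ W.gr (X.prod X) (2 * X.dim) →
      ∃ h z, Anti R.sys X h ∧ R.P (X.prod X) X.dim z ∧ x = h + W.corr z

/-- The Tate classes have the formal properties of the classes of algebraic cycles. -/
def S_TSY (W : WeilCohomology.{u, 0} ops) : Prop :=
  ∀ (Γ : Type w) [Group Γ] (G : GalAct W Γ), ∃ Q : ClassPred W, Q.P = fun X j c => IsTate G X j c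

end Pool.Agent.Helper7K9.TC
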