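import Pool.Agent.Helper7K9.FI.Kap
import Pool.Agent.Helper7K9.TC.Stm

/-!
# Operators over an extension of an algebraically closed field
-/

open CategoryTheory AlgebraicGeometry TensorProduct

universe u v

namespace Pool.Agent.Helper7K9.TC

open Module
open Pool.Agent.H914 Pool.Agent.H914.VarClass Pool.Agent.H914.VarClass.Obj
  Pool.Agent.H914.WeilCohomology
open Pool.Agent.Y133.Half
open Pool.Agent.Y121.AH (em ex em_smul em_add em_mul em_map em_tr em_gr em_zero em_xp tmul_ind tmul_eq)
open Pool.Agent.Helper7K9.FP Pool.Agent.Helper7K9.FI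

variable {k : Type u} [Field k] {𝒱 : VarClass k} {ops : CycleOps 𝒱}

/-- A class which is killed by the skew operators which kill the classes of `S` is mapped to a class
with coefficients in `Ω` by the operators which fix the classes of `S`. -/
theorem kap_pt (W : WeilCohomology.{u, 0} ops) (X : 𝒱.Obj) (S : Sys W) (Ω κ : Type) [Field Ω]
    [Field κ] [Algebra W.K Ω] [Algebra W.K κ] [Algebra Ω κ] [IsScalarTower W.K Ω κ]
    [IsAlgClosed Ω] [CharZero Ω] (n : ℕ) (b : W.H (pw X n))
    (hk : ∀ y : Module.End W.K (W.H X), IsGr W y → Anti S X y → del W y n b = 0)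
    (x : Module.End (baseW W κ).K ((baseW W κ).H X)) (hx : Fix S X κ x) (y : W.H (pw X n)) :
    (show κ from (baseW W κ).tr (pw X n) (pwo (baseW W κ) x n (em W κ b) * em W κ y)) ∈
      Set.range (algebraMap Ω κ) := by
  obtain ⟨xi, hxi, h1, h2⟩ := hx.exists_inv
  by_contra hcon
  have htr : ¬ IsAlgebraic Ω (show κ from (baseW W κ).tr (pw X n)
      (pwo (baseW W κ) x n (em W κ b) * em W κ y)) := fun h => hcon (alg_mem h)
  obtain ⟨δ, hδ⟩ := algd Ω κ _ htr
  apply hδ
  let δ' : Derivation W.K κ κ := δ.restrictScalars W.K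
  let y0 : Module.End (baseW W κ).K ((baseW W κ).H X) := ldv δ' x xi h2
  have hy0 : ∀ v, y0 v = xi (dW W δ' X (x v)) - dW W δ' X v := fun v => rfl
  have hgr : IsGr (baseW W κ) y0 := by
    intro i a ha
    rw [hy0]
    exact Submodule.sub_mem _ (hxi.gr i _ (dW_gr W δ' (hx.gr i a ha))) (dW_gr W δ' ha)
  have hadj : ∀ a c, (baseW W κ).tr X (y0 a * c) + (baseW W κ).tr X (a * y0 c) = 0 := by
    intro a c
    have e1 : x (xi (dW W δ' X (x a))) = dW W δ' X (x a) := by
      change (x * xi) _ = _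
      rw [h1]; rfl
    have e2 : x (xi (dW W δ' X (x c))) = dW W δ' X (x c) := by
      change (x * xi) _ = _
      rw [h1]; rfl
    have e3 : (baseW W κ).tr X (xi (dW W δ' X (x a)) * c) =
        (baseW W κ).tr X (dW W δ' X (x a) * x c) := by
      rw [← hx.iso, e1]
    have e4 : (baseW W κ).tr X (a * xi (dW W δ' X (x c))) =
        (baseW W κ).tr X (x a * dW W δ' X (x c)) := by
      rw [← hx.iso, e2]
    have e5 := dW_tr W δ' (x a * x c)
    have e6 := dW_tr W δ' (a * c)
    rw [dW_mul, map_add, hx.iso] at e5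
    rw [dW_mul, map_add] at e6
    rw [hy0, hy0, sub_mul, mul_sub, map_sub, map_sub, e3, e4]
    linear_combination e5 - e6
  have hdel : ∀ (n : ℕ) (v : (baseW W κ).H (pw X n)), del (baseW W κ) y0 n v =
      pwo (baseW W κ) xi n (dW W δ' (pw X n) (pwo (baseW W κ) x n v)) - dW W δ' (pw X n) v :=
    fun n v => del_ldv h2 n v
  have hkill : ∀ n, ∀ a ∈ S.C (pw X n), del (baseW W κ) y0 n (em W κ a) = 0 := by
    intro n a ha
    rw [hdel, hx.fix n a ha, dW_em, map_zero, sub_zero]
  have hanti : ∀ φ : κ →ₗ[W.K] W.K, Anti S X (cmo φ y0) := by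
    intro φ
    refine ⟨?_, ?_, ?_⟩
    · intro b a ha
      refine PH.ind (p := fun a => cmo φ y0 a ∈ PH W X b) ?_ ?_ ?_ ha
      · intro i hi a ha; exact PH.of' hi (cm_gr φ (hgr i _ (em_gr ha)))
      · rw [map_zero]; exact Submodule.zero_mem _
      · intro a a' ha ha'; rw [map_add]; exact Submodule.add_mem _ ha ha'
    · intro a c
      have e1 := hadj (em W κ a) (em W κ c)
      have e2 : W.tr X (cmo φ y0 a * c) = φ ((baseW W κ).tr X (y0 (em W κ a) * em W κ c)) := by
        rw [cmo_apply, ← cm_mul_em, cm_tr]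
      have e3 : W.tr X (a * cmo φ y0 c) = φ ((baseW W κ).tr X (em W κ a * y0 (em W κ c))) := by
        rw [cmo_apply, ← cm_em_mul, cm_tr]
      rw [LinearMap.neg_apply, mul_neg, map_neg, e2, e3]
      have e4 := congrArg φ e1
      have e5 : φ ((baseW W κ).tr X (y0 (em W κ a) * em W κ c) +
          (baseW W κ).tr X (em W κ a * y0 (em W κ c))) =
          φ ((baseW W κ).tr X (y0 (em W κ a) * em W κ c)) +
            φ ((baseW W κ).tr X (em W κ a * y0 (em W κ c))) := map_add φ _ _
      rw [e5] at e4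
      exact eq_neg_of_add_eq_zero_left (e4.trans (map_zero φ))
    · intro n a ha
      rw [del_cmo, hkill n a ha, map_zero]
  have h3 : del (baseW W κ) y0 n (em W κ b) = 0 := by
    apply eq_zero_of_cm
    intro φ
    rw [← del_cmo]
    exact hk _ (fun i a ha => cm_gr φ (hgr i _ (em_gr ha))) (hanti φ)
  have h4 : dW W δ' (pw X n) (pwo (baseW W κ) x n (em W κ b)) = 0 := by
    rw [hdel, dW_em, sub_zero] at h3
    have h5 := congrArg (pwo (baseW W κ) x n) h3
    rw [pwo_inv h1, map_zero] at h5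
    exact h5
  have h5 := dW_tr W δ' (pwo (baseW W κ) x n (em W κ b) * em W κ y)
  rw [dW_mul, h4, dW_em, zero_mul, mul_zero, add_zero, map_zero] at h5
  exact h5.symm

end Pool.Agent.Helper7K9.TC
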