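import Pool.Agent.Helper7K9.TC.Act
import Pool.Agent.Helper7K9.TC.Kap

/-!
# The classes which are killed by the operators which kill the Tate classes
-/

open CategoryTheory AlgebraicGeometry TensorProduct

universe u v w

namespace Pool.Agent.Helper7K9.TC

open Module
open Pool.Agent.H914 Pool.Agent.H914.VarClass Pool.Agent.H914.VarClass.Obj
  Pool.Agent.H914.WeilCohomology
open Pool.Agent.Y133.Half
open Pool.Agent.Y121.AH (em ex em_smul em_add em_mul em_map em_tr em_gr em_zero em_xp tmul_ind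
  tmul_eq dia dia_apply em_injective)
open Pool.Agent.Helper7K9.FP Pool.Agent.Helper7K9.FI
open Pool.Agent.Helper7K9.FI.Fin1L (pol aeval_pol van mem_van)
open Pool.Agent.Y133.Half.ClassPred (sp_ind sp_of sp_proj)

variable {k : Type u} [Field k] {𝒱 : VarClass k} {ops : CycleOps 𝒱}
  {W : WeilCohomology.{u, 0} ops} {Γ : Type w} [Group Γ] {G : GalAct W Γ} {X Z : 𝒱.Obj}
  {Ω : Type} [Field Ω] [Algebra W.K Ω]

/-- The multiples of the exponent. -/
lemma act_pow {g : Γ} {m j : ℕ} {a : W.H Z}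
    (h : G.act Z (g ^ m) a = (G.χ g : W.K) ^ (m * j) • a) (l : ℕ) :
    G.act Z (g ^ (m * l)) a = (G.χ g : W.K) ^ (m * l * j) • a := by
  induction l with
  | zero => rw [mul_zero, pow_zero, zero_mul, pow_zero, one_smul, map_one]; rfl
  | succ l ih =>
    have h1 : g ^ (m * (l + 1)) = g ^ m * g ^ (m * l) := by rw [← pow_add]; congr 1; ring
    have h2 : G.act Z (g ^ m * g ^ (m * l)) a = G.act Z (g ^ m) (G.act Z (g ^ (m * l)) a) := by
      rw [map_mul]; rfl
    rw [h1, h2, ih, map_smul, h, smul_smul, ← pow_add]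
    congr 2
    ring

lemma chi_pow (g : Γ) (m j : ℕ) : (G.χ (g ^ m) : W.K) ^ j = (G.χ g : W.K) ^ (m * j) := by
  rw [map_pow, Units.val_pow_eq_pow_val, ← pow_mul]

lemma sq_pow {g : Γ} {s : (baseW W Ω).K} (h : s ^ 2 * ex W Ω (G.χ g) = 1) (m : ℕ) :
    (s ^ m) ^ 2 * ex W Ω (G.χ (g ^ m)) = 1 := by
  have h1 : ex W Ω (G.χ (g ^ m)) = ex W Ω (G.χ g) ^ m := by
    rw [map_pow, Units.val_pow_eq_pow_val]
    exact map_pow (algebraMap W.K Ω) _ _
  rw [h1, ← pow_mul, mul_comm m 2, pow_mul, ← mul_pow, h, one_pow]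

lemma em_proj' (i : ℕ) (v : W.H Z) : em W Ω (H914.proj (W.isInternal Z) i v) =
    H914.proj ((baseW W Ω).isInternal Z) i (em W Ω v) := by
  refine gr_induction (W.isInternal Z) (p := fun v => em W Ω (H914.proj (W.isInternal Z) i v) =
    H914.proj ((baseW W Ω).isInternal Z) i (em W Ω v)) ?_ ?_ v
  · intro j a ha
    by_cases hij : j = i
    · subst hij
      rw [proj_same _ ha, proj_same _ (em_gr ha)]
    · rw [proj_ne _ ha hij, proj_ne _ (em_gr ha) hij, em_zero]
  · intro a b ha hb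
    rw [map_add, em_add, em_add, map_add, ha, hb]

lemma exists_sqrt (Ω : Type) [Field Ω] [Algebra W.K Ω] [IsAlgClosed Ω] (r : W.K) (hr : r ≠ 0) :
    ∃ s : (baseW W Ω).K, s ^ 2 * ex W Ω r = 1 := by
  have h1 : ∀ t : Ω, t ≠ 0 → ∃ s : Ω, s ^ 2 * t = 1 := by
    intro t ht
    obtain ⟨s, hs⟩ := IsAlgClosed.exists_pow_nat_eq (k := Ω) t⁻¹ (n := 2) (by norm_num)
    exact ⟨s, by rw [hs, inv_mul_cancel₀ ht]⟩
  exact h1 (algebraMap W.K Ω r) fun h0 => hr ((algebraMap W.K Ω).injective (by rw [h0, map_zero]))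

/-- Some power of the operator fixes all Tate classes. -/
lemma exists_fix (hcrd : ∀ V : WeilCohomology.{u, 0} ops, S_CRD V) (R : ClassPred W)
    (hR : R.P = fun X j c => IsTate G X j c) (X : 𝒱.Obj) (g : Γ) (s : (baseW W Ω).K)
    (h : s ^ 2 * ex W Ω (G.χ g) = 1) :
    ∃ N, 0 < N ∧ Fix R.sys X Ω (sim G (g ^ N) (s ^ N) X) := by
  classical
  obtain ⟨ι, hι, b, deg, hb⟩ := exists_hbas W X
  obtain ⟨c, hc0, hc1⟩ := hcrd W X ι b
  have hc : Crd b c := ⟨hc0, hc1⟩
  obtain ⟨cΩ, hΩ0, hΩ1⟩ := hcrd (baseW W Ω) X ι (bK Ω b)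
  have hΩ : Crd (bK Ω b) cΩ := ⟨hΩ0, hΩ1⟩
  let M : ℕ → ι → ι → Ω := fun l => mat (bK Ω b) (sim G (g ^ l) (s ^ l) X)
  have hM : ∀ l, opK Ω b (M l) = sim G (g ^ l) (s ^ l) X := fun l => opK_mat _
  let I : ℕ →o Ideal (MvPolynomial (ι × ι) Ω) :=
    ⟨fun m => van {x | ∃ l, x = M (l * m.factorial)}, by
      intro m m' hmm f hf
      rw [mem_van] at hf ⊢
      rintro _ ⟨l, rfl⟩
      obtain ⟨q, hq⟩ := Nat.factorial_dvd_factorial hmm
      exact hf _ ⟨l * q, by rw [hq]; congr 1; ring⟩⟩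
  obtain ⟨m₀, hm₀⟩ := monotone_stabilizes_iff_noetherian.2
    (inferInstance : IsNoetherian (MvPolynomial (ι × ι) Ω) (MvPolynomial (ι × ι) Ω)) I
  refine ⟨m₀.factorial, m₀.factorial_pos, sim_gr G _ _ X,
    sim_iso G _ _ (sq_pow h _) X, fun n a ha => ?_⟩
  have key : ∀ j (a : W.H (pw X n)), R.P (pw X n) j a →
      pwo (baseW W Ω) (sim G (g ^ m₀.factorial) (s ^ m₀.factorial) X) n (em W Ω a) =
        em W Ω a := by
    intro j a ha
    have ha' : IsTate G (pw X n) j a := by rw [hR] at ha; exact ha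
    obtain ⟨ha1, ha2⟩ := ha'
    obtain ⟨m, hm, hma⟩ := ha2 g
    let M₁ := max m m₀
    obtain ⟨q, hq⟩ := Nat.dvd_factorial hm (le_max_left m m₀)
    rw [← hM, fix_iff hc hΩ]
    funext J
    have h1 : pol (n + 1) (fun I => algebraMap W.K Ω (c n a I)) J -
        MvPolynomial.C (algebraMap W.K Ω (c n a J)) ∈ I M₁ := by
      rintro _ ⟨l, rfl⟩
      have h2 : G.act (pw X n) (g ^ (l * M₁.factorial)) a =
          (G.χ (g ^ (l * M₁.factorial)) : W.K) ^ j • a := by
        have h3 := act_pow hma (q * l)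
        have h4 : m * (q * l) = l * M₁.factorial := by rw [hq]; ring
        rw [h4] at h3
        rw [h3, chi_pow]
      have h3 := (sim_fix G _ _ (sq_pow h (l * M₁.factorial)) ha1).2 h2
      have h4 : pwo (baseW W Ω) (opK Ω b (M (l * M₁.factorial))) n (em W Ω a) = em W Ω a := by
        rw [hM, (sim_nat G _ _).pwo]
        exact h3
      rw [fix_iff hc hΩ] at h4
      rw [map_sub, aeval_pol, MvPolynomial.aeval_C]
      simp only [Algebra.algebraMap_self, RingHom.id_apply]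
      rw [sub_eq_zero]
      exact congrFun h4 J
    rw [← hm₀ M₁ (le_max_right m m₀)] at h1
    have h2 := h1 (M m₀.factorial) ⟨1, by rw [one_mul]⟩
    rw [map_sub, aeval_pol, MvPolynomial.aeval_C] at h2
    simp only [Algebra.algebraMap_self, RingHom.id_apply] at h2
    rw [sub_eq_zero] at h2
    exact h2
  refine sp_ind (Q := R) (q := fun a =>
    pwo (baseW W Ω) (sim G (g ^ m₀.factorial) (s ^ m₀.factorial) X) n (em W Ω a) =
        em W Ω a) key ?_ ?_ ha
  · rw [em_zero, map_zero]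
  · intro a b ha hb; rw [em_add, map_add, ha, hb]

/-- The classes which are killed by the operators which kill the classes of `S`. -/
noncomputable def kil (S : Sys W) (X : 𝒱.Obj) (n : ℕ) : Submodule W.K (W.H (pw X n)) where
  carrier := {v | ∀ y : Module.End W.K (W.H X), IsGr W y → Anti S X y → del W y n v = 0}
  add_mem' := by
    intro a b ha hb y hy hy'
    rw [map_add, ha y hy hy', hb y hy hy', add_zero]
  zero_mem' := by
    intro y _ _
    rw [map_zero]
  smul_mem' := by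
    intro r a ha y hy hy'
    rw [map_smul, ha y hy hy', smul_zero]

/-- The coordinates of these classes. -/
noncomputable def kfam {ι : Type} (S : Sys W)
    (c : ∀ n, W.H (pw X n) ≃ₗ[W.K] ((Fin (n + 1) → ι) → W.K)) :
    ∀ n, Submodule W.K ((Fin n → ι) → W.K)
  | 0 => ⊥
  | n + 1 => (kil S X n).map (c n).toLinearMap

/-- The group has finitely many restrictions to these classes. -/
lemma exists_restr (hcrd : ∀ V : WeilCohomology.{u, 0} ops, S_CRD V) [IsAlgClosed Ω]
    [CharZero Ω] (S : Sys W) (X : 𝒱.Obj) :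
    ∃ (r : ℕ) (p : Module.End (baseW W Ω).K ((baseW W Ω).H X) → Fin r), ∀ x y,
      Fix S X Ω x → Fix S X Ω y → p x = p y → ∀ n, ∀ v ∈ kil S X n,
        pwo (baseW W Ω) x n (em W Ω v) = pwo (baseW W Ω) y n (em W Ω v) := by
  classical
  obtain ⟨ι, hι, b, deg, hb⟩ := exists_hbas W X
  obtain ⟨c, hc0, hc1⟩ := hcrd W X ι b
  have hc : Crd b c := ⟨hc0, hc1⟩
  obtain ⟨cΩ, hΩ0, hΩ1⟩ := hcrd (baseW W Ω) X ι (bK Ω b)
  have hΩ : Crd (bK Ω b) cΩ := ⟨hΩ0, hΩ1⟩
  let G : Set (ι → ι → Ω) := {g | Fix S X Ω (opK Ω b g)}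
  have hL : ∀ (κ : Type) [Field κ] [Algebra Ω κ] (x : ι → ι → κ),
      (∀ f : MvPolynomial (ι × ι) Ω,
        (∀ g ∈ G, MvPolynomial.aeval (fun p : ι × ι => g p.1 p.2) f = 0) →
        MvPolynomial.aeval (fun p : ι × ι => x p.1 p.2) f = 0) →
      ∀ n, ∀ w ∈ kfam S c n, ∀ J,
        tp x n (fun I => algebraMap Ω κ (algebraMap W.K Ω (w I))) J ∈
          Set.range (algebraMap Ω κ) := by
    intro κ _ _ x hx n w hw J
    obtain - | n := n
    · have h1 : w = 0 := hw
      refine ⟨0, ?_⟩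
      rw [h1, map_zero]
      simp only [tp, Pi.zero_apply, map_zero, mul_zero, Finset.sum_const_zero]
    · obtain ⟨a, ha, rfl⟩ := hw
      let _ : Algebra W.K κ := ((algebraMap Ω κ).comp (algebraMap W.K Ω)).toAlgebra
      have : IsScalarTower W.K Ω κ := IsScalarTower.of_algebraMap_eq fun _ => rfl
      obtain ⟨cκ, hκ0, hκ1⟩ := hcrd (baseW W κ) X ι (bK κ b)
      have hκ : Crd (bK κ b) cκ := ⟨hκ0, hκ1⟩
      have hfix := Fix.spec (S := S) hb hc hΩ hκ x fun f hf => hx f hf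
      obtain ⟨y, hy⟩ := exists_cls hc hκ n J
      have h1 := kap_pt W X S Ω κ n a ha (opK κ b x) hfix y
      rw [← hy, hκ.pwo, mat_opK, hc.em hκ] at h1
      exact h1
  obtain ⟨r, p, h⟩ := fin1 W.K Ω ι (kfam S c) G hL
  refine ⟨r, fun x => p (mat (bK Ω b) x), fun x y hx hy hxy n v hv => ?_⟩
  have hx' : mat (bK Ω b) x ∈ G := by
    change Fix S X Ω (opK Ω b (mat (bK Ω b) x))
    rw [opK_mat]
    exact hx
  have hy' : mat (bK Ω b) y ∈ G := by
    change Fix S X Ω (opK Ω b (mat (bK Ω b) y))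
    rw [opK_mat]
    exact hy
  have h1 := h _ hx' _ hy' hxy (n + 1) (c n v) ⟨v, hv, rfl⟩
  apply (cΩ n).injective
  rw [hΩ.pwo, hΩ.pwo, hc.em hΩ]
  exact h1

/-- The classes which are killed by the operators which kill the Tate classes are linear
combinations of Tate classes. -/
theorem inv (hcrd : ∀ V : WeilCohomology.{u, 0} ops, S_CRD V) (R : ClassPred W)
    (hR : R.P = fun X j c => IsTate G X j c) (X : 𝒱.Obj) (n : ℕ) (v : W.H (pw X n))
    (hv0 : v ∈ PH W (pw X n) 0) (hv : v ∈ kil R.sys X n) : v ∈ R.sys.C (pw X n) := by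
  let Ω := AlgebraicClosure W.K
  obtain ⟨r, p, hp⟩ := exists_restr (Ω := Ω) hcrd R.sys X
  have key : ∀ j, R.P (pw X n) j (H914.proj (W.isInternal (pw X n)) (2 * j) v) := by
    intro j
    rw [hR]
    refine ⟨proj_mem _ _ _, fun g => ?_⟩
    obtain ⟨s, hs⟩ := exists_sqrt (W := W) Ω (G.χ g : W.K) (G.χ g).ne_zero
    have hs0 : s ≠ 0 := by
      rintro rfl
      rw [zero_pow two_ne_zero, zero_mul] at hs
      exact zero_ne_one hs
    obtain ⟨N, hN, hfix⟩ := exists_fix hcrd R hR X g s hs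
    have hpow : ∀ l, Fix R.sys X Ω (sim G (g ^ (N * l)) (s ^ (N * l)) X) := by
      intro l
      induction l with
      | zero =>
        have h1 : sim G (g ^ (N * 0)) (s ^ (N * 0)) X = 1 := by
          apply LinearMap.ext
          intro a
          rw [mul_zero, pow_zero, pow_zero, sim_one]
          rfl
        rw [h1]
        exact Fix.one
      | succ l ih =>
        have h1 : sim G (g ^ (N * (l + 1))) (s ^ (N * (l + 1))) X =
            sim G (g ^ N) (s ^ N) X * sim G (g ^ (N * l)) (s ^ (N * l)) X := by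
          apply LinearMap.ext
          intro a
          refine Eq.trans ?_ (sim_sim G (g ^ N) (g ^ (N * l)) (s ^ N) (s ^ (N * l)) X a).symm
          rw [← pow_add, ← pow_add]
          have h2 : N * (l + 1) = N + N * l := by ring
          rw [h2]
        rw [h1]
        exact hfix.mul ih
    obtain ⟨x, y, hxy, hxy'⟩ : ∃ x y : ℕ, x < y ∧
        p (sim G (g ^ (N * x)) (s ^ (N * x)) X) = p (sim G (g ^ (N * y)) (s ^ (N * y)) X) := by
      obtain ⟨x, y, hne, he⟩ := Finite.exists_ne_map_eq_of_infinite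
        (fun l : ℕ => p (sim G (g ^ (N * l)) (s ^ (N * l)) X))
      rcases lt_or_gt_of_ne hne with h | h
      · exact ⟨x, y, h, he⟩
      · exact ⟨y, x, h, he.symm⟩
    have h1 := hp _ _ (hpow x) (hpow y) hxy' n v hv
    rw [(sim_nat G _ _).pwo, (sim_nat G _ _).pwo] at h1
    obtain ⟨m, hm, hy⟩ : ∃ m, 0 < m ∧ N * y = N * x + m :=
      ⟨N * (y - x), Nat.mul_pos hN (by omega), by
        rw [← mul_add]; congr 1; omega⟩
    rw [hy, pow_add, pow_add, ← sim_sim] at h1
    have h2 : em W Ω v = sim G (g ^ m) (s ^ m) (pw X n) (em W Ω v) := by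
      have h3 := congrArg (sim G (g ^ (N * x))⁻¹ ((s ^ (N * x))⁻¹) (pw X n)) h1
      rw [sim_sim, sim_sim, inv_mul_cancel, inv_mul_cancel₀ (pow_ne_zero _ hs0), sim_one,
        sim_one] at h3
      exact h3
    have h3 : sim G (g ^ m) (s ^ m) (pw X n)
        (em W Ω (H914.proj (W.isInternal (pw X n)) (2 * j) v)) =
          em W Ω (H914.proj (W.isInternal (pw X n)) (2 * j) v) := by
      rw [em_proj', ← proj_gr (sim_gr G (g ^ m) (s ^ m) (pw X n)), ← h2]
    refine ⟨m, hm, ?_⟩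
    rw [← chi_pow]
    exact (sim_fix G _ _ (sq_pow hs m) (proj_mem _ _ _)).1 h3
  have hodd : ∀ i, i % 2 ≠ 0 → H914.proj (W.isInternal (pw X n)) i v = 0 := by
    intro i hi
    refine PH.ind (p := fun v => H914.proj (W.isInternal (pw X n)) i v = 0) ?_ ?_ ?_ hv0
    · intro j hj a ha
      refine proj_ne _ ha ?_
      rintro rfl
      exact hi (by simpa using hj)
    · exact map_zero _
    · intro a b ha hb; rw [map_add, ha, hb, add_zero]
  have h1 := sum_proj (W.isInternal (pw X n)) (N := 2 * (pw X n).dim + 1)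
    fun i hi => W.gr_eq_bot (pw X n) i (by omega)
  have h2 := congrArg (fun f : Module.End W.K (W.H (pw X n)) => f v) h1
  simp only [LinearMap.sum_apply, Module.End.one_apply] at h2
  rw [← h2]
  refine Submodule.sum_mem _ fun i _ => ?_
  by_cases hi : i % 2 = 0
  · have h3 : i = 2 * (i / 2) := by omega
    rw [h3]
    exact sp_of (key _)
  · rw [hodd i hi]
    exact Submodule.zero_mem _

end Pool.Agent.Helper7K9.TC
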