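import Pool.Agent.Helper7K9.TC.Inv

/-!
# The operators which kill the classes of a system kill the classes of a larger one
-/

open CategoryTheory AlgebraicGeometry TensorProduct

universe u v w

namespace Pool.Agent.Helper7K9.TC

open Module
open Pool.Agent.H914 Pool.Agent.H914.VarClass Pool.Agent.H914.VarClass.Obj
  Pool.Agent.H914.WeilCohomology
open Pool.Agent.Y133.Half
open Pool.Agent.Y121.AH (em ex em_smul em_add em_mul em_map em_tr em_gr em_zero em_xp tmul_ind
  tmul_eq dia dia_apply em_injective)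
open Pool.Agent.Helper7K9.FP Pool.Agent.Helper7K9.FI
open Pool.Agent.Y133.Half.ClassPred (sp_ind sp_of sp_proj)

variable {k : Type u} [Field k] {𝒱 : VarClass k} {ops : CycleOps 𝒱}
  {W : WeilCohomology.{u, 0} ops} {X : 𝒱.Obj}

/-- The class `z` with the property `R` acts as a skew derivation which commutes with the action of
the classes with the property `R`. -/
structure Ctr (R : ClassPred W) (X : 𝒱.Obj) (z : W.H (X.prod X)) : Prop where
  cls : R.P (X.prod X) X.dim z
  comm : ∀ z', R.P (X.prod X) X.dim z' →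
    ∀ x, W.corr z (W.corr z' x) = W.corr z' (W.corr z x)
  skew : Adj W (W.corr z) (-W.corr z)
  leib : Lb W (W.corr z)

/-- If there are no central classes then the operators which kill the classes of `Q` kill the
classes of `R`. -/
lemma kills_gen (hsq : S_SQ W) (hdec : S_DEC W) {Q R : ClassPred W} [Nontrivial (W.H X)]
    (hM : Mid4 Q R X) (hQ : ∀ n, Sys.Nondeg Q.sys (pw X n)) (hR : ∀ n, Sys.Nondeg R.sys (pw X n))
    (hinv : ∀ n (v : W.H (pw X n)), v ∈ PH W (pw X n) 0 → v ∈ kil R.sys X n →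
      v ∈ R.sys.C (pw X n))
    (hz : ∀ z, Ctr R X z → z = 0) (y : Module.End W.K (W.H X)) (hy : IsGr W y)
    (hanti : Anti Q.sys X y) (n : ℕ) (b : W.H (pw X n)) (hb : b ∈ R.sys.C (pw X n)) :
    del W y n b = 0 := by
  have hle : ∀ Z, Q.sys.C Z ≤ R.sys.C Z := ClassPred.sys_le hM.le
  have hgr : zcl W y ∈ W.gr (X.prod X) (2 * X.dim) :=
    zcl_gr fun {i a} ha => hy i a ha
  obtain ⟨h, z, hh, hzh, hxz⟩ := hdec Q R X hM hR
    (fun z hz0 hz1 => hinv 1 z hz0 fun y _ hy => hz1 y hy) y hanti hgr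
  have hz' : Anti Q.sys X (W.corr z) := by
    have h1 : W.corr z = y + -h := by rw [hxz]; abel
    rw [h1]
    exact hanti.add (hh.mono hle).neg
  have hc : Ctr R X z := by
    refine ⟨hzh, fun z' hz'' a => ?_, hz'.adj, hz'.lb⟩
    have h1 : W.corr z' ∈ Q.sys.Op (pw X 0) (pw X 0) :=
      Sys.Op.corr (ClassPred.sp_of (Q := Q) (hsq Q R X hM (hQ 0) z' hz''))
    exact hz'.nat h1 a
  have h1 := hz z hc
  have h2 := hh.kill n b hb
  rw [hxz, h1, corr_zero, add_zero]
  exact h2

/-- The bound for the dimension of the spaces of the larger system. -/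
theorem bound_gen [Nontrivial (W.H X)] (hcrd : ∀ V : WeilCohomology.{u, 0} ops, S_CRD V)
    (S S' : Sys W) (Ω : Type) [Field Ω] [Algebra W.K Ω] [IsAlgClosed Ω] [CharZero Ω]
    (hk : ∀ y : Module.End W.K (W.H X), IsGr W y → Anti S X y →
      ∀ n, ∀ b ∈ S'.C (pw X n), del W y n b = 0)
    (htn : ∀ (n : ℕ) (v : (baseW W Ω).H (pw X n)),
      (∀ x : Module.End (baseW W Ω).K ((baseW W Ω).H X), Fix S X Ω x →
        pwo (baseW W Ω) x n v = v) →
      v ∈ Submodule.span (baseW W Ω).K {u | ∃ a ∈ S.C (pw X n), u = em W Ω a}) :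
    ∃ m C : ℕ, ∀ n, finrank W.K (S'.C (pw X n)) ≤
      C * finrank W.K (S.C (pw X (m + n))) := by
  classical
  obtain ⟨ι, hι, b, deg, hb⟩ := exists_hbas W X
  obtain ⟨c, hc0, hc1⟩ := hcrd W X ι b
  have hc : Crd b c := ⟨hc0, hc1⟩
  obtain ⟨cC, hC0, hC1⟩ := hcrd (baseW W Ω) X ι (bK Ω b)
  have hC : Crd (bK Ω b) cC := ⟨hC0, hC1⟩
  let G : Set (ι → ι → Ω) := {g | Fix S X Ω (opK Ω b g)}
  have hL : ∀ (κ : Type) [Field κ] [Algebra Ω κ] (x : ι → ι → κ),
      (∀ f : MvPolynomial (ι × ι) Ω,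
        (∀ g ∈ G, MvPolynomial.aeval (fun p : ι × ι => g p.1 p.2) f = 0) →
        MvPolynomial.aeval (fun p : ι × ι => x p.1 p.2) f = 0) →
      ∀ n, ∀ w ∈ fam S' c n, ∀ J,
        tp x n (fun I => algebraMap Ω κ (algebraMap W.K Ω (w I))) J ∈
          Set.range (algebraMap Ω κ) := by
    intro κ _ _ x hx n w hw J
    obtain - | n := n
    · have h1 : w = 0 := hw
      refine ⟨0, ?_⟩
      rw [h1, map_zero]
      simp only [tp, Pi.zero_apply, map_zero, mul_zero, Finset.sum_const_zero]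
    · obtain ⟨a, ha, rfl⟩ := hw
      let _ : Algebra W.K κ := ((algebraMap Ω κ).comp (algebraMap W.K Ω)).toAlgebra
      have : IsScalarTower W.K Ω κ := IsScalarTower.of_algebraMap_eq fun _ => rfl
      obtain ⟨cκ, hκ0, hκ1⟩ := hcrd (baseW W κ) X ι (bK κ b)
      have hκ : Crd (bK κ b) cκ := ⟨hκ0, hκ1⟩
      have hfix := Fix.spec (S := S) hb hc hC hκ x fun f hf => hx f hf
      obtain ⟨y, hy⟩ := exists_cls hc hκ n J
      have h1 := kap W X S S' Ω κ hk (opK κ b x) hfix n a ha y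
      rw [← hy, hκ.pwo, mat_opK, hc.em hκ] at h1
      exact h1
  have hM : ∀ x ∈ G, ∀ y ∈ G, (fun i j => ∑ k, x i k * y k j) ∈ G := by
    intro x hx y hy
    have h1 := mat_mul (b := bK Ω b) (opK Ω b x) (opK Ω b y)
    have h2 := Fix.mul hx hy
    rw [mat_opK, mat_opK] at h1
    have h3 := opK_mat (b := b) (opK Ω b x * opK Ω b y)
    rw [h1] at h3
    rw [← h3] at h2
    exact h2
  have h1 : (fun i j => if i = j then 1 else 0) ∈ G := by
    have h1 := mat_one (b := bK Ω b)
    have h2 := Fix.one (S := S) (X := X) (L := Ω)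
    have h3 := opK_mat (b := b) (1 : Module.End (baseW W Ω).K ((baseW W Ω).H X))
    rw [← h3, h1] at h2
    exact h2
  have hI : ∀ x ∈ G, ∃ y ∈ G, (fun i j => ∑ k, x i k * y k j) =
      fun i j => if i = j then 1 else 0 := by
    intro x hx
    obtain ⟨y, hy, hxy, -⟩ := Fix.exists_inv hx
    refine ⟨mat (bK Ω b) y, ?_, ?_⟩
    · have h3 := opK_mat (b := b) y
      rw [← h3] at hy
      exact hy
    · have h4 := mat_mul (b := bK Ω b) (opK Ω b x) y
      rw [hxy, mat_opK, mat_one] at h4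
      exact h4.symm
  have hE : ∃ e ∈ fam S' c 1, e ≠ 0 ∧ ∀ x ∈ G,
      tp x 1 (fun I => algebraMap W.K Ω (e I)) = fun I => algebraMap W.K Ω (e I) := by
    refine ⟨c 0 (1 : W.H X), ⟨1, S'.one X, rfl⟩, ?_, fun x hx => ?_⟩
    · intro h0
      have h2 : (1 : W.H X) = 0 := (LinearEquiv.map_eq_zero_iff (c 0)).1 h0
      exact one_ne_zero h2
    · exact (fix_iff hc hC x 0 (1 : W.H X)).1 (hx.fix 0 1 (S.one X))
  have hT : ∀ n, 0 < n → ∀ v : (Fin n → ι) → Ω, (∀ x ∈ G, tp x n v = v) →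
      v ∈ Submodule.span Ω {u | ∃ a ∈ fam S c n,
        u = fun I => algebraMap W.K Ω (a I)} := by
    intro n hn v hv
    obtain - | n := n
    · exact absurd hn (lt_irrefl 0)
    · obtain ⟨v', hv'⟩ : ∃ v' : (baseW W Ω).H (pw X n), cC n v' = v := (cC n).surjective v
      have h2 := htn n v' fun x hx => ?_
      · have h3 := Submodule.mem_map_of_mem (f := (cC n).toLinearMap) h2
        rw [Submodule.map_span] at h3
        have h4 : (cC n).toLinearMap v' = v := hv'
        rw [h4] at h3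
        refine Submodule.span_mono ?_ h3
        rintro _ ⟨_, ⟨a, ha, rfl⟩, rfl⟩
        exact ⟨c n a, ⟨a, ha, rfl⟩, hc.em hC n a⟩
      · have h3 : mat (bK Ω b) x ∈ G := by
          have h3 := opK_mat (b := b) x
          rw [← h3] at hx
          exact hx
        apply (cC n).injective
        rw [hC.pwo, hv']
        exact hv _ h3
  obtain ⟨m, C, h⟩ := fin2 dim W.K Ω ι (fam S c) (fam S' c) G h1 hM hI
    (fam_mul hc) hE hT (fin1 W.K Ω ι _ G hL)
  refine ⟨m, C, fun n => ?_⟩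
  have h2 := h (n + 1) n.succ_pos
  have h3 : finrank W.K (fam S c (m + (n + 1))) =
      finrank W.K (S.C (pw X (m + n))) := finrank_fam (m + n)
  rw [finrank_fam, h3] at h2
  exact h2

end Pool.Agent.Helper7K9.TC
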