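import Pool.Agent.Helper7K9.TC.Prm

/-!
# The projectors to the graded pieces of the cohomology of a factor
-/

open CategoryTheory AlgebraicGeometry TensorProduct

universe u v w

namespace Pool.Agent.Helper7K9.TC

open Module
open Pool.Agent.H914 Pool.Agent.H914.VarClass Pool.Agent.H914.VarClass.Obj
  Pool.Agent.H914.WeilCohomology
open Pool.Agent.Y133.Half
open Pool.Agent.Helper7K9.FP Pool.Agent.Helper7K9.FI

variable {k : Type u} [Field k] {𝒱 : VarClass k} {ops : CycleOps 𝒱}

theorem kun (W : WeilCohomology.{u, 0} ops) : S_KUN W := by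
  intro S X ι _ _ b deg hb c hc hproj n
  have hbase : ∀ (i : ℕ) (p : ι), H914.proj (W.isInternal X) i (b p) =
      if deg p = i then b p else 0 := by
    intro i p
    by_cases h : deg p = i
    · rw [if_pos h]
      subst h
      exact proj_same _ (hb.mem p)
    · rw [if_neg h]
      exact proj_ne _ (hb.mem p) h
  induction n with
  | zero =>
    intro j i
    have hj : j = 0 := Fin.fin_one_eq_zero j
    subst hj
    refine ⟨H914.proj (W.isInternal X) i, hproj i, fun I => ?_⟩
    rw [PrmL.bcl_zero hc]
    exact hbase i (I 0)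
  | succ n ih =>
    intro j i
    refine Fin.lastCases ?_ (fun j => ?_) j
    · refine ⟨(extOp W (1 : Module.End W.K (W.H (pw X n))) (H914.proj (W.isInternal X) i) :
        Module.End W.K (W.H ((pw X n).prod X))), Sys.Op.ext Sys.Op.id (hproj i), fun I => ?_⟩
      by_cases h : deg (I (Fin.last (n + 1))) = i
      · rw [if_pos h, PrmL.bcl_succ hc]
        refine (extOp_xp _ _ _ _).trans ?_
        rw [hbase, if_pos h]
        rfl
      · rw [if_neg h, PrmL.bcl_succ hc]
        refine (extOp_xp _ _ _ _).trans ?_
        rw [hbase, if_neg h, xp_def, map_zero, mul_zero]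
        rfl
    · obtain ⟨F, hF, hF'⟩ := ih j i
      refine ⟨(extOp W (F : Module.End W.K (W.H (pw X n))) (1 : Module.End W.K (W.H X)) :
        Module.End W.K (W.H ((pw X n).prod X))), Sys.Op.ext hF Sys.Op.id, fun I => ?_⟩
      by_cases h : deg (I j.castSucc) = i
      · rw [if_pos h, PrmL.bcl_succ hc]
        refine (extOp_xp _ _ _ _).trans ?_
        rw [hF', if_pos h]
        rfl
      · rw [if_neg h, PrmL.bcl_succ hc]
        refine (extOp_xp _ _ _ _).trans ?_
        rw [hF', if_neg h, xp_def, map_zero, zero_mul]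
        rfl

end Pool.Agent.Helper7K9.TC
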