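import Pool.Agent.Helper7K9.TC.Idl

set_option autoImplicit false

/-! [PHI] linear functionals with given values on the monomials -/

namespace Pool.Agent.Helper7K9.TC

open MvPolynomial

namespace PhiL

theorem exists_perm {α : Type} {n : ℕ} (f g : Fin n → α)
    (h : Multiset.map f Finset.univ.val = Multiset.map g Finset.univ.val) :
    ∃ σ : Equiv.Perm (Fin n), ∀ i, f (σ i) = g i := by
  classical
  have h1 : ∀ (f : Fin n → α) (a : α),
      Fintype.card {i // f i = a} = Multiset.count a (Multiset.map f Finset.univ.val) := by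
    intro f a
    rw [Fintype.card_subtype, Multiset.count_map, Finset.card_def, Finset.filter_val]
    congr 1
    refine Multiset.filter_congr fun x _ => ?_
    exact eq_comm
  have h2 : ∀ a, Nonempty ({i // g i = a} ≃ {i // f i = a}) := by
    intro a
    rw [← Fintype.card_eq, h1, h1, h]
  let e : ∀ a, {i // g i = a} ≃ {i // f i = a} := fun a => (h2 a).some
  refine ⟨(Equiv.sigmaFiberEquiv g).symm.trans
    ((Equiv.sigmaCongrRight e).trans (Equiv.sigmaFiberEquiv f)), fun i => ?_⟩
  exact (e (g i) ⟨i, rfl⟩).2

theorem same {ι Ω : Type} (e : ∀ n, (Fin n → ι) → (Fin n → ι) → Ω)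
    (he : ∀ n (σ : Equiv.Perm (Fin n)) J I, e n (J ∘ σ) (I ∘ σ) = e n J I) (n n' : ℕ)
    (f : Fin n → ι × ι) (f' : Fin n' → ι × ι)
    (h : Multiset.map f Finset.univ.val = Multiset.map f' Finset.univ.val) :
    e n (fun k => (f k).1) (fun k => (f k).2) = e n' (fun k => (f' k).1) (fun k => (f' k).2) := by
  have hn : n = n' := by
    have := congrArg Multiset.card h
    simpa using this
  subst hn
  obtain ⟨σ, hσ⟩ := exists_perm f f' h
  have h1 : (fun k => (f' k).1) = (fun k => (f k).1) ∘ σ := by
    funext k
    rw [← hσ k]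
    rfl
  have h2 : (fun k => (f' k).2) = (fun k => (f k).2) ∘ σ := by
    funext k
    rw [← hσ k]
    rfl
  rw [h1, h2, he]

theorem exists_fn {α : Type} (M : Multiset α) :
    ∃ (n : ℕ) (f : Fin n → α), Multiset.map f Finset.univ.val = M := by
  refine ⟨M.toList.length, M.toList.get, ?_⟩
  have h1 : (Finset.univ.val : Multiset (Fin M.toList.length))
      = ((List.finRange M.toList.length : List _) : Multiset _) := rfl
  rw [h1, Multiset.map_coe]
  have h2 : List.map M.toList.get (List.finRange M.toList.length) = M.toList := by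
    exact List.map_get_finRange _
  rw [h2, Multiset.coe_toList]

end PhiL

/-- [PHI] -/
theorem phi : S_PHI := by
  classical
  intro ι Ω _ _ _ e he
  choose N F hF using fun s : (ι × ι) →₀ ℕ => PhiL.exists_fn (Finsupp.toMultiset s)
  refine ⟨(MvPolynomial.basisMonomials (ι × ι) Ω).constr Ω
    (fun s => e (N s) (fun k => (F s k).1) (fun k => (F s k).2)), ?_⟩
  intro n J I
  have h1 : (∏ k, X (J k, I k) : MvPolynomial (ι × ι) Ω)
      = MvPolynomial.basisMonomials (ι × ι) Ω (∑ k, Finsupp.single (J k, I k) 1) := by
    rw [MvPolynomial.coe_basisMonomials]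
    change _ = monomial (∑ k, Finsupp.single (J k, I k) 1) 1
    rw [MvPolynomial.monomial_sum_one]
    rfl
  rw [h1, Module.Basis.constr_basis]
  apply PhiL.same e he _ _ (F _) (fun k => (J k, I k))
  rw [hF, map_sum]
  simp only [Finsupp.toMultiset_single, one_nsmul]
  have h2 : (Multiset.map (fun k => (J k, I k)) Finset.univ.val)
      = ((Multiset.map (fun k => (J k, I k)) Finset.univ.val).map fun a => {a}).sum := by
    rw [Multiset.sum_map_singleton]
  rw [h2, Multiset.map_map]
  rfl

end Pool.Agent.Helper7K9.TC
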