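import Pool.Agent.Helper7K9.TC.Stm

/-!
# The permutations of the factors of the powers
-/

open CategoryTheory AlgebraicGeometry TensorProduct

universe u v w

namespace Pool.Agent.Helper7K9.TC

open Module
open Pool.Agent.H914 Pool.Agent.H914.VarClass Pool.Agent.H914.VarClass.Obj
  Pool.Agent.H914.WeilCohomology
open Pool.Agent.Y133.Half
open Pool.Agent.Helper7K9.FP Pool.Agent.Helper7K9.FI

variable {k : Type u} [Field k] {𝒱 : VarClass k} {ops : CycleOps 𝒱}

namespace PrmL

variable {W : WeilCohomology.{u, 0} ops} {X : 𝒱.Obj} {ι : Type} [Fintype ι] [DecidableEq ι]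
  {b : Basis ι W.K (W.H X)} {deg : ι → ℕ}
  {c : ∀ n, W.H (pw X n) ≃ₗ[W.K] ((Fin (n + 1) → ι) → W.K)}

lemma bcl_zero (hc : Crd b c) (I : Fin 1 → ι) : bcl c 0 I = b (I 0) := by
  refine (LinearEquiv.symm_apply_eq (c 0)).2 ?_
  funext J
  have h1 : (c 0 (b (I 0) : W.H (pw X 0)) : (Fin 1 → ι) → W.K) J = b.repr (b (I 0)) (J 0) :=
    hc.zero (b (I 0)) J
  refine Eq.trans ?_ h1.symm
  rw [b.repr_self, Finsupp.single_apply, Pi.single_apply]
  by_cases h : J = I
  · rw [if_pos h, if_pos (congrFun h 0).symm]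
  · rw [if_neg h, if_neg]
    intro h'
    apply h
    funext i
    have hi : i = 0 := Fin.fin_one_eq_zero i
    rw [hi, h']

lemma c_bcl (n : ℕ) (I J : Fin (n + 1) → ι) : c n (bcl c n I) J = if J = I then 1 else 0 := by
  rw [bcl, LinearEquiv.apply_symm_apply, Pi.single_apply]

lemma bcl_succ (hc : Crd b c) (n : ℕ) (I : Fin (n + 1 + 1) → ι) :
    bcl c (n + 1) I =
      (xp W (bcl c n (fun k => I k.castSucc)) (b (I (Fin.last (n + 1)))) :
        W.H ((pw X n).prod X)) := by
  refine (LinearEquiv.symm_apply_eq (c (n + 1))).2 ?_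
  funext J
  have h1 := hc.succ n (bcl c n (fun k => I k.castSucc)) (b (I (Fin.last (n + 1)))) J
  refine Eq.trans ?_ h1.symm
  rw [c_bcl, b.repr_self, Finsupp.single_apply, Pi.single_apply]
  by_cases h : J = I
  · subst h
    rw [if_pos rfl, if_pos rfl, if_pos rfl, mul_one]
  · rw [if_neg h]
    by_cases h1 : (fun k : Fin (n + 1) => J k.castSucc) = fun k => I k.castSucc
    · rw [if_pos h1, if_neg, mul_zero]
      intro h2
      apply h
      funext i
      refine Fin.lastCases h2.symm (fun j => ?_) i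
      exact congrFun h1 j
    · rw [if_neg h1, zero_mul]

lemma bcl_succ2 (hc : Crd b c) (n : ℕ) (I : Fin (n + 1 + 1 + 1) → ι) :
    bcl c (n + 1 + 1) I =
      (xp W (xp W (bcl c n (fun k => I k.castSucc.castSucc))
        (b (I (Fin.last (n + 1)).castSucc)) : W.H ((pw X n).prod X))
        (b (I (Fin.last (n + 1 + 1)))) : W.H (((pw X n).prod X).prod X)) := by
  have h1 := bcl_succ hc (n + 1) I
  have h2 := bcl_succ hc n (fun k => I k.castSucc)
  refine h1.trans ?_
  exact congrArg (fun z : W.H ((pw X n).prod X) =>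
    (xp W z (b (I (Fin.last (n + 1 + 1)))) : W.H (((pw X n).prod X).prod X))) h2

variable (deg c) in
/-- The permutation `σ` of the factors is realised by a morphism. -/
def Good (n : ℕ) (σ : Equiv.Perm (Fin (n + 1))) : Prop :=
  ∃ (f : pw X n ⟶ pw X n) (s : (Fin (n + 1) → ℕ) → W.K), (∀ d, s d ≠ 0) ∧
    ∀ I : Fin (n + 1) → ι, W.map f (bcl c n I) = s (fun j => deg (I j)) • bcl c n (I ∘ σ)

lemma good_one (n : ℕ) : Good (W := W) (X := X) deg c n 1 :=
  ⟨𝟙 _, fun _ => 1, fun _ => one_ne_zero, fun I => by rw [W.map_id, one_smul]; rfl⟩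

lemma good_mul {n : ℕ} {σ τ : Equiv.Perm (Fin (n + 1))} (hσ : Good (W := W) (X := X) deg c n σ)
    (hτ : Good (W := W) (X := X) deg c n τ) : Good (W := W) (X := X) deg c n (σ * τ) := by
  obtain ⟨f, s, hs, hf⟩ := hσ
  obtain ⟨g, t, ht, hg⟩ := hτ
  refine ⟨g ≫ f, fun d => s d * t (d ∘ σ), fun d => mul_ne_zero (hs _) (ht _), fun I => ?_⟩
  rw [W.map_comp, hf, map_smul, hg, smul_smul]
  rfl

/-- The extension of a permutation by a fixed point at the end. -/
lemma good_ext (hc : Crd b c) {n : ℕ} {σ : Equiv.Perm (Fin (n + 1))}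
    (hσ : Good (W := W) (X := X) deg c n σ) (τ : Equiv.Perm (Fin (n + 1 + 1)))
    (h1 : ∀ j : Fin (n + 1), τ j.castSucc = (σ j).castSucc)
    (h2 : τ (Fin.last (n + 1)) = Fin.last (n + 1)) : Good (W := W) (X := X) deg c (n + 1) τ := by
  obtain ⟨f, s, hs, hf⟩ := hσ
  let F : (pw X n).prod X ⟶ (pw X n).prod X := lift (fst (pw X n) X ≫ f) (snd (pw X n) X)
  refine ⟨F, fun d => s (fun j => d j.castSucc), fun d => hs _, fun I => ?_⟩
  have h3 : ∀ (x : W.H (pw X n)) (y : W.H X), W.map F (xp W x y) = xp W (W.map f x) y := by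
    intro x y
    rw [xp_def, map_mul (W.map F), ← W.map_comp, ← W.map_comp, Obj.lift_fst, Obj.lift_snd,
      W.map_comp, xp_def]
  rw [bcl_succ hc, bcl_succ hc]
  have h4 := h3 (bcl c n (fun k => I k.castSucc)) (b (I (Fin.last (n + 1))))
  refine h4.trans ?_
  rw [hf, xp_smul_left]
  have h5 : (fun k : Fin (n + 1) => (I ∘ τ) k.castSucc) = (fun k => I k.castSucc) ∘ σ := by
    funext k
    exact congrArg I (h1 k)
  have h6 : (I ∘ τ) (Fin.last (n + 1)) = I (Fin.last (n + 1)) := congrArg I h2
  rw [h5, h6]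
  rfl

/-- The swap of the factors of `X × X`. -/
lemma good_swap0 (hb : HBas b deg) (hc : Crd b c) :
    Good (W := W) (X := X) deg c 1 (Equiv.swap 0 1) := by
  let F : X.prod X ⟶ X.prod X := lift (snd X X) (fst X X)
  refine ⟨F, fun d => (-1 : W.K) ^ (d 0 * d 1), fun d => pow_ne_zero _ (by simp), fun I => ?_⟩
  have h3 : ∀ (x y : W.H X) {i j : ℕ}, x ∈ W.gr X i → y ∈ W.gr X j →
      W.map F (xp W x y) = (-1 : W.K) ^ (i * j) • xp W y x := by
    intro x y i j hx hy
    rw [xp_def, map_mul (W.map F), ← W.map_comp, ← W.map_comp, Obj.lift_fst, Obj.lift_snd,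
      W.comm (W.map_mem _ hx) (W.map_mem _ hy), xp_def]
  rw [bcl_succ hc, bcl_succ hc, bcl_zero hc, bcl_zero hc]
  exact h3 _ _ (hb.mem _) (hb.mem _)

/-- The swap of the last two factors. -/
lemma good_swap1 (hb : HBas b deg) (hc : Crd b c) (n : ℕ) :
    Good (W := W) (X := X) deg c (n + 2)
      (Equiv.swap (Fin.last (n + 1)).castSucc (Fin.last (n + 2))) := by
  let A : 𝒱.Obj := pw X n
  let F : (A.prod X).prod X ⟶ (A.prod X).prod X :=
    lift (lift (fst (A.prod X) X ≫ fst A X) (snd (A.prod X) X))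
      (fst (A.prod X) X ≫ snd A X)
  refine ⟨F, fun d => (-1 : W.K) ^ (d (Fin.last (n + 1)).castSucc * d (Fin.last (n + 2))),
    fun d => pow_ne_zero _ (by simp), fun I => ?_⟩
  have h3 : ∀ (a : W.H A) (x y : W.H X) {i j : ℕ}, x ∈ W.gr X i → y ∈ W.gr X j →
      W.map F (xp W (xp W a x) y) = (-1 : W.K) ^ (i * j) • xp W (xp W a y) x := by
    intro a x y i j hx hy
    rw [xp_def, map_mul (W.map F), ← W.map_comp, ← W.map_comp, Obj.lift_fst, Obj.lift_snd,
      xp_def, map_mul (W.map _), ← W.map_comp, ← W.map_comp, Obj.lift_fst, Obj.lift_snd,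
      xp_def (xp W a y), xp_def a y, map_mul (W.map _), W.map_comp, W.map_comp, mul_assoc,
      W.comm (W.map_mem _ hx) (W.map_mem _ (W.map_mem _ hy)), mul_smul_comm, mul_assoc]
  have h4 : bcl c (n + 1 + 1) (I ∘ Equiv.swap (Fin.last (n + 1)).castSucc (Fin.last (n + 2))) =
      (xp W (xp W (bcl c n (fun k => I k.castSucc.castSucc)) (b (I (Fin.last (n + 2)))) :
        W.H ((pw X n).prod X)) (b (I (Fin.last (n + 1)).castSucc)) :
        W.H (((pw X n).prod X).prod X)) := by
    rw [bcl_succ2 hc]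
    have h5 : (fun k : Fin (n + 1) => (I ∘ Equiv.swap (Fin.last (n + 1)).castSucc
        (Fin.last (n + 2))) k.castSucc.castSucc) = fun k => I k.castSucc.castSucc := by
      funext k
      refine congrArg I (Equiv.swap_apply_of_ne_of_ne ?_ ?_)
      · intro h
        have := congrArg Fin.val h
        simp only [Fin.val_castSucc, Fin.val_last] at this
        omega
      · intro h
        have := congrArg Fin.val h
        simp only [Fin.val_castSucc, Fin.val_last] at this
        omega
    have h6 : (I ∘ Equiv.swap (Fin.last (n + 1)).castSucc (Fin.last (n + 2)))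
        (Fin.last (n + 1)).castSucc = I (Fin.last (n + 2)) :=
      congrArg I (Equiv.swap_apply_left _ _)
    have h7 : (I ∘ Equiv.swap (Fin.last (n + 1)).castSucc (Fin.last (n + 2)))
        (Fin.last (n + 1 + 1)) = I (Fin.last (n + 1)).castSucc :=
      congrArg I (Equiv.swap_apply_right _ _)
    rw [h5, h6, h7]
  have h8 := bcl_succ2 hc n I
  refine (congrArg (W.map F) h8).trans ?_
  refine (h3 _ _ _ (hb.mem _) (hb.mem _)).trans ?_
  exact congrArg (fun z => (-1 : W.K) ^ (deg (I (Fin.last (n + 1)).castSucc) *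
    deg (I (Fin.last (n + 2)))) • z) h4.symm

lemma good_all (hb : HBas b deg) (hc : Crd b c) : ∀ (n : ℕ) (σ : Equiv.Perm (Fin (n + 1))),
    Good (W := W) (X := X) deg c n σ
  | 0, σ => by
    have h1 : σ = 1 := by
      apply Equiv.ext
      intro i
      rw [Fin.fin_one_eq_zero (σ i), Fin.fin_one_eq_zero i]
      rfl
    rw [h1]
    exact good_one 0
  | n + 1, σ => by
    have h1 : σ ∈ Submonoid.closure (Set.range fun i : Fin (n + 1) =>
        Equiv.swap i.castSucc i.succ) := by
      rw [Equiv.Perm.mclosure_swap_castSucc_succ]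
      trivial
    induction h1 using Submonoid.closure_induction with
    | mem x hx =>
      obtain ⟨i, rfl⟩ := hx
      refine Fin.lastCases ?_ (fun j => ?_) i
      · obtain - | n := n
        · exact good_swap0 hb hc
        · have h2 := good_swap1 hb hc n
          have h3 : (Fin.last (n + 1)).succ = Fin.last (n + 2) := Fin.succ_last _
          show Good deg c (n + 2) (Equiv.swap (Fin.last (n + 1)).castSucc (Fin.last (n + 1)).succ)
          rw [h3]
          exact h2
      · refine good_ext hc (good_all hb hc n (Equiv.swap j.castSucc j.succ)) _ (fun l => ?_) ?_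
        · show Equiv.swap j.castSucc.castSucc j.castSucc.succ l.castSucc = _
          rw [Fin.succ_castSucc]
          exact (Fin.castSucc_injective (n + 1)).swap_apply j.castSucc j.succ l
        · refine Equiv.swap_apply_of_ne_of_ne ?_ ?_
          · exact (Fin.castSucc_lt_last _).ne'
          · intro h
            have := congrArg Fin.val h
            simp only [Fin.val_succ, Fin.val_castSucc, Fin.val_last] at this
            omega
    | one => exact good_one _
    | mul x y _ _ hx hy => exact good_mul hx hy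

end PrmL

theorem prm (W : WeilCohomology.{u, 0} ops) : S_PRM W := by
  intro X ι _ _ b deg hb c hc n σ
  exact PrmL.good_all hb hc n σ

end Pool.Agent.Helper7K9.TC
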