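import Pool.Agent.Helper7K9.TC.Idl

set_option autoImplicit false
set_option linter.unusedVariables false
set_option linter.unusedSectionVars false
set_option linter.unusedSimpArgs false

/-! [RAD] Cartier's theorem -/

namespace Pool.Agent.Helper7K9.TC

open MvPolynomial

namespace RadL

variable {ι Ω : Type} [Fintype ι] [DecidableEq ι] [Field Ω]

theorem ev_X (g : ι → ι → Ω) (p : ι × ι) : ev g (X p) = g p.1 p.2 := by
  simp [ev]

theorem ev_C (g : ι → ι → Ω) (a : Ω) : ev g (C a) = a := by
  simp [ev, algebraMap_eq]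

theorem dv_X (ξ : ι → ι → Ω) (p : ι × ι) : dv ξ (X p) = ∑ k, X (p.1, k) * C (ξ k p.2) := by
  simp [dv, mkDerivation_X]

/-- coordinates at the identity -/
noncomputable def yy (p : ι × ι) : MvPolynomial (ι × ι) Ω := X p - C (idm ι Ω p.1 p.2)

/-- the maximal ideal of a matrix -/
noncomputable def mx (g : ι → ι → Ω) : Ideal (MvPolynomial (ι × ι) Ω) := RingHom.ker (ev g)

theorem mem_mx {g : ι → ι → Ω} {f : MvPolynomial (ι × ι) Ω} : f ∈ mx g ↔ ev g f = 0 :=
  RingHom.mem_ker

theorem yy_mem (p : ι × ι) : (yy p : MvPolynomial (ι × ι) Ω) ∈ mx (idm ι Ω) := by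
  rw [mem_mx, yy, map_sub, ev_X, ev_C, sub_self]

/-- the maximal ideal of the identity is generated by the coordinates -/
theorem sub_mem (f : MvPolynomial (ι × ι) Ω) :
    f - C (ev (idm ι Ω) f) ∈ Ideal.span (Set.range (yy : ι × ι → MvPolynomial (ι × ι) Ω)) := by
  induction f using MvPolynomial.induction_on with
  | C a => rw [ev_C, sub_self]; exact Ideal.zero_mem _
  | add f g hf hg =>
    rw [map_add, map_add]
    have : f + g - (C (ev (idm ι Ω) f) + C (ev (idm ι Ω) g))
        = (f - C (ev (idm ι Ω) f)) + (g - C (ev (idm ι Ω) g)) := by ring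
    rw [this]
    exact Ideal.add_mem _ hf hg
  | mul_X f p hf =>
    rw [map_mul, map_mul, ev_X]
    have : f * X p - C (ev (idm ι Ω) f) * C (idm ι Ω p.1 p.2)
        = X p * (f - C (ev (idm ι Ω) f)) + C (ev (idm ι Ω) f) * yy p := by
      unfold yy; ring
    rw [this]
    exact Ideal.add_mem _ (Ideal.mul_mem_left _ _ hf)
      (Ideal.mul_mem_left _ _ (Ideal.subset_span ⟨p, rfl⟩))

theorem mx_eq : mx (idm ι Ω) = Ideal.span (Set.range (yy : ι × ι → MvPolynomial (ι × ι) Ω)) := by
  apply le_antisymm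
  · intro f hf
    have h := sub_mem f
    rw [mem_mx.1 hf, map_zero, sub_zero] at h
    exact h
  · rw [Ideal.span_le]
    rintro _ ⟨p, rfl⟩
    exact yy_mem p

/-- matrix units -/
def eu (p : ι × ι) : ι → ι → Ω := fun i j => if (i, j) = p then 1 else 0

/-- the differential of `f` at the identity -/
noncomputable def lam (f : MvPolynomial (ι × ι) Ω) : (ι → ι → Ω) →ₗ[Ω] Ω where
  toFun ξ := ev (idm ι Ω) (dv ξ f)
  map_add' ξ η := by
    have : dv (ξ + η) = dv ξ + dv η := by
      apply derivation_ext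
      intro p
      rw [Derivation.add_apply, dv_X, dv_X, dv_X, ← Finset.sum_add_distrib]
      refine Finset.sum_congr rfl fun k _ => ?_
      simp only [Pi.add_apply, map_add]
      ring
    rw [this, Derivation.add_apply, map_add]
  map_smul' c ξ := by
    have : dv (c • ξ) = c • dv ξ := by
      apply derivation_ext
      intro p
      rw [Derivation.smul_apply, dv_X, dv_X, Finset.smul_sum]
      refine Finset.sum_congr rfl fun k _ => ?_
      simp only [Pi.smul_apply, smul_eq_mul, map_mul, MvPolynomial.smul_eq_C_mul]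
      ring
    rw [this, Derivation.smul_apply, map_smul]
    rfl

theorem lam_apply (f : MvPolynomial (ι × ι) Ω) (ξ : ι → ι → Ω) :
    lam f ξ = ev (idm ι Ω) (dv ξ f) := rfl

/-- the differential as a linear map -/
noncomputable def Lam : MvPolynomial (ι × ι) Ω →ₗ[Ω] Module.Dual Ω (ι → ι → Ω) where
  toFun f := lam f
  map_add' f g := by
    refine LinearMap.ext fun ξ => ?_
    simp only [lam_apply, map_add, LinearMap.add_apply]
  map_smul' c f := by
    refine LinearMap.ext fun ξ => ?_
    simp only [lam_apply, Derivation.map_smul, map_smul, LinearMap.smul_apply, RingHom.id_apply]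

theorem ev_dv_X (ξ : ι → ι → Ω) (p : ι × ι) : ev (idm ι Ω) (dv ξ (X p)) = ξ p.1 p.2 := by
  rw [dv_X, map_sum]
  simp only [map_mul, ev_X, ev_C, idm]
  simp

/-- the linear part -/
noncomputable def lp (l : (ι → ι → Ω) →ₗ[Ω] Ω) : MvPolynomial (ι × ι) Ω :=
  ∑ p, C (l (eu p)) * yy p

theorem taylor (f : MvPolynomial (ι × ι) Ω) :
    f - C (ev (idm ι Ω) f) - lp (lam f) ∈ mx (idm ι Ω) ^ 2 := by
  induction f using MvPolynomial.induction_on with
  | C a =>
    have h1 : lam (C a : MvPolynomial (ι × ι) Ω) = 0 := by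
      refine LinearMap.ext fun ξ => ?_
      rw [lam_apply]
      have : dv ξ (C a : MvPolynomial (ι × ι) Ω) = 0 := derivation_C _ _
      rw [this, map_zero]
      rfl
    rw [ev_C, sub_self, h1]
    simp [lp]
  | add f g hf hg =>
    have h1 : lam (f + g) = lam f + lam g := (Lam (ι := ι) (Ω := Ω)).map_add f g
    have h2 : lp (lam (f + g)) = lp (lam f) + lp (lam g) := by
      rw [h1]
      unfold lp
      rw [← Finset.sum_add_distrib]
      refine Finset.sum_congr rfl fun p _ => ?_
      simp only [LinearMap.add_apply, map_add]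
      ring
    rw [h2, map_add, map_add]
    have : f + g - (C (ev (idm ι Ω) f) + C (ev (idm ι Ω) g)) - (lp (lam f) + lp (lam g))
        = (f - C (ev (idm ι Ω) f) - lp (lam f)) + (g - C (ev (idm ι Ω) g) - lp (lam g)) := by ring
    rw [this]
    exact Ideal.add_mem _ hf hg
  | mul_X f q hf =>
    have h1 : ∀ ξ, lam (f * X q) ξ = ev (idm ι Ω) f * ξ q.1 q.2 + idm ι Ω q.1 q.2 * lam f ξ := by
      intro ξ
      rw [lam_apply, Derivation.leibniz, map_add, smul_eq_mul, smul_eq_mul, map_mul, map_mul,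
        ev_dv_X, ev_X, lam_apply]
    have h2 : lp (lam (f * X q)) = C (ev (idm ι Ω) f) * yy q
        + C (idm ι Ω q.1 q.2) * lp (lam f) := by
      unfold lp
      rw [Finset.mul_sum]
      have h3 : ∀ p : ι × ι, C (lam (f * X q) (eu p)) * (yy p : MvPolynomial (ι × ι) Ω)
          = (if p = q then C (ev (idm ι Ω) f) * yy q else 0)
            + C (idm ι Ω q.1 q.2) * (C (lam f (eu p)) * yy p) := by
        intro p
        rw [h1]
        by_cases hp : p = q
        · subst hp
          rw [if_pos rfl]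
          have : eu (Ω := Ω) p p.1 p.2 = 1 := by simp [eu]
          rw [this, mul_one, map_add, map_mul]
          ring
        · rw [if_neg hp]
          have : eu (Ω := Ω) p q.1 q.2 = 0 := by
            simp only [eu]
            rw [if_neg (fun h => hp h.symm)]
          rw [this, mul_zero, zero_add, map_mul]
          ring
      rw [Finset.sum_congr rfl fun p _ => h3 p, Finset.sum_add_distrib]
      simp
    rw [h2, map_mul, map_mul, ev_X]
    have h4 : f * X q - C (ev (idm ι Ω) f) * C (idm ι Ω q.1 q.2)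
        - (C (ev (idm ι Ω) f) * yy q + C (idm ι Ω q.1 q.2) * lp (lam f))
        = (f - C (ev (idm ι Ω) f)) * yy q
          + C (idm ι Ω q.1 q.2) * (f - C (ev (idm ι Ω) f) - lp (lam f)) := by
      unfold yy; ring
    rw [h4]
    refine Ideal.add_mem _ ?_ (Ideal.mul_mem_left _ _ hf)
    rw [sq]
    refine Ideal.mul_mem_mul ?_ (yy_mem q)
    rw [mem_mx, map_sub, ev_C, sub_self]

/-- the derivations preserve the radical -/
theorem der_rad [CharZero Ω] {J : Ideal (MvPolynomial (ι × ι) Ω)}
    (D : Derivation Ω (MvPolynomial (ι × ι) Ω) (MvPolynomial (ι × ι) Ω))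
    (hD : ∀ f ∈ J, D f ∈ J) : ∀ f ∈ J.radical, D f ∈ J.radical := by
  intro f hf
  obtain ⟨m, hm⟩ := hf
  have key : ∀ m p : ℕ, f ^ m * (D f) ^ p ∈ J → ∃ q, (D f) ^ q ∈ J := by
    intro m
    induction m with
    | zero => intro p h; exact ⟨p, by simpa using h⟩
    | succ m ih =>
      intro p h
      apply ih (p + 2)
      have h1 := Ideal.mul_mem_left J (D f) (hD _ h)
      have h2 : D f * D (f ^ (m + 1) * D f ^ p)
          = ((m : Ω) + 1) • (f ^ m * D f ^ (p + 2)) + f ^ (m + 1) * D f ^ p * ((p : MvPolynomial (ι × ι) Ω) * D (D f)) := by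
        rw [Derivation.leibniz, Derivation.leibniz_pow, Derivation.leibniz_pow]
        simp only [smul_eq_mul, nsmul_eq_mul, MvPolynomial.smul_eq_C_mul, Nat.add_sub_cancel]
        have h3 : (C ((m : Ω) + 1) : MvPolynomial (ι × ι) Ω) = (m : MvPolynomial (ι × ι) Ω) + 1 := by
          simp
        rw [h3]
        cases p with
        | zero => push_cast; ring
        | succ p => simp only [Nat.add_sub_cancel]; push_cast; ring
      rw [h2] at h1
      have h4 : ((m : Ω) + 1) • (f ^ m * D f ^ (p + 2)) ∈ J :=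
        (Ideal.add_mem_iff_left J (Ideal.mul_mem_right _ J h)).1 h1
      have h5 : (m : Ω) + 1 ≠ 0 := by exact_mod_cast Nat.succ_ne_zero m
      have h6 := Ideal.mul_mem_left J (C ((m : Ω) + 1)⁻¹) h4
      rw [MvPolynomial.smul_eq_C_mul, ← mul_assoc, ← map_mul, inv_mul_cancel₀ h5, map_one,
        one_mul] at h6
      exact h6
  exact key m 0 (by simpa using hm)

/-- the core: the radical is in all the ideals `m ^ k + J` -/
theorem core [CharZero Ω] {J : Ideal (MvPolynomial (ι × ι) Ω)} (h1 : idm ι Ω ∈ zs J)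
    (hT : ∀ ξ, (∀ f ∈ J, ev (idm ι Ω) (dv ξ f) = 0) → ∀ f ∈ J, dv ξ f ∈ J) (k : ℕ) :
    J.radical ≤ mx (idm ι Ω) ^ k ⊔ J := by
  set m := mx (idm ι Ω) with hm
  have hJm : J ≤ m := fun f hf => mem_mx.2 (h1 f hf)
  -- the tangent space
  set L0 : Submodule Ω (Module.Dual Ω (ι → ι → Ω)) :=
    Submodule.map (Lam (ι := ι) (Ω := Ω)) (J.restrictScalars Ω) with hL0
  set T : Submodule Ω (ι → ι → Ω) := L0.dualCoannihilator with hTdef
  have hTmem : ∀ ξ ∈ T, ∀ f ∈ J, dv ξ f ∈ J := by
    intro ξ hξ
    apply hT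
    intro f hf
    rw [hTdef, Submodule.mem_dualCoannihilator] at hξ
    exact hξ _ ⟨f, hf, rfl⟩
  obtain ⟨π, hπ⟩ := LinearMap.exists_leftInverse_of_injective T.subtype
    (LinearMap.ker_eq_bot.2 T.injective_subtype)
  have hπ' : ∀ t : T, π t = t := fun t => LinearMap.congr_fun hπ t
  set E : MvPolynomial (ι × ι) Ω → MvPolynomial (ι × ι) Ω :=
    fun f => ∑ p, yy p * dv (π (eu p) : ι → ι → Ω) f with hE
  have hEadd : ∀ f g, E (f + g) = E f + E g := by
    intro f g
    simp only [hE, map_add, mul_add]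
    rw [Finset.sum_add_distrib]
  have hEmul : ∀ f g, E (f * g) = f * E g + g * E f := by
    intro f g
    simp only [hE, Derivation.leibniz, smul_eq_mul]
    rw [Finset.mul_sum, Finset.mul_sum, ← Finset.sum_add_distrib]
    refine Finset.sum_congr rfl fun p _ => by ring
  have hEm : ∀ f, E f ∈ m := fun f =>
    Ideal.sum_mem _ fun p _ => Ideal.mul_mem_right _ _ (yy_mem p)
  have hEJ : ∀ f ∈ J, E f ∈ J := fun f hf =>
    Ideal.sum_mem _ fun p _ => Ideal.mul_mem_left _ _ (hTmem _ (π (eu p)).2 f hf)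
  -- linear forms vanishing on `T`
  have hlin : ∀ l : (ι → ι → Ω) →ₗ[Ω] Ω, (∀ t ∈ T, l t = 0) → lp l ∈ m ^ 2 ⊔ J := by
    intro l hl
    have h2 : l ∈ T.dualAnnihilator := (Submodule.mem_dualAnnihilator l).2 hl
    rw [hTdef, Subspace.dualCoannihilator_dualAnnihilator_eq] at h2
    obtain ⟨f, hf, rfl⟩ := h2
    have h3 := taylor f
    rw [mem_mx.1 (hJm hf), map_zero, sub_zero] at h3
    have h4 : lp (Lam f) = -(f - lp (lam f)) + f := by
      change lp (lam f) = _
      ring
    rw [h4]
    exact Ideal.add_mem _ (Ideal.mem_sup_left (Ideal.neg_mem_iff _ |>.2 h3)) (Ideal.mem_sup_right hf)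
  have hEy : ∀ q : ι × ι, E (yy q) - yy q ∈ m ^ 2 ⊔ J := by
    intro q
    -- the projection to the complement
    let l : (ι → ι → Ω) →ₗ[Ω] Ω :=
      { toFun := fun v => v q.1 q.2 - (π v : ι → ι → Ω) q.1 q.2
        map_add' := fun v w => by simp only [map_add, Submodule.coe_add, Pi.add_apply]; ring
        map_smul' := fun c v => by
          simp only [map_smul, Submodule.coe_smul, Pi.smul_apply, smul_eq_mul, RingHom.id_apply]
          ring }
    have hl : lp l ∈ m ^ 2 ⊔ J := hlin l (by
      intro t ht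
      have := hπ' ⟨t, ht⟩
      change t q.1 q.2 - (π t : ι → ι → Ω) q.1 q.2 = 0
      change π t = _ at this
      rw [this, sub_self])
    have h2 : lp l = yy q - ∑ p, yy p * C ((π (eu p) : ι → ι → Ω) q.1 q.2) := by
      unfold lp
      have h3 : ∀ p : ι × ι, C (l (eu p)) * (yy p : MvPolynomial (ι × ι) Ω)
          = (if p = q then yy q else 0) - yy p * C ((π (eu p) : ι → ι → Ω) q.1 q.2) := by
        intro p
        change C (eu p q.1 q.2 - (π (eu p) : ι → ι → Ω) q.1 q.2) * yy p = _
        by_cases hp : p = q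
        · subst hp
          rw [if_pos rfl]
          have : eu (Ω := Ω) p p.1 p.2 = 1 := by simp [eu]
          rw [this, map_sub, map_one]
          ring
        · rw [if_neg hp]
          have : eu (Ω := Ω) p q.1 q.2 = 0 := by
            simp only [eu]
            rw [if_neg (fun h => hp h.symm)]
          rw [this, map_sub, map_zero]
          ring
      rw [Finset.sum_congr rfl fun p _ => h3 p, Finset.sum_sub_distrib]
      simp
    have h4 : E (yy q) - yy q = ∑ p, yy p * ∑ k, yy (q.1, k) * C ((π (eu p) : ι → ι → Ω) k q.2)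
        - lp l := by
      have h5 : ∀ ξ : ι → ι → Ω, dv ξ (yy q) = ∑ k, yy (q.1, k) * C (ξ k q.2) + C (ξ q.1 q.2) := by
        intro ξ
        have : dv ξ (yy q) = dv ξ (X q) := by
          unfold yy
          rw [map_sub]
          have : dv ξ (C (idm ι Ω q.1 q.2) : MvPolynomial (ι × ι) Ω) = 0 := derivation_C _ _
          rw [this, sub_zero]
        rw [this, dv_X]
        have h6 : ∀ k, (yy (q.1, k) : MvPolynomial (ι × ι) Ω) * C (ξ k q.2)
            = X (q.1, k) * C (ξ k q.2) - (if q.1 = k then C (ξ k q.2) else 0) := by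
          intro k
          unfold yy idm
          split_ifs with h
          · rw [map_one]; ring
          · rw [map_zero]; ring
        rw [Finset.sum_congr rfl fun k _ => h6 k, Finset.sum_sub_distrib]
        simp
      simp only [hE, h5, mul_add]
      rw [Finset.sum_add_distrib, h2]
      ring
    rw [h4]
    refine Ideal.sub_mem _ (Ideal.mem_sup_left ?_) hl
    refine Ideal.sum_mem _ fun p _ => ?_
    rw [sq]
    exact Ideal.mul_mem_mul (yy_mem p) (Ideal.sum_mem _ fun k _ =>
      Ideal.mul_mem_right _ _ (yy_mem _))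
  have hsup : ∀ (n : ℕ) (a u : MvPolynomial (ι × ι) Ω), a ∈ m → u ∈ m ^ n ⊔ J →
      a * u ∈ m ^ (n + 1) ⊔ J := by
    intro n a u ha hu
    obtain ⟨v, hv, w, hw, rfl⟩ := Submodule.mem_sup.1 hu
    rw [mul_add]
    refine Ideal.add_mem _ (Ideal.mem_sup_left ?_) (Ideal.mem_sup_right (Ideal.mul_mem_left _ _ hw))
    rw [pow_succ']
    exact Ideal.mul_mem_mul ha hv
  have hEm1 : ∀ a ∈ m, E a - a ∈ m ^ 2 ⊔ J := by
    intro a ha
    rw [hm, mx_eq] at ha
    induction ha using Submodule.span_induction with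
    | mem x hx =>
      obtain ⟨q, rfl⟩ := hx
      exact hEy q
    | zero =>
      have : E 0 = 0 := by simp only [hE, map_zero, mul_zero, Finset.sum_const_zero]
      rw [this, sub_zero]
      exact Ideal.zero_mem _
    | add x y _ _ hx hy =>
      rw [hEadd]
      have : E x + E y - (x + y) = (E x - x) + (E y - y) := by ring
      rw [this]
      exact Ideal.add_mem _ hx hy
    | smul f x hx' hx =>
      rw [smul_eq_mul, hEmul]
      have hxm : x ∈ m := by rw [hm, mx_eq]; exact hx'
      have : f * E x + x * E f - f * x = f * (E x - x) + x * E f := by ring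
      rw [this]
      refine Ideal.add_mem _ (Ideal.mul_mem_left _ _ hx) (Ideal.mem_sup_left ?_)
      rw [sq]
      exact Ideal.mul_mem_mul hxm (hEm f)
  have hEk : ∀ (n : ℕ), ∀ u ∈ m ^ (n + 1), E u - ((n : MvPolynomial (ι × ι) Ω) + 1) * u
      ∈ m ^ (n + 2) ⊔ J := by
    intro n
    induction n with
    | zero =>
      intro u hu
      rw [zero_add, pow_one] at hu
      have := hEm1 u hu
      simpa using this
    | succ n ih =>
      intro u hu
      rw [pow_succ, mul_comm] at hu
      refine Submodule.mul_induction_on hu ?_ ?_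
      · intro a ha b hb
        rw [hEmul]
        have h2 : a * E b + b * E a - (((n + 1 : ℕ) : MvPolynomial (ι × ι) Ω) + 1) * (a * b)
            = a * (E b - ((n : MvPolynomial (ι × ι) Ω) + 1) * b) + b * (E a - a) := by
          push_cast; ring
        rw [h2]
        refine Ideal.add_mem _ (hsup _ _ _ ha (ih b hb)) ?_
        obtain ⟨v, hv, w, hw, hvw⟩ := Submodule.mem_sup.1 (hEm1 a ha)
        rw [← hvw, mul_add]
        refine Ideal.add_mem _ (Ideal.mem_sup_left ?_)
          (Ideal.mem_sup_right (Ideal.mul_mem_left _ _ hw))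
        have : m ^ (n + 1 + 2) = m ^ (n + 1) * m ^ 2 := by rw [← pow_add]
        rw [this]
        exact Ideal.mul_mem_mul hb hv
      · intro x y hx hy
        rw [hEadd]
        have : E x + E y - (((n + 1 : ℕ) : MvPolynomial (ι × ι) Ω) + 1) * (x + y)
            = (E x - (((n + 1 : ℕ) : MvPolynomial (ι × ι) Ω) + 1) * x)
              + (E y - (((n + 1 : ℕ) : MvPolynomial (ι × ι) Ω) + 1) * y) := by ring
        rw [this]
        exact Ideal.add_mem _ hx hy
  -- induction
  have hmr : J.radical ≤ m := by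
    have hmp : m.IsPrime := RingHom.ker_isPrime _
    exact (Ideal.IsPrime.radical_le_iff hmp).2 hJm
  have hstep : ∀ n : ℕ, J.radical ≤ m ^ (n + 1) ⊔ J := by
    intro n
    induction n with
    | zero =>
      rw [zero_add, pow_one]
      exact hmr.trans le_sup_left
    | succ n ih =>
      intro f hf
      obtain ⟨u, hu, w, hw, huw⟩ := Submodule.mem_sup.1 (ih hf)
      have h2 : E f ∈ m ^ (n + 1 + 1) ⊔ J := by
        refine Ideal.sum_mem _ fun p _ => hsup _ _ _ (yy_mem p) (ih ?_)
        exact der_rad _ (hTmem _ (π (eu p)).2) f hf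
      have h3 := hEk n u hu
      have h4 : ((n : MvPolynomial (ι × ι) Ω) + 1) * u ∈ m ^ (n + 1 + 1) ⊔ J := by
        have h5 : ((n : MvPolynomial (ι × ι) Ω) + 1) * u
            = E f - E w - (E u - ((n : MvPolynomial (ι × ι) Ω) + 1) * u) := by
          rw [← huw, hEadd]; ring
        rw [h5]
        exact Ideal.sub_mem _ (Ideal.sub_mem _ h2 (Ideal.mem_sup_right (hEJ w hw))) h3
      have h5 : (n : Ω) + 1 ≠ 0 := by exact_mod_cast Nat.succ_ne_zero n
      have h6 := Ideal.mul_mem_left (m ^ (n + 1 + 1) ⊔ J) (C ((n : Ω) + 1)⁻¹) h4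
      have h7 : ((n : MvPolynomial (ι × ι) Ω) + 1) = C ((n : Ω) + 1) := by simp
      rw [h7, ← mul_assoc, ← map_mul, inv_mul_cancel₀ h5, map_one, one_mul] at h6
      rw [← huw]
      exact Ideal.add_mem _ h6 (Ideal.mem_sup_right hw)
  cases k with
  | zero => rw [pow_zero, Ideal.one_eq_top, top_sup_eq]; exact le_top
  | succ n => exact hstep n

theorem rt_X (g : ι → ι → Ω) (p : ι × ι) : rt g (X p) = ∑ k, X (p.1, k) * C (g k p.2) := by
  simp [rt]

theorem rt_C (g : ι → ι → Ω) (a : Ω) : rt g (C a) = C a := by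
  simp [rt, algebraMap_eq]

theorem ev_rt (g h : ι → ι → Ω) (f : MvPolynomial (ι × ι) Ω) : ev g (rt h f) = ev (mm g h) f := by
  have : (ev g).comp (rt h) = ev (mm g h) := by
    apply MvPolynomial.algHom_ext
    intro p
    rw [AlgHom.comp_apply, rt_X, map_sum, ev_X]
    simp only [map_mul, ev_X, ev_C, mm]
  exact DFunLike.congr_fun this f

theorem rt_rt (g h : ι → ι → Ω) (hgh : mm h g = idm ι Ω) (f : MvPolynomial (ι × ι) Ω) :
    rt h (rt g f) = f := by
  have : (rt h).comp (rt g) = AlgHom.id Ω _ := by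
    apply MvPolynomial.algHom_ext
    intro p
    rw [AlgHom.comp_apply, rt_X, map_sum, AlgHom.id_apply]
    simp only [map_mul, rt_C, rt_X, Finset.sum_mul]
    rw [Finset.sum_comm]
    have h1 : ∀ l, ∑ k, X (p.1, l) * C (h l k) * (C (g k p.2) : MvPolynomial (ι × ι) Ω)
        = X (p.1, l) * C (idm ι Ω l p.2) := by
      intro l
      rw [← hgh]
      unfold mm
      rw [map_sum, Finset.mul_sum]
      refine Finset.sum_congr rfl fun k _ => ?_
      rw [map_mul, mul_assoc]
    rw [Finset.sum_congr rfl fun l _ => h1 l]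
    unfold idm
    rw [Finset.sum_eq_single p.2]
    · simp
    · intro l _ hl
      rw [if_neg hl, map_zero, mul_zero]
    · intro h'; exact absurd (Finset.mem_univ _) h'
  exact DFunLike.congr_fun this f

end RadL

open RadL in
/-- [RAD] -/
theorem rad : S_RAD := by
  intro ι Ω _ _ _ _ _ J h1 hinv hrt hT
  -- all points
  have hall : ∀ g ∈ zs J, ∀ k : ℕ, J.radical ≤ mx g ^ k ⊔ J := by
    intro g hg k f hf
    obtain ⟨h, hh, hgh, hhg⟩ := hinv g hg
    have h2 : rt g f ∈ J.radical := by
      obtain ⟨n, hn⟩ := hf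
      exact ⟨n, by rw [← map_pow]; exact hrt g hg _ hn⟩
    obtain ⟨u, hu, w, hw, huw⟩ := Submodule.mem_sup.1 (core h1 hT k h2)
    have h3 : f = rt h u + rt h w := by
      rw [← map_add, huw, rt_rt g h hhg]
    rw [h3]
    refine Ideal.add_mem _ (Ideal.mem_sup_left ?_) (Ideal.mem_sup_right (hrt h hh _ hw))
    have h4 : Ideal.map (rt h) (mx (idm ι Ω)) ≤ mx g := by
      rw [Ideal.map_le_iff_le_comap]
      intro v hv
      rw [Ideal.mem_comap, mem_mx, ev_rt, hgh]
      exact mem_mx.1 hv
    have h5 : rt h u ∈ Ideal.map (rt h) (mx (idm ι Ω) ^ k) := Ideal.mem_map_of_mem _ hu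
    rw [Ideal.map_pow] at h5
    exact Ideal.pow_right_mono h4 k h5
  intro f hf
  -- Krull
  set A : Ideal (MvPolynomial (ι × ι) Ω) :=
    { carrier := {a | a * f ∈ J}
      add_mem' := fun {a b} ha hb => by
        change (a + b) * f ∈ J
        rw [add_mul]; exact Ideal.add_mem _ ha hb
      zero_mem' := by
        change (0 : MvPolynomial (ι × ι) Ω) * f ∈ J
        rw [zero_mul]; exact Ideal.zero_mem _
      smul_mem' := fun c a ha => by
        change (c * a) * f ∈ J
        rw [mul_assoc]; exact Ideal.mul_mem_left _ _ ha } with hA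
  by_contra hfJ
  have hAtop : A ≠ ⊤ := by
    intro h
    apply hfJ
    have : (1 : MvPolynomial (ι × ι) Ω) ∈ A := by rw [h]; trivial
    have h2 : 1 * f ∈ J := this
    rwa [one_mul] at h2
  obtain ⟨M, hM, hAM⟩ := Ideal.exists_le_maximal A hAtop
  obtain ⟨x, hx⟩ := (MvPolynomial.isMaximal_iff_eq_vanishingIdeal_singleton).1 hM
  set g : ι → ι → Ω := fun i j => x (i, j) with hg
  have hMg : M = mx g := by
    rw [hx]
    ext a
    rw [mem_mx, MvPolynomial.mem_vanishingIdeal_singleton_iff]
    rfl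
  have hgz : g ∈ zs J := by
    intro a ha
    have h2 : a ∈ M := hAM (by
      change a * f ∈ J
      exact Ideal.mul_mem_right _ _ ha)
    rw [hMg] at h2
    exact mem_mx.1 h2
  have hmem : (Submodule.Quotient.mk f : MvPolynomial (ι × ι) Ω ⧸ J)
      ∈ (⨅ i : ℕ, mx g ^ i • ⊤ : Submodule (MvPolynomial (ι × ι) Ω) (MvPolynomial (ι × ι) Ω ⧸ J)) := by
    rw [Submodule.mem_iInf]
    intro k
    obtain ⟨u, hu, w, hw, huw⟩ := Submodule.mem_sup.1 (hall g hgz k hf)
    have h2 : (Submodule.Quotient.mk f : MvPolynomial (ι × ι) Ω ⧸ J)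
        = u • (Submodule.Quotient.mk 1 : MvPolynomial (ι × ι) Ω ⧸ J) := by
      rw [← Submodule.Quotient.mk_smul, smul_eq_mul, mul_one, Submodule.Quotient.eq, ← huw,
        add_sub_cancel_left]
      exact hw
    rw [h2]
    exact Submodule.smul_mem_smul hu Submodule.mem_top
  obtain ⟨r, hr⟩ := (Ideal.mem_iInf_smul_pow_eq_bot_iff (mx g) _).1 hmem
  have h2 : ((r : MvPolynomial (ι × ι) Ω) * f - f) ∈ J := by
    rw [← Submodule.Quotient.mk_smul, smul_eq_mul, Submodule.Quotient.eq] at hr
    exact hr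
  have h3 : (1 - (r : MvPolynomial (ι × ι) Ω)) ∈ A := by
    change (1 - (r : MvPolynomial (ι × ι) Ω)) * f ∈ J
    have : (1 - (r : MvPolynomial (ι × ι) Ω)) * f = -((r : MvPolynomial (ι × ι) Ω) * f - f) := by ring
    rw [this]
    exact (Ideal.neg_mem_iff J).2 h2
  have h4 : (1 - (r : MvPolynomial (ι × ι) Ω)) ∈ M := hAM h3
  have h5 : (r : MvPolynomial (ι × ι) Ω) ∈ M := by rw [hMg]; exact r.2
  have h6 : (1 : MvPolynomial (ι × ι) Ω) ∈ M := by
    have := Ideal.add_mem _ h4 h5
    rwa [sub_add_cancel] at this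
  exact hM.ne_top ((Ideal.eq_top_iff_one M).2 h6)

end Pool.Agent.Helper7K9.TC
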