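import Pool.Agent.Helper7K9.TC.Stm

/-! [SQ]: the classes of middle degree on `X ^ 2`. -/

open CategoryTheory AlgebraicGeometry TensorProduct

universe u v w

namespace Pool.Agent.Helper7K9.TC

open Module
open Pool.Agent.H914 Pool.Agent.H914.VarClass Pool.Agent.H914.VarClass.Obj
  Pool.Agent.H914.WeilCohomology
open Pool.Agent.Y133.Half
open Pool.Agent.Helper7K9.FP Pool.Agent.Helper7K9.FI

variable {k : Type u} [Field k] {𝒱 : VarClass k} {ops : CycleOps 𝒱}

namespace SqL

/-- The unit is a class. -/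
lemma one_P {W : WeilCohomology.{u, 0} ops} (Q : ClassPred W) (X : 𝒱.Obj) :
    Q.P X 0 (1 : W.H X) := by
  rw [← W.cl_fund X]
  exact Q.cl X.V.fundCycle_mem

/-- A class of top degree and trace one. -/
lemma exists_unit {W : WeilCohomology.{u, 0} ops} {Q : ClassPred W} {X : 𝒱.Obj}
    [Nontrivial (W.H X)] (h : Sys.Nondeg Q.sys X) : ∃ l, Q.P X X.dim l ∧ W.tr X l = 1 := by
  obtain ⟨y, hy, hy1⟩ : ∃ y ∈ Q.sys.C X, W.tr X y ≠ 0 := by
    by_contra hcon
    push Not at hcon
    exact one_ne_zero (α := W.H X) (h 1 (Q.sys.one X) fun y hy => by rw [one_mul]; exact hcon y hy)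
  refine exists_top (l := (W.tr X y)⁻¹ • y) (Submodule.smul_mem _ _ hy) ?_
  rw [map_smul, smul_eq_mul, inv_mul_cancel₀ hy1]

end SqL

open SqL

theorem sq (W : WeilCohomology.{u, 0} ops) : S_SQ W := by
  intro Q R X _ hM hnd z hz
  obtain ⟨l, hl, hl1⟩ := exists_unit hnd
  -- the diagonal
  have hδ : R.P (X.prod X) X.dim (W.push (diag X) 1) :=
    R.push (diag X) (j := 0) (l := X.dim) (by rw [dim_prod]; ring) (one_P R X)
  have h2 : R.P ((X.prod X).prod (X.prod X)) (2 * X.dim) (xp W z (W.push (diag X) 1)) := by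
    have := R.mul (R.map (fst (X.prod X) (X.prod X)) hz) (R.map (snd (X.prod X) (X.prod X)) hδ)
    rwa [← two_mul] at this
  -- the isomorphism with the power
  have h3 : Q.P ((X.prod X).prod (X.prod X)) (2 * X.dim) (xp W z (W.push (diag X) 1)) := by
    let θ : (pw X 1).prod (pw X 1) ≅ pw X (1 + 1 + 1) := pwAdd X 1 1
    have e1 : W.map θ.hom (W.map θ.inv (xp W z (W.push (diag X) 1))) =
        xp W z (W.push (diag X) 1) := by
      rw [← W.map_comp, θ.hom_inv_id, W.map_id]
      rfl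
    have h4 : R.P (pw X 3) (2 * X.dim) (W.map θ.inv (xp W z (W.push (diag X) 1))) :=
      R.map θ.inv h2
    have h5 := Q.map θ.hom (hM.mid _ h4)
    rw [e1] at h5
    exact h5
  have h4 := Q.push (fst (X.prod X) (X.prod X)) (l := X.dim) (j := 2 * X.dim + X.dim)
      (by simp only [dim_prod]; ring) (Q.mul h3 (Q.map (snd (X.prod X) (X.prod X)) (Q.map (fst X X) hl)))
  have h5 : W.push (fst (X.prod X) (X.prod X)) (xp W z (W.push (diag X) 1) *
      W.map (snd (X.prod X) (X.prod X)) (W.map (fst X X) l)) = z := by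
    have h6 : xp W z (W.push (diag X) 1) * W.map (snd (X.prod X) (X.prod X)) (W.map (fst X X) l) =
        xp W z (W.push (diag X) 1 * W.map (fst X X) l) := by
      rw [xp_def, xp_def, mul_assoc, ← map_mul]
    have h7 : W.push (diag X) (1 : W.H X) * W.map (fst X X) l ∈ PH W (X.prod X) 0 :=
      PH.of' (b := 0) (by omega) (W.mul_mem (R.gr hδ) (W.map_mem _ (Q.gr hl)))
    have h8 : W.tr (X.prod X) (W.push (diag X) (1 : W.H X) * W.map (fst X X) l) = 1 := by
      have e1 : diag X ≫ fst X X = 𝟙 X := Obj.lift_fst _ _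
      rw [W.tr_push, one_mul, ← W.map_comp, e1, W.map_id]
      exact hl1
    rw [h6, push_fst _ _ h7, h8, one_smul]
  rw [h5] at h4
  exact h4

end Pool.Agent.Helper7K9.TC
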