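import Pool.Agent.Helper7K9.TC.Tnk2

/-!
# Tannaka duality for the algebraic classes
-/

open CategoryTheory AlgebraicGeometry TensorProduct

universe u v w

namespace Pool.Agent.Helper7K9.TC

open Module
open Pool.Agent.H914 Pool.Agent.H914.VarClass Pool.Agent.H914.VarClass.Obj
  Pool.Agent.H914.WeilCohomology
open Pool.Agent.Y133.Half
open Pool.Agent.Y121.AH (em ex em_smul em_add em_mul em_map em_tr em_gr em_zero em_xp tmul_ind
  tmul_eq)
open Pool.Agent.Helper7K9.FP Pool.Agent.Helper7K9.FI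
open Pool.Agent.Helper7K9.FI.Fin1L (pol aeval_pol)

variable {k : Type u} [Field k] {𝒱 : VarClass k} {ops : CycleOps 𝒱}
  {W : WeilCohomology.{u, 0} ops} {X : 𝒱.Obj} {ι : Type} [Fintype ι]
  {b : Basis ι W.K (W.H X)} {deg : ι → ℕ}
  {c : ∀ n, W.H (pw X n) ≃ₗ[W.K] ((Fin (n + 1) → ι) → W.K)} {S : Sys W}
  {E : ∀ n, Module.End W.K (W.H (pw X n))} {Ω : Type} [Field Ω] [Algebra W.K Ω]
  {cΩ : ∀ n, (baseW W Ω).H (pw X n) ≃ₗ[(baseW W Ω).K] ((Fin (n + 1) → ι) → (baseW W Ω).K)}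

/-- The matrix of the trace form. -/
noncomputable def fT (b : Basis ι W.K (W.H X)) (Ω : Type) [Field Ω] [Algebra W.K Ω] :
    ι → ι → Ω := fun p q => algebraMap W.K Ω (W.tr X (b p * b q))

/-- The tensors given by the classes of the system. -/
def tS (S : Sys W) (c : ∀ n, W.H (pw X n) ≃ₗ[W.K] ((Fin (n + 1) → ι) → W.K)) (Ω : Type)
    [Field Ω] [Algebra W.K Ω] : ∀ n, Set ((Fin n → ι) → Ω)
  | 0 => ∅
  | n + 1 => {v | ∃ a ∈ S.C (pw X n), v = fun I => algebraMap W.K Ω (c n a I)}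

omit [Fintype ι] in
lemma mem_zs_span {G : Set (MvPolynomial (ι × ι) Ω)} {g : ι → ι → Ω} :
    g ∈ zs (Ideal.span G) ↔ ∀ f ∈ G, ev g f = 0 := by
  constructor
  · intro h f hf
    exact h f (Ideal.subset_span hf)
  · intro h f hf
    induction hf using Submodule.span_induction with
    | mem f hf => exact h f hf
    | zero => exact map_zero _
    | add x y _ _ hx hy => rw [map_add, hx, hy, add_zero]
    | smul a x _ hx => rw [smul_eq_mul, map_mul, hx, mul_zero]

lemma ev_pol (g : ι → ι → Ω) (n : ℕ) (v : (Fin n → ι) → Ω) (J : Fin n → ι) :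
    ev g (pol n v J) = tp g n v J :=
  aeval_pol g n v J

omit [Fintype ι] in
lemma ev_C (g : ι → ι → Ω) (a : Ω) : ev g (MvPolynomial.C a) = a := by
  rw [ev, MvPolynomial.aeval_C]
  rfl

/-- The invariants of the zeros of a radical ideal. -/
lemma fixed_coord [IsAlgClosed Ω] {J₀ : Ideal (MvPolynomial (ι × ι) Ω)} (hrad : J₀.IsRadical)
    {φ : MvPolynomial (ι × ι) Ω →ₗ[Ω] Ω} (hφ0 : ∀ f ∈ J₀, φ f = 0)
    {e : ∀ n, (Fin n → ι) → (Fin n → ι) → Ω}
    (hφ : ∀ n J I, φ (∏ k, MvPolynomial.X (J k, I k)) = e n J I)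
    (h1 : φ 1 = 1) {n : ℕ} (w : (Fin n → ι) → Ω) (hw : ∀ g ∈ zs J₀, tp g n w = w)
    (J : Fin n → ι) : w J = ∑ I, w I * e n J I := by
  have h2 : pol n w J - MvPolynomial.C (w J) ∈ J₀ := by
    rw [← hrad.radical, ← MvPolynomial.vanishingIdeal_zeroLocus_eq_radical (K := Ω),
      MvPolynomial.mem_vanishingIdeal_iff]
    intro x hx
    have hg : (fun p q => x (p, q)) ∈ zs J₀ := by
      intro f hf
      exact MvPolynomial.mem_zeroLocus_iff.1 hx f hf
    have h5 : ev (fun p q => x (p, q)) (pol n w J - MvPolynomial.C (w J)) = 0 := by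
      rw [map_sub, ev_pol, ev_C, hw _ hg, sub_self]
    exact h5
  have h3 := hφ0 _ h2
  rw [map_sub, sub_eq_zero, pol, map_sum] at h3
  have h4 : ∀ a : Ω, φ (MvPolynomial.C a) = a := by
    intro a
    have h6 : (MvPolynomial.C a : MvPolynomial (ι × ι) Ω) = a • (1 : MvPolynomial (ι × ι) Ω) := by
      rw [MvPolynomial.smul_eq_C_mul, mul_one]
    rw [h6, map_smul, h1, smul_eq_mul, mul_one]
  rw [h4] at h3
  refine h3.symm.trans ?_
  refine Finset.sum_congr rfl fun I _ => ?_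
  rw [mul_comm, ← MvPolynomial.smul_eq_C_mul, map_smul, hφ, smul_eq_mul]

/-- The zeros of the equations. -/
lemma mem_zs_iff (hb : HBas b deg) (hc : Crd b c) (hΩ : Crd (bK Ω b) cΩ) (g : ι → ι → Ω) :
    g ∈ zs (Ideal.span (eqs deg (fT b Ω) (tS S c Ω))) ↔ Fix S X Ω (opK Ω b g) := by
  rw [mem_zs_span]
  constructor
  · intro h
    refine ⟨?_, ?_, ?_⟩
    · refine hb.base.opm fun p i hp => (show g p i = 0 from ?_)
      have h1 := h _ (Or.inl ⟨p, i, hp, rfl⟩)
      rw [ev, MvPolynomial.aeval_X] at h1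
      exact h1
    · refine iso_of (b := bK Ω b) fun i j => ?_
      have h1 := h _ (Or.inr (Or.inl ⟨i, j, rfl⟩))
      rw [map_sub, ev_C, sub_eq_zero] at h1
      simp only [map_sum, map_mul, ev_C] at h1
      simp only [ev, MvPolynomial.aeval_X] at h1
      rw [mat_opK]
      simp only [tr_em]
      exact h1
    · intro n a ha
      refine (fix_iff hc hΩ g n a).2 ?_
      funext J
      have h1 := h _ (Or.inr (Or.inr ⟨n + 1, fun I => algebraMap W.K Ω (c n a I), ⟨a, ha, rfl⟩,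
        J, rfl⟩))
      rw [map_sub, ev_pol, ev_C, sub_eq_zero] at h1
      exact h1
  · rintro h f (⟨p, i, hp, rfl⟩ | ⟨i, j, rfl⟩ | ⟨n, a, ha, J, rfl⟩)
    · have h2 := hb.base.mat_eq h.gr hp
      rw [mat_opK] at h2
      rw [ev, MvPolynomial.aeval_X]
      exact h2
    · have h2 := tr_basis (b := bK Ω b) (opK Ω b g) i j
      rw [h.iso, mat_opK, tr_em] at h2
      simp only [tr_em] at h2
      rw [map_sub, ev_C, sub_eq_zero]
      simp only [map_sum, map_mul, ev_C]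
      simp only [ev, MvPolynomial.aeval_X]
      exact h2.symm
    · obtain - | n := n
      · exact absurd ha (Set.notMem_empty _)
      · obtain ⟨a, ha, rfl⟩ := ha
        rw [map_sub, ev_pol, ev_C, sub_eq_zero]
        exact congrFun ((fix_iff hc hΩ g n a).1 (h.fix n a ha)) J

/-- The inverses of the zeros of the equations. -/
lemma zs_inv [DecidableEq ι] (hb : HBas b deg) (hc : Crd b c) (hΩ : Crd (bK Ω b) cΩ) :
    ∀ g ∈ zs (Ideal.span (eqs deg (fT b Ω) (tS S c Ω))),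
      ∃ h ∈ zs (Ideal.span (eqs deg (fT b Ω) (tS S c Ω))),
      mm g h = idm ι Ω ∧ mm h g = idm ι Ω := by
  intro g hg
  rw [mem_zs_iff hb hc hΩ] at hg
  obtain ⟨y, hy, hxy, hyx⟩ := Fix.exists_inv hg
  refine ⟨mat (bK Ω b) y, ?_, ?_, ?_⟩
  · refine (mem_zs_iff hb hc hΩ (mat (bK Ω b) y)).2 ?_
    have h3 := opK_mat (b := b) y
    rw [← h3] at hy
    exact hy
  · have h4 := mat_mul (b := bK Ω b) (opK Ω b g) y
    rw [hxy, mat_opK, mat_one] at h4
    exact h4.symm
  · have h4 := mat_mul (b := bK Ω b) y (opK Ω b g)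
    rw [hyx, mat_opK, mat_one] at h4
    exact h4.symm

theorem tnk (hidl : S_IDL) (hphi : S_PHI) (hprm : S_PRM W) (hkun : S_KUN W) (hepr : S_EPR W)
    (hcon : S_CON W) (hcrd : ∀ V : WeilCohomology.{u, 0} ops, S_CRD V) : S_TNK W := by
  classical
  intro S X Ω _ _ _ _ hnd hK n v hv
  obtain ⟨ι, hι, b, deg, hb⟩ := exists_hbas W X
  obtain ⟨c, hc0, hc1⟩ := hcrd W X ι b
  have hc : Crd b c := ⟨hc0, hc1⟩
  obtain ⟨cΩ, hΩ0, hΩ1⟩ := hcrd (baseW W Ω) X ι (bK Ω b)
  have hΩ : Crd (bK Ω b) cΩ := ⟨hΩ0, hΩ1⟩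
  obtain ⟨E, hE1, hE2, hE3, hE4, hE5⟩ := hepr S X hnd
  obtain ⟨φ, hφ⟩ := hphi ι Ω (fun n J I => algebraMap W.K Ω (eE c E n J I)) fun n σ J I =>
    congrArg (algebraMap W.K Ω) (eE_perm hkun hprm hb hc hK hE3 n σ J I)
  have hkill : ∀ g ∈ eqs deg (fT b Ω) (tS S c Ω), ∀ (n : ℕ) (J I : Fin n → ι),
      φ ((∏ j, MvPolynomial.X (J j, I j)) * g) = 0 := by
    rintro g (⟨p, i, hp, rfl⟩ | ⟨i, j, rfl⟩ | ⟨m, a, ha, J₀, rfl⟩) n J I
    · rw [← prod_snoc, hφ, eE_ne hkun hb hc hK hE3, map_zero]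
      intro h
      apply hp
      have h1 := congrFun h (Fin.last n)
      simpa only [Function.comp_apply, Fin.snoc_last] using h1
    · rw [mul_sub, map_sub, sub_eq_zero, Finset.mul_sum, map_sum]
      have h1 := congrArg (algebraMap W.K Ω) (eE_con hcon hc hE3 hE4 n J I i j)
      rw [map_sum, map_mul] at h1
      have h2 : φ ((∏ j, MvPolynomial.X (J j, I j)) * MvPolynomial.C (fT b Ω i j)) =
          fT b Ω i j * algebraMap W.K Ω (eE c E n J I) := by
        rw [mul_comm, ← MvPolynomial.smul_eq_C_mul, map_smul, hφ, smul_eq_mul]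
      rw [h2]
      refine Eq.trans ?_ h1
      refine Finset.sum_congr rfl fun p _ => ?_
      rw [Finset.mul_sum, map_sum, map_sum]
      refine Finset.sum_congr rfl fun q _ => ?_
      rw [map_mul (algebraMap W.K Ω), ← hφ, ← mul_assoc, ← mul_assoc, ← prod_snoc, ← prod_snoc,
        mul_comm, ← MvPolynomial.smul_eq_C_mul, map_smul, smul_eq_mul]
      rfl
    · obtain - | m := m
      · exact absurd ha (Set.notMem_empty _)
      obtain ⟨a, ha, rfl⟩ := ha
      rw [mul_sub, map_sub, sub_eq_zero, pol, Finset.mul_sum, map_sum]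
      have h1 := congrArg (algebraMap W.K Ω) (eE_conc hc hE2 hE5 ha n J₀ J I)
      rw [map_sum, map_mul] at h1
      have h2 : φ ((∏ j, MvPolynomial.X (J j, I j)) *
          MvPolynomial.C (algebraMap W.K Ω (c m a J₀))) =
          algebraMap W.K Ω (c m a J₀) * algebraMap W.K Ω (eE c E n J I) := by
        rw [mul_comm, ← MvPolynomial.smul_eq_C_mul, map_smul, hφ, smul_eq_mul]
      rw [h2]
      refine Eq.trans ?_ h1
      refine Finset.sum_congr rfl fun I₀ _ => ?_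
      have h3 := hφ (m + 1 + n) (Fin.append J₀ J) (Fin.append I₀ I)
      rw [prod_append] at h3
      rw [map_mul (algebraMap W.K Ω), ← h3, ← mul_assoc, mul_comm,
        ← MvPolynomial.smul_eq_C_mul, map_smul,
        smul_eq_mul, mul_comm (∏ j, MvPolynomial.X (J j, I j))]
  have hrad := hidl ι Ω deg (fT b Ω) (tS S c Ω) (zs_inv hb hc hΩ)
  have hone : φ 1 = 1 := by
    have h4 := hφ 0 (fun j => j.elim0) fun j => j.elim0
    have h5 : (∏ j : Fin 0, MvPolynomial.X ((fun j => j.elim0 : Fin 0 → ι) j,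
        (fun j => j.elim0 : Fin 0 → ι) j) : MvPolynomial (ι × ι) Ω) = 1 := by simp
    rw [h5] at h4
    rw [h4]
    exact map_one _
  obtain ⟨w, hw⟩ : ∃ w : (Fin (n + 1) → ι) → Ω, cΩ n v = w := ⟨_, rfl⟩
  have hv0 : ∀ g ∈ zs (Ideal.span (eqs deg (fT b Ω) (tS S c Ω))), tp g (n + 1) w = w := by
    intro g hg
    have h2 := hv _ ((mem_zs_iff hb hc hΩ g).1 hg)
    have h3 := hΩ.pwo (opK Ω b g) n v
    rw [h2, mat_opK, hw] at h3
    exact h3.symm
  have hv1 : ∀ J : Fin (n + 1) → ι, w J =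
      ∑ I, w I * algebraMap W.K Ω (c n (E n (bcl c n I)) J) :=
    fun J => fixed_coord hrad (fun f hf => kill_ideal hkill hf) hφ hone _ hv0 J
  have hv2 : v = ∑ I, cΩ n v I • em W Ω (E n (bcl c n I)) := by
    apply (cΩ n).injective
    rw [map_sum]
    funext J
    rw [Finset.sum_apply]
    simp only [map_smul, Pi.smul_apply, hc.em hΩ, smul_eq_mul]
    have h1 := hv1 J
    rw [← hw] at h1
    exact h1
  rw [hv2]
  refine Submodule.sum_mem _ fun I _ => Submodule.smul_mem _ _ (Submodule.subset_span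
    ⟨_, hE1 n _, rfl⟩)

end Pool.Agent.Helper7K9.TC
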