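import Pool.Agent.Helper7K9.TC.Stm

/-! [TSY]: the Tate classes have the formal properties of the classes of algebraic cycles. -/

open CategoryTheory AlgebraicGeometry TensorProduct

universe u v w

namespace Pool.Agent.Helper7K9.TC

open Module
open Pool.Agent.H914 Pool.Agent.H914.VarClass Pool.Agent.H914.VarClass.Obj
  Pool.Agent.H914.WeilCohomology
open Pool.Agent.Y133.Half
open Pool.Agent.Helper7K9.FP Pool.Agent.Helper7K9.FI

variable {k : Type u} [Field k] {𝒱 : VarClass k} {ops : CycleOps 𝒱}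

namespace TsyL

variable {W : WeilCohomology.{u, 0} ops} {Γ : Type w} [Group Γ] (G : GalAct W Γ) {X Y : 𝒱.Obj}

lemma pow_act {g : Γ} {a : W.H X} {m j : ℕ} (h : G.act X (g ^ m) a = (G.χ g : W.K) ^ (m * j) • a)
    (n : ℕ) : G.act X (g ^ (m * n)) a = (G.χ g : W.K) ^ (m * n * j) • a := by
  induction n with
  | zero => simp
  | succ n ih =>
    have h1 : g ^ (m * (n + 1)) = g ^ (m * n) * g ^ m := by rw [← pow_add]; ring_nf
    have h2 : m * (n + 1) * j = m * j + m * n * j := by ring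
    rw [h1, map_mul, Module.End.mul_apply, h, map_smul, ih, smul_smul, ← pow_add, h2]

lemma act_surj (g : Γ) (b : W.H Y) : ∃ b', G.act Y g b' = b :=
  ⟨G.act Y g⁻¹ b, by rw [← Module.End.mul_apply, ← map_mul, mul_inv_cancel, map_one]; rfl⟩

/-- The action and the push-forward. -/
lemma push_act (f : X ⟶ Y) (g : Γ) (a : W.H X) :
    (G.χ g : W.K) ^ Y.dim • W.push f (G.act X g a) =
      (G.χ g : W.K) ^ X.dim • G.act Y g (W.push f a) := by
  apply W.tr_ext
  intro b'
  obtain ⟨b, rfl⟩ := act_surj G g b'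
  rw [smul_mul_assoc, smul_mul_assoc, map_smul, map_smul, ← G.mul, G.tr, W.tr_push, W.tr_push,
    ← G.map, ← G.mul, G.tr, smul_eq_mul, smul_eq_mul]
  ring

end TsyL

open TsyL

theorem tsy (W : WeilCohomology.{u, 0} ops) : S_TSY.{u, w} W := by
  intro Γ _ G
  refine ⟨{ P := fun X j c => IsTate G X j c
            gr := fun h => h.1
            zero := ?_
            add := ?_
            smul := ?_
            cl := ?_
            mul := ?_
            map := ?_
            push := ?_ }, rfl⟩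
  · intro X j
    exact ⟨Submodule.zero_mem _, fun g => ⟨1, one_pos, by rw [map_zero, smul_zero]⟩⟩
  · rintro X j a b ⟨ha, ha'⟩ ⟨hb, hb'⟩
    refine ⟨Submodule.add_mem _ ha hb, fun g => ?_⟩
    obtain ⟨m, hm, h1⟩ := ha' g
    obtain ⟨n, hn, h2⟩ := hb' g
    refine ⟨m * n, Nat.mul_pos hm hn, ?_⟩
    have h3 := pow_act G h1 n
    have h4 := pow_act G h2 m
    rw [mul_comm n m] at h4
    rw [map_add, h3, h4, smul_add]
  · rintro X j r a ⟨ha, ha'⟩
    refine ⟨Submodule.smul_mem _ _ ha, fun g => ?_⟩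
    obtain ⟨m, hm, h1⟩ := ha' g
    exact ⟨m, hm, by rw [map_smul, h1, smul_comm]⟩
  · intro X j z hz
    refine ⟨W.cl_mem hz, fun g => ⟨1, one_pos, ?_⟩⟩
    rw [pow_one, one_mul]
    exact G.cyc hz g
  · rintro X i j a b ⟨ha, ha'⟩ ⟨hb, hb'⟩
    refine ⟨by rw [mul_add]; exact W.mul_mem ha hb, fun g => ?_⟩
    obtain ⟨m, hm, h1⟩ := ha' g
    obtain ⟨n, hn, h2⟩ := hb' g
    refine ⟨m * n, Nat.mul_pos hm hn, ?_⟩
    have h3 := pow_act G h1 n
    have h4 := pow_act G h2 m
    rw [mul_comm n m] at h4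
    rw [G.mul, h3, h4, smul_mul_smul_comm, ← pow_add, ← mul_add]
  · rintro X Y f j a ⟨ha, ha'⟩
    refine ⟨W.map_mem f ha, fun g => ?_⟩
    obtain ⟨m, hm, h1⟩ := ha' g
    exact ⟨m, hm, by rw [G.map, h1, map_smul]⟩
  · rintro X Y f j l h a ⟨ha, ha'⟩
    refine ⟨Pool.Agent.Y121.AH.push_gr f h ha, fun g => ?_⟩
    obtain ⟨m, hm, h1⟩ := ha' g
    refine ⟨m, hm, ?_⟩
    have h2 := push_act G f (g ^ m) a
    have h3 : ((G.χ (g ^ m) : W.Kˣ) : W.K) = (G.χ g : W.K) ^ m := by
      rw [map_pow, Units.val_pow_eq_pow_val]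
    rw [h1, map_smul, h3, smul_smul, ← pow_mul, ← pow_mul, ← pow_add] at h2
    have h4 : m * Y.dim + m * j = m * X.dim + m * l := by
      rw [← mul_add, ← mul_add]; congr 1; omega
    rw [h4, pow_add, mul_smul] at h2
    have h5 : (G.χ g : W.K) ^ (m * X.dim) ≠ 0 := pow_ne_zero _ (Units.ne_zero _)
    exact (smul_right_injective _ h5 h2).symm

end Pool.Agent.Helper7K9.TC
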