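import Pool.Agent.Helper7K9.TC.Fin
import Pool.Agent.Helper7K9.TC.Tnk
import Pool.Agent.Helper7K9.TC.Dec
import Pool.Agent.Helper7K9.TC.Sq
import Pool.Agent.Helper7K9.TC.Tsy
import Pool.Agent.Helper7K9.TC.Rad
import Pool.Agent.Helper7K9.TC.IdlPf
import Pool.Agent.Helper7K9.TC.Phi
import Pool.Agent.Helper7K9.TC.Prm
import Pool.Agent.Helper7K9.TC.Kun
import Pool.Agent.Helper7K9.TC.Epr
import Pool.Agent.Helper7K9.TC.Contr

/-!
# The index of the algebraic classes in the Tate classes
-/

open CategoryTheory AlgebraicGeometry TensorProduct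

universe u v w

namespace Pool.Agent.Helper7K9.TC

open Module
open Pool.Agent.H914 Pool.Agent.H914.VarClass Pool.Agent.H914.VarClass.Obj
  Pool.Agent.H914.WeilCohomology
open Pool.Agent.Y133.Half
open Pool.Agent.Helper7K9.FP Pool.Agent.Helper7K9.FI
open Pool.Agent.Y133.Half.ClassPred (sp_ind sp_of sp_proj)

variable {k : Type u} [Field k] {𝒱 : VarClass k} {ops : CycleOps 𝒱}
  {W : WeilCohomology.{u, 0} ops} {Γ : Type w} [Group Γ]

theorem tnk' (W : WeilCohomology.{u, 0} ops) : S_TNK W :=
  tnk (idl rad) phi (prm W) (kun W) (epr W) (con W) crd0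

/-- The pairing on the Tate classes on `X` is nondegenerate. -/
def TateNondeg (G : GalAct W Γ) (X : 𝒱.Obj) : Prop :=
  ∀ j c, IsTate G X j c → (∀ c', IsTate G X (X.dim - j) c' → W.tr X (c * c') = 0) → c = 0

/-- The Tate class `z` of middle degree on `X × X` acts on the cohomology of `X` as a derivation
which is skew for the Poincaré duality and commutes with the Tate classes of middle degree. -/
def IsCentral (G : GalAct W Γ) (X : 𝒱.Obj) (z : W.H (X.prod X)) : Prop :=
  IsTate G (X.prod X) X.dim z ∧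
    (∀ a b, W.tr X (W.corr z a * b + a * W.corr z b) = 0) ∧
    (∀ a b, W.corr z (a * b) = W.corr z a * b + a * W.corr z b) ∧
    ∀ z', IsTate G (X.prod X) X.dim z' → ∀ a, W.corr z (W.corr z' a) = W.corr z' (W.corr z a)

/-- The dimension of the space of all Tate classes on `X`. -/
noncomputable def tateDim (G : GalAct W Γ) (X : 𝒱.Obj) : ℕ :=
  dimBy W (fun X j c => IsTate G X j c) X

lemma nondeg_of {G : GalAct W Γ} (R : ClassPred W) (hR : R.P = fun X j c => IsTate G X j c)
    {Z : 𝒱.Obj} (h : TateNondeg G Z) : Sys.Nondeg R.sys Z := by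
  intro x hx hxy
  have hP : ∀ {j c}, R.P Z j c ↔ IsTate G Z j c := by intro j c; rw [hR]
  have key : ∀ j, H914.proj (W.isInternal Z) (2 * j) x = 0 := by
    intro j
    have h1 : R.P Z j (H914.proj (W.isInternal Z) (2 * j) x) := sp_proj hx j
    by_cases hj : j ≤ Z.dim
    · refine h j _ (hP.1 h1) fun c' hc' => ?_
      have h2 := hxy c' (sp_of (hP.2 hc'))
      have h3 : ∀ x : W.H Z, W.tr Z (H914.proj (W.isInternal Z) (2 * j) x * c') =
          W.tr Z (x * c') := by
        intro x
        refine gr_induction (W.isInternal Z) (p := fun x =>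
          W.tr Z (H914.proj (W.isInternal Z) (2 * j) x * c') = W.tr Z (x * c')) ?_ ?_ x
        · intro i a ha
          by_cases hi : i = 2 * j
          · subst hi
            rw [proj_same _ ha]
          · rw [proj_ne _ ha hi, zero_mul, map_zero,
              W.tr_eq_zero (W.mul_mem ha hc'.1) (by omega)]
        · intro a b ha hb
          rw [map_add, add_mul, map_add, ha, hb, add_mul, map_add]
      rw [h3, h2]
    · have h2 := R.gr h1
      rw [W.gr_eq_bot Z _ (by omega), Submodule.mem_bot] at h2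
      exact h2
  have hodd : ∀ i, i % 2 ≠ 0 → H914.proj (W.isInternal Z) i x = 0 := by
    intro i hi
    refine PH.ind (p := fun v => H914.proj (W.isInternal Z) i v = 0) ?_ ?_ ?_ (R.sys.even hx)
    · intro j hj a ha
      refine proj_ne _ ha ?_
      rintro rfl
      exact hi (by simpa using hj)
    · exact map_zero _
    · intro a b ha hb; rw [map_add, ha, hb, add_zero]
  have h1 := sum_proj (W.isInternal Z) (N := 2 * Z.dim + 1) fun i hi => W.gr_eq_bot Z i (by omega)
  have h2 := congrArg (fun f : Module.End W.K (W.H Z) => f x) h1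
  simp only [LinearMap.sum_apply, Module.End.one_apply] at h2
  rw [← h2]
  refine Finset.sum_eq_zero fun i _ => ?_
  by_cases hi : i % 2 = 0
  · have h3 : i = 2 * (i / 2) := by omega
    rw [h3]
    exact key _
  · exact hodd i hi

/-- **The finiteness of the index.** -/
theorem finite_index (G : GalAct W Γ) (X : 𝒱.Obj) [Nontrivial (W.H X)]
    (h4 : ∀ c, IsTate G (pw X 3) (2 * X.dim) c → c ∈ spanCycles W (pw X 3) (2 * X.dim : ℕ))
    (hT : ∀ n, TateNondeg G (pw X n)) (hz : ∀ z, IsCentral G X z → z = 0) :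
    ∃ N : ℕ∞, 1 ≤ N ∧
      HasIndex (fun n => tateDim G (pw X n)) (fun n => cycRank ops (pw X n)) N ∧
      (N ≠ ⊤ ↔ ∀ n, HomEqNum W (pw X n)) ∧
      (N = 1 ↔ ∀ n j c, IsTate G (pw X n) j c → c ∈ spanCycles W (pw X n) j) ∧
      (N ≠ ⊤ → GeneratedOver W (fun Z j c => c ∈ spanCycles W Z j)
        (fun Z j c => IsTate G Z j c) X N) := by
  obtain ⟨R, hR⟩ := tsy W Γ G
  have hP : ∀ {Z j c}, R.P Z j c ↔ IsTate G Z j c := by intro Z j c; rw [hR]
  obtain ⟨N, h1, h2, h3, h5, h6⟩ := index_tate (sq W) (dec W) (tnk' W) R hR X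
    (fun c hc => h4 c (hP.1 hc)) (fun n => nondeg_of R hR (hT n)) fun z hz' => hz z
      ⟨hP.1 hz'.cls, fun a b => by
        have h := hz'.skew a b
        rw [LinearMap.neg_apply, mul_neg, map_neg] at h
        rw [map_add, h, neg_add_cancel], hz'.leib, fun z' hz'' => hz'.comm z' (hP.2 hz'')⟩
  refine ⟨N, h1, ?_, h3, h5.trans ?_, fun hN => ?_⟩
  · have e : (fun n => dimBy W R.P (pw X n)) = fun n => tateDim G (pw X n) := by
      funext n; rw [hR]; rfl
    rw [e] at h2
    exact h2
  · rw [hR]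
  · have h7 := h6 hN
    rw [hR] at h7
    exact h7

end Pool.Agent.Helper7K9.TC
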