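import Pool.Agent.Helper7K9.TC.Stm

/-!
# Tannaka duality: the linear functional
-/

open CategoryTheory AlgebraicGeometry TensorProduct

universe u v w

namespace Pool.Agent.Helper7K9.TC

open Module
open Pool.Agent.H914 Pool.Agent.H914.VarClass Pool.Agent.H914.VarClass.Obj
  Pool.Agent.H914.WeilCohomology
open Pool.Agent.Y133.Half
open Pool.Agent.Y121.AH (em ex em_smul em_add em_mul em_map em_tr em_gr em_zero em_xp tmul_ind
  tmul_eq)
open Pool.Agent.Helper7K9.FP Pool.Agent.Helper7K9.FI

variable {k : Type u} [Field k] {𝒱 : VarClass k} {ops : CycleOps 𝒱}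

section Bcl

variable {W : WeilCohomology.{u, 0} ops} {X : 𝒱.Obj} {ι : Type} [Fintype ι] [DecidableEq ι]
  {c : ∀ n, W.H (pw X n) ≃ₗ[W.K] ((Fin (n + 1) → ι) → W.K)}

lemma c_bcl (n : ℕ) (I J : Fin (n + 1) → ι) : c n (bcl c n I) J = if J = I then 1 else 0 := by
  rw [bcl, LinearEquiv.apply_symm_apply, Pi.single_apply]

lemma sum_bcl (n : ℕ) (v : W.H (pw X n)) : v = ∑ I, c n v I • bcl c n I := by
  apply (c n).injective
  funext J
  rw [map_sum, Finset.sum_apply]
  simp only [map_smul, Pi.smul_apply, c_bcl, smul_eq_mul, mul_ite, mul_one, mul_zero,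
    Finset.sum_ite_eq, Finset.mem_univ, if_true]

/-- The coordinates of the image under an operator. -/
lemma c_apply {m n : ℕ} (F : W.H (pw X m) →ₗ[W.K] W.H (pw X n)) (v : W.H (pw X m))
    (J : Fin (n + 1) → ι) : c n (F v) J = ∑ I, c m v I * c n (F (bcl c m I)) J := by
  conv_lhs => rw [sum_bcl (c := c) m v]
  rw [map_sum, map_sum, Finset.sum_apply]
  refine Finset.sum_congr rfl fun I _ => ?_
  rw [map_smul, map_smul, Pi.smul_apply, smul_eq_mul]

end Bcl

section Span

variable {ι Ω : Type} [Fintype ι] [DecidableEq ι] [Field Ω]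

open MvPolynomial

lemma prod_snoc {n : ℕ} (J I : Fin n → ι) (p i : ι) :
    (∏ j, X ((Fin.snoc J p : Fin (n + 1) → ι) j, (Fin.snoc I i : Fin (n + 1) → ι) j) :
      MvPolynomial (ι × ι) Ω) = (∏ j, X (J j, I j)) * X (p, i) := by
  rw [Fin.prod_univ_castSucc]
  simp only [Fin.snoc_castSucc, Fin.snoc_last]

lemma prod_append {m n : ℕ} (J₀ I₀ : Fin m → ι) (J I : Fin n → ι) :
    (∏ j, X (Fin.append J₀ J j, Fin.append I₀ I j) : MvPolynomial (ι × ι) Ω) =
      (∏ j, X (J₀ j, I₀ j)) * ∏ j, X (J j, I j) := by
  rw [Fin.prod_univ_add]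
  simp only [Fin.append_left, Fin.append_right]

/-- The products of variables span the polynomials. -/
lemma mem_span_prod (h : MvPolynomial (ι × ι) Ω) : h ∈ Submodule.span Ω
    {f | ∃ (n : ℕ) (J I : Fin n → ι), f = ∏ j, X (J j, I j)} := by
  induction h using MvPolynomial.induction_on with
  | C a =>
    have h1 : (C a : MvPolynomial (ι × ι) Ω) = a • (1 : MvPolynomial (ι × ι) Ω) := by
      rw [MvPolynomial.smul_eq_C_mul, mul_one]
    rw [h1]
    refine Submodule.smul_mem _ _ (Submodule.subset_span ⟨0, fun j => j.elim0,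
      fun j => j.elim0, ?_⟩)
    simp
  | add p q hp hq => exact Submodule.add_mem _ hp hq
  | mul_X p x hp =>
    obtain ⟨x, y⟩ := x
    induction hp using Submodule.span_induction with
    | mem f hf =>
      obtain ⟨n, J, I, rfl⟩ := hf
      exact Submodule.subset_span ⟨n + 1, Fin.snoc J x, Fin.snoc I y, (prod_snoc J I x y).symm⟩
    | zero => rw [zero_mul]; exact Submodule.zero_mem _
    | add f g _ _ hf hg => rw [add_mul]; exact Submodule.add_mem _ hf hg
    | smul a f _ hf => rw [smul_mul_assoc]; exact Submodule.smul_mem _ _ hf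

/-- A functional which kills the products of the equations with products of variables kills the
ideal. -/
lemma kill_ideal {φ : MvPolynomial (ι × ι) Ω →ₗ[Ω] Ω} {G : Set (MvPolynomial (ι × ι) Ω)}
    (h : ∀ g ∈ G, ∀ (n : ℕ) (J I : Fin n → ι), φ ((∏ j, X (J j, I j)) * g) = 0)
    {f : MvPolynomial (ι × ι) Ω} (hf : f ∈ Ideal.span G) : φ f = 0 := by
  induction hf using Submodule.span_induction with
  | mem g hg =>
    have h1 := h g hg 0 (fun j => j.elim0) fun j => j.elim0
    simpa using h1
  | zero => exact map_zero φ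
  | add a b _ _ ha hb => rw [map_add, ha, hb, add_zero]
  | smul a g hg' _ =>
    rw [smul_eq_mul]
    have key : ∀ g ∈ Ideal.span G, φ (a * g) = 0 := by
      intro g hg
      have hcl : ∀ a : MvPolynomial (ι × ι) Ω, ∀ g ∈ G, φ (a * g) = 0 := by
        intro a g hg
        induction (mem_span_prod a) using Submodule.span_induction with
        | mem f hf =>
          obtain ⟨n, J, I, rfl⟩ := hf
          exact h g hg n J I
        | zero => rw [zero_mul, map_zero]
        | add f f' _ _ hf hf' => rw [add_mul, map_add, hf, hf', add_zero]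
        | smul r f _ hf => rw [smul_mul_assoc, map_smul, hf, smul_zero]
      have h2 : ∀ a : MvPolynomial (ι × ι) Ω, φ (a * g) = 0 := by
        induction hg using Submodule.span_induction with
        | mem g hg => exact fun a => hcl a g hg
        | zero => intro a; rw [mul_zero, map_zero]
        | add x y _ _ hx hy => intro a; rw [mul_add, map_add, hx, hy, add_zero]
        | smul r x _ hx =>
          intro a
          rw [smul_eq_mul, ← mul_assoc]
          exact hx (a * r)
      exact h2 a
    exact key g hg'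

end Span

end Pool.Agent.Helper7K9.TC
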