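import Pool.Agent.Helper7K9.TC.Tnk1

/-!
# Tannaka duality: the matrices of the projectors
-/

open CategoryTheory AlgebraicGeometry TensorProduct

universe u v w

namespace Pool.Agent.Helper7K9.TC

open Module
open Pool.Agent.H914 Pool.Agent.H914.VarClass Pool.Agent.H914.VarClass.Obj
  Pool.Agent.H914.WeilCohomology
open Pool.Agent.Y133.Half
open Pool.Agent.Y121.AH (em ex em_smul em_add em_mul em_map em_tr em_gr em_zero em_xp tmul_ind
  tmul_eq)
open Pool.Agent.Helper7K9.FP Pool.Agent.Helper7K9.FI

variable {k : Type u} [Field k] {𝒱 : VarClass k} {ops : CycleOps 𝒱}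
  {W : WeilCohomology.{u, 0} ops} {X : 𝒱.Obj} {ι : Type} [Fintype ι] [DecidableEq ι]
  {b : Basis ι W.K (W.H X)} {deg : ι → ℕ}
  {c : ∀ n, W.H (pw X n) ≃ₗ[W.K] ((Fin (n + 1) → ι) → W.K)} {S : Sys W}
  {E : ∀ n, Module.End W.K (W.H (pw X n))}

/-- The matrices of the projectors. -/
noncomputable def eE (c : ∀ n, W.H (pw X n) ≃ₗ[W.K] ((Fin (n + 1) → ι) → W.K))
    (E : ∀ n, Module.End W.K (W.H (pw X n))) :
    ∀ n, (Fin n → ι) → (Fin n → ι) → W.K
  | 0 => fun _ _ => 1
  | n + 1 => fun J I => c n (E n (bcl c n I)) J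

/-- The entries with different degrees vanish. -/
lemma eE_ne (hkun : S_KUN W) (hb : HBas b deg) (hc : Crd b c)
    (hK : ∀ i, H914.proj (W.isInternal X) i ∈ S.Op X X)
    (hE : ∀ m n, ∀ F ∈ S.Op (pw X m) (pw X n), ∀ v, E n (F v) = F (E m v)) {n : ℕ}
    {J I : Fin n → ι} (h : deg ∘ J ≠ deg ∘ I) : eE c E n J I = 0 := by
  obtain - | n := n
  · exact absurd (funext fun j => j.elim0) h
  · obtain ⟨j, hj⟩ : ∃ j, deg (J j) ≠ deg (I j) := by
      by_contra hcon
      push Not at hcon
      exact h (funext hcon)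
    obtain ⟨F, hF, hF'⟩ := hkun S X ι b deg hb c hc hK n j (deg (I j))
    have h1 : F (bcl c n I) = bcl c n I := by rw [hF', if_pos rfl]
    change c n (E n (bcl c n I)) J = 0
    rw [← h1, hE n n F hF, c_apply]
    refine Finset.sum_eq_zero fun I' _ => ?_
    rw [hF']
    split_ifs with h2
    · rw [c_bcl, if_neg, mul_zero]
      rintro rfl
      exact hj h2
    · rw [map_zero, Pi.zero_apply, mul_zero]

/-- The matrices are invariant under permutations. -/
lemma eE_perm (hkun : S_KUN W) (hprm : S_PRM W) (hb : HBas b deg) (hc : Crd b c)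
    (hK : ∀ i, H914.proj (W.isInternal X) i ∈ S.Op X X)
    (hE : ∀ m n, ∀ F ∈ S.Op (pw X m) (pw X n), ∀ v, E n (F v) = F (E m v)) (n : ℕ)
    (σ : Equiv.Perm (Fin n)) (J I : Fin n → ι) :
    eE c E n (J ∘ σ) (I ∘ σ) = eE c E n J I := by
  by_cases h : deg ∘ J = deg ∘ I
  · obtain - | n := n
    · rfl
    · obtain ⟨f, s, hs, hf⟩ := hprm X ι b deg hb c hc n σ
      have hF : (W.map f).toLinearMap ∈ S.Op (pw X n) (pw X n) := Sys.Op.map f
      have h1 : ∀ (v : W.H (pw X n)) (J : Fin (n + 1) → ι), c n (W.map f v) (J ∘ σ) =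
          s (fun j => deg (J j)) * c n v J := by
        intro v J
        have h2 := c_apply (c := c) (W.map f).toLinearMap v (J ∘ σ)
        refine h2.trans ?_
        rw [Finset.sum_eq_single J]
        · change c n v J * c n (W.map f (bcl c n J)) (J ∘ σ) = _
          rw [hf, map_smul, Pi.smul_apply, c_bcl, if_pos rfl, smul_eq_mul, mul_one, mul_comm]
        · intro I _ hI
          change c n v I * c n (W.map f (bcl c n I)) (J ∘ σ) = _
          rw [hf, map_smul, Pi.smul_apply, c_bcl, if_neg, smul_zero, mul_zero]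
          intro h3
          apply hI
          funext j
          have h4 := congrFun h3 (σ.symm j)
          simp only [Function.comp_apply, Equiv.apply_symm_apply] at h4
          exact h4.symm
        · intro h3; exact absurd (Finset.mem_univ J) h3
      have h2 : E n (W.map f (bcl c n I)) = W.map f (E n (bcl c n I)) := hE n n _ hF _
      have h3 : c n (E n (W.map f (bcl c n I))) (J ∘ σ) = c n (W.map f (E n (bcl c n I)))
        (J ∘ σ) := congrArg (fun v => c n v (J ∘ σ)) h2
      rw [hf, h1, map_smul, map_smul, Pi.smul_apply, smul_eq_mul] at h3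
      have h4 : (fun j => deg (I j)) = fun j => deg (J j) := h.symm
      rw [h4] at h3
      exact mul_left_cancel₀ (hs _) h3
  · have h' : deg ∘ (J ∘ σ) ≠ deg ∘ (I ∘ σ) := by
      intro h1
      apply h
      funext j
      have h2 := congrFun h1 (σ.symm j)
      simpa using h2
    rw [eE_ne hkun hb hc hK hE h, eE_ne hkun hb hc hK hE h']

/-- The contraction. -/
lemma eE_con (hcon : S_CON W) (hc : Crd b c)
    (hE : ∀ m n, ∀ F ∈ S.Op (pw X m) (pw X n), ∀ v, E n (F v) = F (E m v))
    (hE' : ∀ n v, ∀ a ∈ S.C (pw X n), W.tr (pw X n) (E n v * a) = W.tr (pw X n) (v * a))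
    (n : ℕ) (J I : Fin n → ι) (i j : ι) :
    ∑ p, ∑ q, W.tr X (b p * b q) * eE c E (n + 2) (Fin.snoc (Fin.snoc J p : Fin (n + 1) → ι) q)
      (Fin.snoc (Fin.snoc I i : Fin (n + 1) → ι) j) = W.tr X (b i * b j) * eE c E n J I := by
  obtain ⟨h1, a, ha, h2⟩ := hcon S X ι b c hc
  obtain - | n := n
  · have h3 := h2 (E 1 (bcl c 1 (Fin.snoc (fun _ : Fin 1 => i) j)))
    rw [hE' 1 _ a ha, h2] at h3
    have e1 : ∀ (J : Fin 0 → ι) (p : ι), (Fin.snoc J p : Fin 1 → ι) = fun _ => p := by
      intro J p
      funext x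
      have hx : x = Fin.last 0 := Subsingleton.elim (α := Fin 1) _ _
      rw [hx]
      exact Fin.snoc_last (α := fun _ => ι) p J
    simp only [e1]
    change ∑ p, ∑ q, W.tr X (b p * b q) * c 1 (E 1 (bcl c 1 (Fin.snoc (fun _ : Fin 1 => i) j)))
      (Fin.snoc (fun _ : Fin 1 => p) q) = W.tr X (b i * b j) * 1
    rw [← h3, mul_one, Finset.sum_eq_single i, Finset.sum_eq_single j]
    · rw [c_bcl, if_pos rfl, mul_one]
    · intro q _ hq
      rw [c_bcl, if_neg, mul_zero]
      intro h4
      apply hq
      have h5 := congrFun h4 (Fin.last 1)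
      rwa [Fin.snoc_last, Fin.snoc_last] at h5
    · intro h; exact absurd (Finset.mem_univ _) h
    · intro p _ hp
      refine Finset.sum_eq_zero fun q _ => ?_
      rw [c_bcl, if_neg, mul_zero]
      intro h4
      apply hp
      have h5 := congrFun h4 (Fin.castSucc 0)
      rwa [Fin.snoc_castSucc, Fin.snoc_castSucc] at h5
    · intro h; exact absurd (Finset.mem_univ _) h
  · obtain ⟨F, hF, hF'⟩ := h1 n
    have h3 : F (bcl c (n + 2) (Fin.snoc (Fin.snoc I i : Fin (n + 2) → ι) j)) =
        W.tr X (b i * b j) • bcl c n I := by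
      apply (c n).injective
      funext J
      rw [hF', map_smul, Pi.smul_apply, c_bcl, smul_eq_mul, Finset.sum_eq_single i,
        Finset.sum_eq_single j]
      · rw [c_bcl]
        by_cases hJ : J = I
        · rw [hJ, if_pos rfl, if_pos rfl]
        · rw [if_neg hJ, if_neg]
          intro h4
          apply hJ
          funext x
          have h5 := congrFun h4 x.castSucc.castSucc
          rwa [Fin.snoc_castSucc, Fin.snoc_castSucc, Fin.snoc_castSucc, Fin.snoc_castSucc] at h5
      · intro q _ hq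
        rw [c_bcl, if_neg, mul_zero]
        intro h4
        apply hq
        have h5 := congrFun h4 (Fin.last (n + 2))
        rwa [Fin.snoc_last, Fin.snoc_last] at h5
      · intro h; exact absurd (Finset.mem_univ _) h
      · intro p _ hp
        refine Finset.sum_eq_zero fun q _ => ?_
        rw [c_bcl, if_neg, mul_zero]
        intro h4
        apply hp
        have h5 := congrFun h4 (Fin.castSucc (Fin.last (n + 1)))
        rwa [Fin.snoc_castSucc, Fin.snoc_castSucc, Fin.snoc_last, Fin.snoc_last] at h5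
      · intro h; exact absurd (Finset.mem_univ _) h
    have h4 := hF' (E (n + 2) (bcl c (n + 2) (Fin.snoc (Fin.snoc I i : Fin (n + 2) → ι) j))) J
    rw [← hE _ _ F hF, h3, map_smul, map_smul, Pi.smul_apply, smul_eq_mul] at h4
    exact h4.symm

/-- The product with a class of the system. -/
lemma eE_conc (hc : Crd b c)
    (hE1 : ∀ n, ∀ v ∈ S.C (pw X n), E n v = v)
    (hE : ∀ m n, ∀ a ∈ S.C (pw X m), ∀ v : W.H (pw X n),
        E (m + 1 + n) (conc W a v) = conc W a (E n v)) {m : ℕ} {a : W.H (pw X m)}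
    (ha : a ∈ S.C (pw X m)) (n : ℕ) (J₀ : Fin (m + 1) → ι) (J I : Fin n → ι) :
    ∑ I₀, c m a I₀ * eE c E (m + 1 + n) (Fin.append J₀ J) (Fin.append I₀ I) =
      c m a J₀ * eE c E n J I := by
  obtain - | n := n
  · have e1 : ∀ I₀ : Fin (m + 1) → ι, Fin.append I₀ I = I₀ := by
      intro I₀
      funext x
      have h := Fin.append_left I₀ I x
      exact h
    have e2 : ∀ I₀ : Fin (m + 1) → ι, eE c E (m + 1 + 0) (Fin.append J₀ J) (Fin.append I₀ I) =
        c m (E m (bcl c m I₀)) J₀ := by
      intro I₀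
      have e3 : Fin.append J₀ J = J₀ := by
        funext x
        have h := Fin.append_left J₀ J x
        exact h
      rw [e1 I₀, e3]
      rfl
    simp only [e2]
    change _ = c m a J₀ * 1
    rw [mul_one, ← c_apply (c := c) (E m) a J₀, hE1 m a ha]
  · let ap : (Fin (m + 1) → ι) → (Fin (n + 1) → ι) → (Fin (m + 1 + n + 1) → ι) :=
      fun I₀ I => (Fin.append I₀ I : Fin ((m + 1) + (n + 1)) → ι)
    have h1 : conc W a (bcl c n I) = ∑ I₀, c m a I₀ • bcl c (m + 1 + n) (ap I₀ I) := by
      apply (c (m + 1 + n)).injective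
      funext K
      change (Fin ((m + 1) + (n + 1)) → ι) at K
      have hK : K = Fin.append (fun j => K (Fin.castAdd (n + 1) j))
          (fun j => K (Fin.natAdd (m + 1) j)) := by
        funext x
        refine Fin.addCases (fun j => ?_) (fun j => ?_) x
        · rw [Fin.append_left]
        · rw [Fin.append_right]
      have h2 := hc.conc a n (bcl c n I) K
      refine h2.trans ?_
      rw [map_sum, Finset.sum_apply]
      simp only [map_smul, Pi.smul_apply, c_bcl, smul_eq_mul]
      rw [Finset.sum_eq_single (fun j => K (Fin.castAdd (n + 1) j))]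
      · by_cases hI : (fun j => K (Fin.natAdd (m + 1) j)) = I
        · have h3 : K = ap (fun j => K (Fin.castAdd (n + 1) j)) I := by
            rw [← hI]; exact hK
          rw [if_pos hI, if_pos h3]
        · rw [if_neg hI, if_neg]
          intro h3
          apply hI
          funext j
          have h4 : K (Fin.natAdd (m + 1) j) = Fin.append (fun j => K (Fin.castAdd (n + 1) j)) I
            (Fin.natAdd (m + 1) j) := congrFun h3 (Fin.natAdd (m + 1) j)
          rwa [Fin.append_right] at h4
      · intro I₀ _ hI₀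
        rw [if_neg, mul_zero]
        intro h3
        apply hI₀
        funext j
        have h4 : K (Fin.castAdd (n + 1) j) = Fin.append I₀ I (Fin.castAdd (n + 1) j) :=
          congrFun h3 (Fin.castAdd (n + 1) j)
        rw [Fin.append_left] at h4
        exact h4.symm
      · intro h; exact absurd (Finset.mem_univ _) h
    have h2 := hE m n a ha (bcl c n I)
    have h3 : c (m + 1 + n) (E (m + 1 + n) (conc W a (bcl c n I))) (ap J₀ J) =
        c (m + 1 + n) (conc W a (E n (bcl c n I))) (ap J₀ J) :=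
      congrArg (fun v => c (m + 1 + n) v (ap J₀ J)) h2
    have h4 := hc.conc a n (E n (bcl c n I)) (Fin.append J₀ J)
    rw [h1, map_sum, map_sum, Finset.sum_apply] at h3
    have h5 : ∑ I₀, c m a I₀ * c (m + 1 + n) (E (m + 1 + n)
        (bcl c (m + 1 + n) (ap I₀ I))) (ap J₀ J) =
        c (m + 1 + n) (conc W a (E n (bcl c n I))) (ap J₀ J) := by
      rw [← h3]
      refine Finset.sum_congr rfl fun I₀ _ => ?_
      rw [map_smul, map_smul, Pi.smul_apply, smul_eq_mul]
    refine h5.trans (h4.trans ?_)
    simp only [Fin.append_left, Fin.append_right]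
    rfl

end Pool.Agent.Helper7K9.TC
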